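import Pool.Agent.Run7.h897.TW.Sec

/-!
# The string tensions of the electric sectors
-/

open MeasureTheory Filter Topology

namespace Pool.Agent.Run7.h897.TW

set_option linter.unusedSectionVars false
set_option linter.unusedVariables false
set_option linter.style.haveILetI false

open Pool.Agent.Run7.h897.FS

noncomputable section

variable {N l : ℕ} {G : Type*} [Group G] [NeZero N] [NeZero l] {w : Ens N l G} {z : ZMod N → G}
  [MeasurableSpace G] [MeasurableMul₂ G] [MeasurableInv G] {μ : Measure G}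
  [IsProbabilityMeasure μ] [μ.IsMulLeftInvariant] [μ.IsInvInvariant]

/-- a flux lowers the partition function -/
lemma ZT_le {b : ℕ} [NeZero b] (hb : w.Bd) (hw : w.Sy) (h : Cn w z) (j : ZMod N) {n : ℕ}
    (hn : 1 ≤ n) [NeZero (2 * n)] : ZT μ w j (2 * n) b ≤ ZT μ w 0 (2 * n) b := by
  have hK := tk0_KS (μ := μ) (b := b) hb hw
  have hA := Cs_act (μ := μ) (b := b) hb h
  rw [ZT_eq hb hw h, ZT_eq hb hw h, Tw_zero hA, show 2 * n = n + n by ring, ← hK.EE_diag hn]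
  unfold Tw
  set k := kp (PM μ (Ls b l)) (tk0 μ b w) with hk
  have e1 : ∀ x, k (n + n) (Cs z j x) x ≤
      1 / 2 * (∫ y, k n (Cs z j x) y ^ 2 ∂(PM μ (Ls b l))) +
        1 / 2 * ∫ y, k n x y ^ 2 ∂(PM μ (Ls b l)) := by
    intro x
    rw [hK.semi n n hn hn, ← integral_const_mul, ← integral_const_mul, ← integral_add]
    · refine integral_mono ((hK.bl hn _).mul (hK.br hn _)).int
        (((BM.const _).mul ((hK.bl hn _).pow 2)).add ((BM.const _).mul
          ((hK.bl hn _).pow 2))).int fun y => ?_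
      simp only
      rw [hK.symm n hn y x]
      nlinarith [sq_nonneg (k n (Cs z j x) y - k n x y)]
    · exact ((BM.const _).mul ((hK.bl hn _).pow 2)).int
    · exact ((BM.const _).mul ((hK.bl hn _).pow 2)).int
  have b0 : BM fun x => ∫ y, k n x y ^ 2 ∂(PM μ (Ls b l)) := hK.bsq hn
  have b1 : BM fun x => k (n + n) (Cs z j x) x :=
    (hK.bm (n + n) (by omega)).comp ((hA.mp j).measurable.prodMk measurable_id)
  have b2 : BM fun x => ∫ y, k n (Cs z j x) y ^ 2 ∂(PM μ (Ls b l)) :=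
    BM.comp b0 (hA.mp j).measurable
  calc ∫ x, k (n + n) (Cs z j x) x ∂(PM μ (Ls b l))
      ≤ ∫ x, (1 / 2 * (∫ y, k n (Cs z j x) y ^ 2 ∂(PM μ (Ls b l))) +
        1 / 2 * ∫ y, k n x y ^ 2 ∂(PM μ (Ls b l))) ∂(PM μ (Ls b l)) :=
        integral_mono b1.int (((BM.const _).mul b2).add ((BM.const _).mul b0)).int e1
    _ = EE (PM μ (Ls b l)) k n := by
        rw [integral_add ((BM.const _).mul b2).int ((BM.const _).mul b0).int,
          integral_const_mul, integral_const_mul]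
        have h2 := hA.int_comp j (fun x => ∫ y, k n x y ^ 2 ∂(PM μ (Ls b l)))
        rw [h2]
        unfold EE
        ring

/-- the defect of a sector -/
def De (μ : Measure G) (w : Ens N l G) (χ : AddChar (ZMod N) ℂ) (a b : ℕ) [NeZero a] [NeZero b] :
    ℝ := (∑ j, (1 - (χ j).re) * ZT μ w j a b) / ∑ j, ZT μ w j a b

section De

variable {a b : ℕ} [NeZero a] [NeZero b] (χ : AddChar (ZMod N) ℂ)

lemma sum_ZT_pos (hb : w.Bd) : 0 < ∑ j, ZT μ w j a b :=
  Finset.sum_pos (fun j _ => ZT_pos hb j) ⟨0, Finset.mem_univ _⟩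

lemma re_le_one (j : ZMod N) : (χ j).re ≤ 1 := by
  have h1 := Complex.re_le_norm (χ j)
  rw [AddChar.norm_apply] at h1
  exact h1

lemma re_ge (j : ZMod N) : -1 ≤ (χ j).re := by
  have h1 := Complex.abs_re_le_norm (χ j)
  rw [AddChar.norm_apply] at h1
  exact (abs_le.1 h1).1

lemma ZS_one : ZS μ w (1 : AddChar (ZMod N) ℂ) a b = (1 / N) * ∑ j, ZT μ w j a b := by
  unfold ZS
  simp

lemma ZS_one_pos (hb : w.Bd) : 0 < ZS μ w (1 : AddChar (ZMod N) ℂ) a b := by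
  rw [ZS_one]
  have hN : (0 : ℝ) < N := by exact_mod_cast NeZero.pos N
  have := sum_ZT_pos (μ := μ) (w := w) (a := a) (b := b) hb
  positivity

lemma ZS_De (hb : w.Bd) : ZS μ w χ a b = ZS μ w 1 a b * (1 - De μ w χ a b) := by
  have h1 := sum_ZT_pos (μ := μ) (w := w) (a := a) (b := b) hb
  rw [ZS_one]
  unfold ZS De
  rw [mul_assoc]
  congr 1
  rw [mul_sub, mul_one, mul_div_cancel₀ _ h1.ne', ← Finset.sum_sub_distrib]
  refine Finset.sum_congr rfl fun j _ => ?_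
  ring

lemma De_nonneg (hb : w.Bd) : 0 ≤ De μ w χ a b := by
  unfold De
  refine div_nonneg (Finset.sum_nonneg fun j _ => mul_nonneg ?_ (ZT_pos hb j).le)
    (sum_ZT_pos hb).le
  linarith [re_le_one χ j]

/-- upper bound for the defect -/
lemma De_le (hb : w.Bd) {η : ℝ} (hη : 0 ≤ η)
    (h : ∀ j, χ j ≠ 1 → ZT μ w j a b ≤ η * ZT μ w 0 a b) : De μ w χ a b ≤ 2 * N * η := by
  unfold De
  have h0 := ZT_pos (μ := μ) (a := a) (b := b) hb 0
  rw [div_le_iff₀ (sum_ZT_pos hb)]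
  have h1 : ∀ j ∈ (Finset.univ : Finset (ZMod N)), (1 - (χ j).re) * ZT μ w j a b ≤
      2 * η * ZT μ w 0 a b := by
    intro j _
    by_cases hj : χ j = 1
    · rw [hj]
      simp only [Complex.one_re, sub_self, zero_mul]
      positivity
    · calc (1 - (χ j).re) * ZT μ w j a b ≤ 2 * (η * ZT μ w 0 a b) := by
            refine mul_le_mul (by linarith [re_ge χ j]) (h j hj) (ZT_pos hb j).le (by norm_num)
        _ = _ := by ring
  refine (Finset.sum_le_card_nsmul _ _ _ h1).trans ?_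
  rw [Finset.card_univ, ZMod.card, nsmul_eq_mul]
  have h2 : ZT μ w 0 a b ≤ ∑ j, ZT μ w j a b :=
    Finset.single_le_sum (f := fun j => ZT μ w j a b) (fun j _ => (ZT_pos hb j).le)
      (Finset.mem_univ 0)
  calc (N : ℝ) * (2 * η * ZT μ w 0 a b) = 2 * N * η * ZT μ w 0 a b := by ring
    _ ≤ _ := by gcongr

/-- lower bound for the defect -/
lemma De_ge (hb : w.Bd) {η : ℝ} {j : ZMod N} (h : η * ZT μ w 0 a b ≤ ZT μ w j a b)
    (hle : ∀ j, ZT μ w j a b ≤ ZT μ w 0 a b) : (1 - (χ j).re) * η / N ≤ De μ w χ a b := by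
  have hN : (0 : ℝ) < N := by exact_mod_cast NeZero.pos N
  have h0 := ZT_pos (μ := μ) (a := a) (b := b) hb 0
  have hr : 0 ≤ 1 - (χ j).re := by linarith [re_le_one χ j]
  unfold De
  rw [div_le_div_iff₀ hN (sum_ZT_pos hb)]
  have h1 : ∑ j, ZT μ w j a b ≤ N * ZT μ w 0 a b := by
    refine (Finset.sum_le_card_nsmul _ _ _ fun j _ => hle j).trans ?_
    rw [Finset.card_univ, ZMod.card, nsmul_eq_mul]
  have h2 : (1 - (χ j).re) * ZT μ w j a b ≤ ∑ j, (1 - (χ j).re) * ZT μ w j a b :=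
    Finset.single_le_sum (f := fun j => (1 - (χ j).re) * ZT μ w j a b)
      (fun j _ => mul_nonneg (by linarith [re_le_one χ j]) (ZT_pos hb j).le) (Finset.mem_univ j)
  rcases le_or_gt η 0 with hη | hη
  · have h3 : 0 ≤ ∑ j, (1 - (χ j).re) * ZT μ w j a b :=
      (mul_nonneg hr (ZT_pos hb j).le).trans h2
    have h4 : (1 - (χ j).re) * η * ∑ j, ZT μ w j a b ≤ 0 :=
      mul_nonpos_of_nonpos_of_nonneg (mul_nonpos_of_nonneg_of_nonpos hr hη) (sum_ZT_pos hb).le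
    have h5 : 0 ≤ (∑ j, (1 - (χ j).re) * ZT μ w j a b) * N := by positivity
    linarith
  · calc (1 - (χ j).re) * η * ∑ j, ZT μ w j a b ≤ (1 - (χ j).re) * η * (N * ZT μ w 0 a b) := by
          gcongr
      _ = N * ((1 - (χ j).re) * (η * ZT μ w 0 a b)) := by ring
      _ ≤ N * ((1 - (χ j).re) * ZT μ w j a b) := by gcongr
      _ ≤ N * ∑ j, (1 - (χ j).re) * ZT μ w j a b := by gcongr
      _ = _ := by ring

end De

/-- the fluxes are small at the sizes from `M` up to `A` -/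
def Sm (μ : Measure G) (w : Ens N l G) (M A : ℕ) (η : ℝ) : Prop :=
  ∀ (p q : ℕ) [NeZero (2 * p)] [NeZero (2 * q)], M ≤ p → M ≤ q → p ≤ A → q ≤ A →
    ∀ j : ZMod N, j ≠ 0 → ZT μ w j (2 * p) (2 * q) ≤ η * ZT μ w 0 (2 * p) (2 * q)

/-- the criterion for all the sectors -/
theorem crX (hb : w.Bd) (hw : w.Sy) (h : Cn w z)
    (hD : ∀ (a b : ℕ) [NeZero a] [NeZero b] (s : ZMod a × ZMod b → ZMod N), ∑ u, s u = 0 →
      ∃ c : ZMod a × ZMod b → Fin 2 → ZMod N, ∀ u, dc c u = s u)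
    {a : ℕ} (ha : 1 ≤ a) {s1 s η : ℝ} (hs1 : s1 < s) (hcr : CrS μ w a s1) (hη : 0 ≤ η)
    (hη2 : 30 * N * η ≤ s - s1) (hη1 : 4 * N * η ≤ 1) (hS : Sm μ w a (4 * a) η)
    (χ : AddChar (ZMod N) ℂ) : CrX μ w χ a s ∧ 0 < ZX μ w χ fun _ => a := by
  have hN : (0 : ℝ) < N := by exact_mod_cast NeZero.pos N
  have key0 : ∀ (p q : ℕ) [NeZero (2 * p)] [NeZero (2 * q)], a ≤ p → a ≤ q → p ≤ 4 * a →
      q ≤ 4 * a →
      0 ≤ De μ w χ (2 * p) (2 * q) ∧ De μ w χ (2 * p) (2 * q) ≤ 2 * N * η := by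
    intro p q _ _ hp0 hq0 hp hq
    refine ⟨De_nonneg χ hb, De_le χ hb hη fun j hj => hS p q hp0 hq0 hp hq j ?_⟩
    rintro rfl
    exact hj (AddChar.map_zero_eq_one χ)
  -- one ratio
  have key : ∀ (p q : ℕ) [NeZero (2 * p)] [NeZero (2 * (2 * p))] [NeZero (2 * q)],
      a ≤ p → a ≤ q → 2 * p ≤ 4 * a → q ≤ 4 * a →
      1 - ZE μ w (2 * (2 * p)) (2 * q) / ZE μ w (2 * p) (2 * q) ^ 2 ≤ 1 / 15 * s1 →
      1 - ZS μ w χ (2 * (2 * p)) (2 * q) / ZS μ w χ (2 * p) (2 * q) ^ 2 ≤ 1 / 15 * s := by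
    intro p q _ _ _ hp0 hq0 hp hq hr
    obtain ⟨d1, d1'⟩ := key0 p q hp0 hq0 (by omega) hq
    obtain ⟨d2, d2'⟩ := key0 (2 * p) q (by omega) hq0 hp hq
    have z1 : 0 < ZS μ w (1 : AddChar (ZMod N) ℂ) (2 * p) (2 * q) := ZS_one_pos hb
    have z2 : 0 < ZS μ w (1 : AddChar (ZMod N) ℂ) (2 * (2 * p)) (2 * q) := ZS_one_pos hb
    have e1 := ZE_sum (μ := μ) (a := 2 * p) (b := 2 * q) hb h fun s hs => hD _ _ s hs
    have e2 := ZE_sum (μ := μ) (a := 2 * (2 * p)) (b := 2 * q) hb h fun s hs => hD _ _ s hs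
    have f1 : ZE μ w (2 * p) (2 * q) =
        (N : ℝ) ^ (2 * p * (2 * q)) * ZS μ w (1 : AddChar (ZMod N) ℂ) (2 * p) (2 * q) := by
      rw [ZS_one]
      field_simp
      linarith
    have f2 : ZE μ w (2 * (2 * p)) (2 * q) =
        (N : ℝ) ^ (2 * (2 * p) * (2 * q)) *
          ZS μ w (1 : AddChar (ZMod N) ℂ) (2 * (2 * p)) (2 * q) := by
      rw [ZS_one]
      field_simp
      linarith
    have f3 : ZE μ w (2 * (2 * p)) (2 * q) / ZE μ w (2 * p) (2 * q) ^ 2 =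
        ZS μ w (1 : AddChar (ZMod N) ℂ) (2 * (2 * p)) (2 * q) /
          ZS μ w (1 : AddChar (ZMod N) ℂ) (2 * p) (2 * q) ^ 2 := by
      rw [f1, f2, mul_pow, ← pow_mul, show 2 * (2 * p) * (2 * q) = 2 * p * (2 * q) * 2 by ring,
        mul_div_mul_left _ _ (by positivity)]
    rw [f3] at hr
    rw [ZS_De χ hb, ZS_De (a := 2 * p) χ hb]
    set A := ZS μ w (1 : AddChar (ZMod N) ℂ) (2 * (2 * p)) (2 * q)
    set B := ZS μ w (1 : AddChar (ZMod N) ℂ) (2 * p) (2 * q)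
    set D1 := De μ w χ (2 * p) (2 * q)
    set D2 := De μ w χ (2 * (2 * p)) (2 * q)
    have g1 : 0 < 1 - D1 := by linarith
    have g2 : (1 - D1) ^ 2 ≤ 1 := by nlinarith
    have g3 : A / B ^ 2 * (1 - D2) ≤ A * (1 - D2) / (B * (1 - D1)) ^ 2 := by
      rw [div_mul_eq_mul_div, mul_pow]
      have g4 : 0 ≤ A * (1 - D2) := mul_nonneg z2.le (by linarith)
      apply div_le_div_of_nonneg_left g4 (by positivity)
      have : 0 < B ^ 2 := by positivity
      nlinarith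
    have g5 : 0 < A / B ^ 2 := by positivity
    -- A / B^2 is at most one
    have g6 : A / B ^ 2 ≤ 1 := by
      haveI : NeZero (2 * (2 * p)) := inferInstance
      have hp1 : 1 ≤ p := by
        have := NeZero.ne (2 * p)
        omega
      have hK : KC (PM μ (Ls (2 * q) l)) (kx (Cs (b := 2 * q) (l := l) z) 1
          (kp (PM μ (Ls (2 * q) l)) (tk0 μ (2 * q) w))) := kx_KC (tk0_KS hb hw) (Cs_act hb h) 1
      have h2 := hK.sub hp1 hp1
      rw [← two_mul, ← ZS_EC hb hw h 1 (by omega), ← ZS_EC hb hw h 1 hp1] at h2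
      rw [div_le_one (by positivity), sq]
      exact h2
    nlinarith
  refine ⟨?_, ?_⟩
  · intro i m hi hj
    unfold dP
    fin_cases i
    · have h1 := hj 1 (by decide)
      have hm0 : m 0 = a := hi
      haveI : NeZero (2 * a) := ⟨by omega⟩
      haveI : NeZero (2 * (2 * a)) := ⟨by omega⟩
      haveI : NeZero (2 * m 1) := ⟨by omega⟩
      have c1 := hcr 0 m hi hj
      unfold dP at c1
      have e1 : ZH2 μ w (Function.update m 0 (2 * a)) = ZE μ w (2 * (2 * a)) (2 * m 1) :=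
        ZH2_eq (by simp) (by simp)
      have e2 : ZH2 μ w (Function.update m 0 a) = ZE μ w (2 * a) (2 * m 1) :=
        ZH2_eq (by simp) (by simp)
      simp only at c1
      rw [e1, e2] at c1
      have e3 : ZX μ w χ (Function.update m 0 (2 * a)) = ZS μ w χ (2 * (2 * a)) (2 * m 1) :=
        ZX_eq (by simp) (by simp)
      have e4 : ZX μ w χ (Function.update m 0 a) = ZS μ w χ (2 * a) (2 * m 1) :=
        ZX_eq (by simp) (by simp)
      show 1 - ZX μ w χ (Function.update m 0 (2 * a)) / ZX μ w χ (Function.update m 0 a) ^ 2 ≤ _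
      rw [e3, e4]
      exact key a (m 1) le_rfl (by omega) (by omega) (by omega) c1
    · have h1 := hj 0 (by decide)
      have hm0 : m 1 = a := hi
      haveI : NeZero (2 * a) := ⟨by omega⟩
      haveI : NeZero (2 * (2 * a)) := ⟨by omega⟩
      haveI : NeZero (2 * m 0) := ⟨by omega⟩
      have c1 := hcr 1 m hi hj
      unfold dP at c1
      have e1 : ZH2 μ w (Function.update m 1 (2 * a)) = ZE μ w (2 * (2 * a)) (2 * m 0) := by
        rw [ZE_ex hb hw]
        exact ZH2_eq (by simp) (by simp)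
      have e2 : ZH2 μ w (Function.update m 1 a) = ZE μ w (2 * a) (2 * m 0) := by
        rw [ZE_ex hb hw]
        exact ZH2_eq (by simp) (by simp)
      simp only at c1
      rw [e1, e2] at c1
      have e3 : ZX μ w χ (Function.update m 1 (2 * a)) = ZS μ w χ (2 * (2 * a)) (2 * m 0) := by
        rw [ZS_ex hb hw]
        exact ZX_eq (by simp) (by simp)
      have e4 : ZX μ w χ (Function.update m 1 a) = ZS μ w χ (2 * a) (2 * m 0) := by
        rw [ZS_ex hb hw]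
        exact ZX_eq (by simp) (by simp)
      show 1 - ZX μ w χ (Function.update m 1 (2 * a)) / ZX μ w χ (Function.update m 1 a) ^ 2 ≤ _
      rw [e3, e4]
      exact key a (m 0) le_rfl (by omega) (by omega) (by omega) c1
  · haveI : NeZero (2 * a) := ⟨by omega⟩
    rw [ZX_eq (p := 2 * a) (q := 2 * a) rfl rfl, ZS_De χ hb]
    obtain ⟨d1, d1'⟩ := key0 a a le_rfl le_rfl (by omega) (by omega)
    refine mul_pos (ZS_one_pos hb) ?_
    linarith

/-- **the string tension of the sector `χ`** -/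
def sig (μ : Measure G) (w : Ens N l G) (χ : AddChar (ZMod N) ℂ) : ℝ :=
  (fe (fun n m => ZX μ w 1 ![n, m]) - fe (fun n m => ZX μ w χ ![n, m])) / 4

lemma xS_scale {s : ℝ} (hs0 : 0 < s) (hs : s ≤ 1 / 2) {a : ℕ} (ha : 1 ≤ a) {n : ℕ}
    (hn : 2 * a ≤ n) : ∃ k : ℕ, 2 ^ (k + 1) * a ≤ n ∧ n < 2 ^ (k + 2) * a ∧
      xS s k ≤ 1 / 15 * s ^ ((n : ℝ) / (2 * a)) := by
  have h0 : n / a ≠ 0 := by
    have : 2 ≤ n / a := (Nat.le_div_iff_mul_le (by omega)).2 hn
    omega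
  have h1 : 2 ≤ n / a := (Nat.le_div_iff_mul_le (by omega)).2 hn
  obtain ⟨m, hm⟩ : ∃ m, m = Nat.log 2 (n / a) := ⟨_, rfl⟩
  have h2 : 2 ^ m ≤ n / a := hm ▸ Nat.pow_log_le_self 2 h0
  have h3 : n / a < 2 ^ (m + 1) := hm ▸ Nat.lt_pow_succ_log_self (by norm_num) _
  have h4 : 1 ≤ m := by
    rw [hm]
    exact Nat.le_log_of_pow_le (by norm_num) (by simpa using h1)
  obtain ⟨k, rfl⟩ : ∃ k, m = k + 1 := ⟨m - 1, by omega⟩
  have h5 : n < 2 ^ (k + 2) * a := (Nat.div_lt_iff_lt_mul (show 0 < a by omega)).1 h3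
  refine ⟨k, (Nat.le_div_iff_mul_le (show 0 < a by omega)).1 h2, h5, ?_⟩
  unfold xS
  refine mul_le_mul_of_nonneg_left ?_ (by norm_num)
  rw [← Real.rpow_natCast s (2 ^ (k + 1))]
  refine Real.rpow_le_rpow_of_exponent_ge hs0 (by linarith) ?_
  have ha' : (0 : ℝ) < a := by exact_mod_cast ha
  rw [div_le_iff₀ (by positivity)]
  have h6 : (n : ℝ) ≤ 2 ^ (k + 2) * a := by exact_mod_cast h5.le
  calc (n : ℝ) ≤ 2 ^ (k + 2) * a := h6
    _ = ((2 ^ (k + 1) : ℕ) : ℝ) * (2 * a) := by push_cast; ring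

/-- **the free energy of the flux `χ`** -/
theorem sig_bound (hb : w.Bd) (hw : w.Sy) (h : Cn w z) (χ : AddChar (ZMod N) ℂ) {a : ℕ}
    (ha : 2 ≤ a) {s : ℝ} (hs0 : 0 < s) (hs : s ≤ 1 / 2)
    (hcr : ∀ χ : AddChar (ZMod N) ℂ, CrX μ w χ a s ∧ 0 < ZX μ w χ fun _ => a)
    (p q : ℕ) [NeZero (2 * p)] [NeZero (2 * q)] (hp : 2 * a ≤ p) (hq : 2 * a ≤ q) :
    0 < ZS μ w χ (2 * p) (2 * q) ∧
    |Real.log (ZS μ w χ (2 * p) (2 * q) / ZS μ w 1 (2 * p) (2 * q)) +
      sig μ w χ * (4 * (p * q))| ≤ (p + q) * s ^ ((min p q : ℕ) / (2 * a) : ℝ) := by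
  obtain ⟨k, h1, h2, h3⟩ := xS_scale hs0 hs (a := a) (by omega) (n := min p q)
    (le_min hp hq)
  have h1p : 2 ^ (k + 1) * a ≤ p := h1.trans (min_le_left _ _)
  have h1q : 2 ^ (k + 1) * a ≤ q := h1.trans (min_le_right _ _)
  obtain ⟨a1, a2, a3⟩ := sector hb hw h χ ha (hcr χ).2 hs0 hs (hcr χ).1 h1p h1q
  obtain ⟨b1, b2, b3⟩ := sector hb hw h 1 ha (hcr 1).2 hs0 hs (hcr 1).1 h1p h1q
  have e1 : ∀ χ : AddChar (ZMod N) ℂ, ZX μ w χ ![p, q] = ZS μ w χ (2 * p) (2 * q) := fun χ =>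
    ZX_eq rfl rfl
  rw [e1] at a1 a2 a3 b1 b2 b3
  refine ⟨a1, ?_⟩
  rw [Real.log_div a1.ne' b1.ne']
  set E := xS s k * (1 + (p + q) / (2 ^ (k + 1) * a : ℕ)) with hE
  have h4 : |Real.log (ZS μ w χ (2 * p) (2 * q)) - Real.log (ZS μ w 1 (2 * p) (2 * q)) +
      sig μ w χ * (4 * (p * q))| ≤ E := by
    unfold sig
    rw [abs_le]
    constructor <;> nlinarith
  refine h4.trans ?_
  have ht : (4 : ℝ) ≤ (2 ^ (k + 1) * a : ℕ) := by
    have h5 : 2 ≤ 2 ^ (k + 1) := by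
      rw [pow_succ]
      have := Nat.one_le_two_pow (n := k)
      omega
    have : 4 ≤ 2 ^ (k + 1) * a := by
      calc 4 = 2 * 2 := by norm_num
        _ ≤ _ := Nat.mul_le_mul h5 ha
    exact_mod_cast this
  have hx := xS_pos hs0 k
  have hp1 : (1 : ℝ) ≤ p := by
    have : 1 ≤ p := by omega
    exact_mod_cast this
  have hq1 : (0 : ℝ) ≤ q := by positivity
  have h6 : 1 + ((p : ℝ) + q) / (2 ^ (k + 1) * a : ℕ) ≤ 15 * (p + q) := by
    have h7 : ((p : ℝ) + q) / (2 ^ (k + 1) * a : ℕ) ≤ p + q :=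
      div_le_self (by positivity) (by linarith)
    linarith
  calc E ≤ (1 / 15 * s ^ ((min p q : ℕ) / (2 * a) : ℝ)) * (15 * (p + q)) := by
        rw [hE]
        exact mul_le_mul h3 h6 (by positivity) (by positivity)
    _ = _ := by ring

end

end Pool.Agent.Run7.h897.TW
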