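import Pool.Agent.Run7.h897.TW.Sc

/-!
# Independence of the size of the torus
-/

open MeasureTheory Filter Topology

namespace Pool.Agent.Run7.h897.TW

set_option linter.unusedSectionVars false
set_option linter.unusedVariables false
set_option linter.style.haveILetI false

open Pool.Agent.Run7.h897.FS (BM BK kk kp PM A1 A2 xs gs psi dP)

noncomputable section

variable {N a b l : ℕ} {G : Type*} [Group G]

/-- links of the lattice `ℤ² × (ℤ/l)²` -/
abbrev LkZ (l : ℕ) := ((ℤ × ℤ) × (ZMod l × ZMod l)) × Fin 4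

/-- periodic reading of a configuration on a torus -/
def perZ (U : Lk a b l → G) : LkZ l → G :=
  fun e => U (((((e.1.1.1 : ℤ) : ZMod a), ((e.1.1.2 : ℤ) : ZMod b)), e.1.2), e.2)

/-- exchange of the two directions -/
def sz (e : LkZ l) : LkZ l := (((e.1.1.2, e.1.1.1), e.1.2), swi e.2)

/-- translation -/
def tz (p q : ℤ) (e : LkZ l) : LkZ l := (((e.1.1.1 + p, e.1.1.2 + q), e.1.2), e.2)

lemma swi_swi (i : Fin 4) : swi (swi i) = i := by
  fin_cases i <;> rfl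

lemma sz_sz (e : LkZ l) : sz (sz e) = e := by
  obtain ⟨⟨⟨x, y⟩, v⟩, i⟩ := e
  unfold sz
  simp only [swi_swi]

lemma perZ_ex (U : Lk a b l → G) (e : LkZ l) :
    perZ (fun f => U (exL a b l f)) (sz e) = perZ U e := by
  obtain ⟨⟨⟨x, y⟩, v⟩, i⟩ := e
  unfold perZ sz
  simp only [exL_apply, swi_swi]
  rfl

/-- translation of the sites -/
def shS (p : ZMod a × ZMod b) : Si a b l ≃ Si a b l :=
  (Equiv.addRight p).prodCongr (Equiv.refl _)

/-- translation of the links -/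
def shL (p : ZMod a × ZMod b) : Lk a b l ≃ Lk a b l := (shS p).prodCongr (Equiv.refl _)

lemma shL_apply (p : ZMod a × ZMod b) (x : Si a b l) (i : Fin 4) :
    shL p (x, i) = (shS p x, i) := rfl

lemma shS_apply (p : ZMod a × ZMod b) (x : Si a b l) : shS p x = (x.1 + p, x.2) := rfl

lemma shS_add (p : ZMod a × ZMod b) (x : Si a b l) (i : Fin 4) :
    shS p (x + ee i) = shS p x + ee i := by
  rw [shS_apply, shS_apply]
  refine Prod.ext ?_ rfl
  show x.1 + (ee i).1 + p = x.1 + p + (ee i).1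
  exact add_right_comm _ _ _

lemma plq_sh (p : ZMod a × ZMod b) (U : Lk a b l → G) (x : Si a b l) (i j : Fin 4) :
    plq (fun e => U (shL p e)) x i j = plq U (shS p x) i j := by
  unfold plq
  simp only [shL_apply, shS_add]

variable [NeZero N] [NeZero a] [NeZero b] [NeZero l] {w : Ens N l G}

lemma nbE_sh (p : ZMod a × ZMod b) (U : Lk a b l → G) :
    nbE w (fun e => U (shL p e)) = nbE w U := by
  unfold nbE
  conv_rhs => rw [← (shS p).sum_comp]
  refine Finset.sum_congr rfl fun x _ => ?_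
  rw [plq_sh, plq_sh, plq_sh, plq_sh, plq_sh]
  rfl

lemma wtE_sh (p : ZMod a × ZMod b) (U : Lk a b l → G) :
    wtE w (fun e => U (shL p e)) = wtE w U := by
  unfold wtE
  rw [nbE_sh]
  congr 1
  refine Eq.trans ?_ (Equiv.prod_comp (Equiv.addRight p) fun u =>
    ∑ n : ZMod N, Real.exp (-bsE w n U u))
  refine Finset.prod_congr rfl fun u _ => Finset.sum_congr rfl fun n _ => ?_
  congr 2
  unfold bsE
  refine Finset.sum_congr rfl fun y _ => ?_
  rw [plq_sh]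
  rfl

variable [MeasurableSpace G] [MeasurableMul₂ G] [MeasurableInv G] {μ : Measure G}
  [IsProbabilityMeasure μ]

lemma perZ_meas : Measurable (perZ : (Lk a b l → G) → LkZ l → G) :=
  measurable_pi_iff.2 fun _ => measurable_pi_apply _

lemma sz_meas : Measurable fun (V : LkZ l → G) e => V (sz e) :=
  measurable_pi_iff.2 fun _ => measurable_pi_apply _

lemma tz_meas (p q : ℤ) : Measurable fun (V : LkZ l → G) e => V (tz p q e) :=
  measurable_pi_iff.2 fun _ => measurable_pi_apply _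

/-- exchange of the directions -/
theorem XE_ex (hb : w.Bd) (hw : w.Sy) {H : (LkZ l → G) → ℝ} (hH : BM H) :
    XE μ w (fun U : Lk a b l → G => H (perZ U)) =
      XE μ w (fun U : Lk b a l → G => H (fun e => perZ U (sz e))) := by
  unfold XE
  rw [ZE_ex (a := a) (b := b) hb hw]
  congr 1
  have h1 : MeasurePreserving (fun (U : Lk a b l → G) i => U (exL a b l i)) (PM μ (Lk a b l))
      (PM μ (Lk b a l)) := FS.mp_comp (μ := μ) (exL a b l)
  have h2 : BM fun U : Lk b a l → G => H (fun e => perZ U (sz e)) :=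
    hH.comp (sz_meas.comp perZ_meas)
  conv_rhs => rw [← h1.map_eq]
  rw [integral_map h1.measurable.aemeasurable (h2.mul (wtE_bm hb)).1.aestronglyMeasurable]
  congr 1
  funext U
  rw [wtE_ex hw]
  simp only [perZ_ex]

/-- translations -/
theorem XE_sh (hb : w.Bd) {H : (LkZ l → G) → ℝ} (hH : BM H) (p q : ℤ) :
    XE μ w (fun U : Lk a b l → G => H (perZ U)) =
      XE μ w (fun U : Lk a b l → G => H (fun e => perZ U (tz p q e))) := by
  unfold XE
  congr 1
  have h1 : MeasurePreserving (fun (U : Lk a b l → G) i =>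
      U (shL ((p : ZMod a), (q : ZMod b)) i)) (PM μ (Lk a b l)) (PM μ (Lk a b l)) :=
    FS.mp_comp (μ := μ) (shL ((p : ZMod a), (q : ZMod b)))
  have h2 : BM fun U : Lk a b l → G => H (perZ U) := hH.comp perZ_meas
  conv_lhs => rw [← h1.map_eq]
  rw [integral_map h1.measurable.aemeasurable (h2.mul (wtE_bm hb)).1.aestronglyMeasurable]
  congr 1
  funext U
  rw [wtE_sh]
  congr 2
  funext e
  unfold perZ tz
  simp only [shL_apply, shS_apply]
  push_cast
  rfl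

/-- observables of the links with base points in the square `[0, r)²` -/
def InW (r : ℕ) (H : (LkZ l → G) → ℝ) : Prop :=
  ∀ V V' : LkZ l → G, (∀ e : LkZ l, 0 ≤ e.1.1.1 → e.1.1.1 < r → 0 ≤ e.1.1.2 → e.1.1.2 < r →
    V e = V' e) → H V = H V'

lemma InW.sz {r : ℕ} {H : (LkZ l → G) → ℝ} (h : InW r H) : InW r fun V => H fun e => V (sz e) := by
  intro V V' hV
  exact h _ _ fun e h1 h2 h3 h4 => hV (TW.sz e) h3 h4 h1 h2

/-- the error at the scale `k` -/
def eS (s : ℝ) (k : ℕ) : ℝ := 8 * (Real.exp (2 * xS s k) * Real.sqrt (xS s k))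

lemma eS_nonneg (s : ℝ) (k : ℕ) : 0 ≤ eS s k := by unfold eS; positivity

lemma eS_le {s : ℝ} (hs0 : 0 < s) (hs : s ≤ 1 / 2) (k : ℕ) : eS s k ≤ 3 * s ^ 2 ^ k := by
  have h1 : s ^ 2 ^ (k + 1) ≤ 1 := pow_le_one₀ hs0.le (by linarith)
  have h3 : xS s k ≤ 1 / 15 := by
    unfold xS
    linarith
  have h4 : Real.exp (2 * xS s k) ≤ 1.2 := by
    have h5 : Real.exp (2 * xS s k) ≤ Real.exp (2 / 15) := Real.exp_le_exp.2 (by linarith)
    have h6 : Real.exp (2 / 15) ≤ 1 + 2 / 15 + (2 / 15) ^ 2 := by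
      have := Real.abs_exp_sub_one_sub_id_le (x := 2 / 15) (by norm_num [abs_of_pos])
      have := (abs_le.1 this).2
      linarith
    linarith
  have h5 : Real.sqrt (xS s k) ≤ 0.26 * s ^ 2 ^ k := by
    rw [show (0.26 : ℝ) * s ^ 2 ^ k = Real.sqrt ((0.26 * s ^ 2 ^ k) ^ 2) from
      (Real.sqrt_sq (by positivity)).symm]
    apply Real.sqrt_le_sqrt
    unfold xS
    have h6 : (s ^ 2 ^ k) ^ 2 = s ^ 2 ^ (k + 1) := by rw [← pow_mul, pow_succ]
    rw [mul_pow, h6]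
    have : 0 < s ^ 2 ^ (k + 1) := by positivity
    nlinarith
  unfold eS
  calc 8 * (Real.exp (2 * xS s k) * Real.sqrt (xS s k)) ≤ 8 * (1.2 * (0.26 * s ^ 2 ^ k)) := by
        apply mul_le_mul_of_nonneg_left _ (by norm_num)
        exact mul_le_mul h4 h5 (Real.sqrt_nonneg _) (by norm_num)
    _ ≤ 3 * s ^ 2 ^ k := by
        have : 0 < s ^ 2 ^ k := by positivity
        nlinarith

/-- the sum of the errors -/
lemma sum_eS {s : ℝ} (hs0 : 0 < s) (hs : s ≤ 1 / 2) (k n : ℕ) :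
    ∑ j ∈ Finset.range n, eS s (k + j) ≤ 6 * s ^ 2 ^ k := by
  have h1 : ∀ n, ∑ j ∈ Finset.range n, s ^ 2 ^ (k + j) ≤
      2 * s ^ 2 ^ k - 2 * ((1 / 2) ^ n * s ^ 2 ^ k) := by
    intro n
    induction n with
    | zero => simp
    | succ n ih =>
      rw [Finset.sum_range_succ]
      have h2 : s ^ 2 ^ (k + n) ≤ (1 / 2) ^ n * s ^ 2 ^ k := by
        have h3 : 2 ^ k + n ≤ 2 ^ (k + n) := by
          have h4 := Nat.lt_two_pow_self (n := n)
          have h5 : 1 ≤ 2 ^ k := Nat.one_le_two_pow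
          rw [pow_add]
          nlinarith
        calc s ^ 2 ^ (k + n) ≤ s ^ (2 ^ k + n) := pow_le_pow_of_le_one hs0.le (by linarith) h3
          _ = s ^ n * s ^ 2 ^ k := by rw [pow_add]; ring
          _ ≤ (1 / 2) ^ n * s ^ 2 ^ k := by
            apply mul_le_mul_of_nonneg_right _ (by positivity)
            exact pow_le_pow_left₀ hs0.le hs n
      have h6 : (1 / 2 : ℝ) ^ (n + 1) = (1 / 2) ^ n / 2 := by rw [pow_succ]; ring
      rw [h6]
      linarith
  calc ∑ j ∈ Finset.range n, eS s (k + j) ≤ ∑ j ∈ Finset.range n, 3 * s ^ 2 ^ (k + j) :=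
        Finset.sum_le_sum fun j _ => eS_le hs0 hs _
    _ = 3 * ∑ j ∈ Finset.range n, s ^ 2 ^ (k + j) := by rw [Finset.mul_sum]
    _ ≤ 6 * s ^ 2 ^ k := by
        have := h1 n
        have h2 : 0 ≤ (1 / 2 : ℝ) ^ n * s ^ 2 ^ k := by positivity
        linarith

/-- Change of the length of the torus for observables in a window: the basic step. -/
def WL (μ : Measure G) (w : Ens N l G) : Prop :=
  ∀ (r s₀ m n n' a a' b : ℕ) [NeZero a] [NeZero a'] [NeZero b], 1 ≤ r → 1 ≤ s₀ → b = 2 * m →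
    a = 2 * n → a' = 2 * n' → r + 2 * s₀ + 1 ≤ a → r + 2 * s₀ + 1 ≤ a' →
    ∀ x : ℝ, psi (fun j => ZH2 μ w ![j, m]) s₀ ≤ x →
    ∀ (H : (LkZ l → G) → ℝ) (C : ℝ), BM H → (∀ V, |H V| ≤ C) →
      (∀ V V' : LkZ l → G, (∀ e : LkZ l, 0 ≤ e.1.1.1 → e.1.1.1 < r → V e = V' e) → H V = H V') →
      |XE μ w (fun U : Lk a b l → G => H (perZ U)) -
        XE μ w (fun U : Lk a' b l → G => H (perZ U))| ≤
          8 * C * (Real.exp (2 * x) * Real.sqrt x)

/-- the expectation on the torus with the half sides `n`, `m` -/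
def XH (μ : Measure G) (w : Ens N l G) (n m : ℕ) (H : (LkZ l → G) → ℝ) : ℝ :=
  if h : n ≠ 0 ∧ m ≠ 0 then
    haveI : NeZero (2 * n) := ⟨by have := h.1; omega⟩
    haveI : NeZero (2 * m) := ⟨by have := h.2; omega⟩
    XE μ w (fun U : Lk (2 * n) (2 * m) l → G => H (perZ U))
  else 0

lemma XH_eq {n m p q : ℕ} [NeZero p] [NeZero q] (h0 : 2 * n = p) (h1 : 2 * m = q)
    (H : (LkZ l → G) → ℝ) : XH μ w n m H = XE μ w (fun U : Lk p q l → G => H (perZ U)) := by
  subst h0 h1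
  unfold XH
  rw [dif_pos ⟨fun h => NeZero.ne (2 * n) (by rw [h, mul_zero]),
    fun h => NeZero.ne (2 * m) (by rw [h, mul_zero])⟩]

lemma XH_ex (hb : w.Bd) (hw : w.Sy) {n m : ℕ} (hn : n ≠ 0) (hm : m ≠ 0)
    {H : (LkZ l → G) → ℝ} (hH : BM H) : XH μ w n m H = XH μ w m n fun V => H fun e => V (sz e) := by
  haveI : NeZero (2 * n) := ⟨by omega⟩
  haveI : NeZero (2 * m) := ⟨by omega⟩
  rw [XH_eq (p := 2 * n) (q := 2 * m) rfl rfl, XH_eq (p := 2 * m) (q := 2 * n) rfl rfl,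
    XE_ex hb hw hH]

variable [μ.IsInvInvariant]

lemma psi_scale (hb : w.Bd) (hw : w.Sy) {a : ℕ} (ha : 1 ≤ a) {s : ℝ} (hs0 : 0 < s)
    (hs : s ≤ 1 / 2) (hcr : CrS μ w a s) (k : ℕ) {m : ℕ} (h1 : 2 * (2 ^ (k + 1) * a) ≤ m)
    (h2 : m ≤ 4 * (2 ^ (k + 1) * a)) :
    psi (fun j => ZH2 μ w ![j, m]) (2 ^ (k + 1) * a) ≤ xS s k := by
  set s0 := 2 ^ (k + 1) * a with hs0'
  have hsc := scalesS (famE (μ := μ) hb hw) le_rfl ha hs0 hs
    (by intro i m hi hj; have := hcr i m hi hj; norm_num at this ⊢; exact this) k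
  rw [← hs0'] at hsc
  have e : ∀ j : ℕ, Function.update (fun _ => m : Fin 2 → ℕ) 0 j = ![j, m] := by
    intro j
    funext i
    fin_cases i
    · simp
    · simp
  have := hsc 0 (Function.update (fun _ => m) 0 s0) (by rw [Function.update_self]) fun j hj => by
    rw [Function.update_of_ne hj]
    omega
  rw [FS.psD_update] at this
  simp only [e] at this
  unfold xS
  norm_num at this ⊢
  exact this

section chain

variable (hb : w.Bd) (hw : w.Sy) {a : ℕ} (ha : 1 ≤ a) {s : ℝ} (hs0 : 0 < s)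
    (hs : s ≤ 1 / 2) (hcr : CrS μ w a s) (hW : WL μ w)

include hb hw ha hs0 hs hcr hW

lemma step1 {k r n n' m : ℕ} (hr : 1 ≤ r) (hrk : r + 1 ≤ 2 * (2 ^ (k + 1) * a))
    (hn : 2 * (2 ^ (k + 1) * a) ≤ n) (hn' : 2 * (2 ^ (k + 1) * a) ≤ n')
    (h1 : 2 * (2 ^ (k + 1) * a) ≤ m) (h2 : m ≤ 4 * (2 ^ (k + 1) * a))
    {H : (LkZ l → G) → ℝ} {C : ℝ} (hH : BM H) (hC : ∀ V, |H V| ≤ C) (hi : InW r H) :
    |XH μ w n m H - XH μ w n' m H| ≤ C * eS s k := by
  have ht : 1 ≤ 2 ^ (k + 1) * a := Nat.one_le_iff_ne_zero.2 (by positivity)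
  haveI : NeZero (2 * n) := ⟨by omega⟩
  haveI : NeZero (2 * n') := ⟨by omega⟩
  haveI : NeZero (2 * m) := ⟨by omega⟩
  rw [XH_eq (p := 2 * n) (q := 2 * m) rfl rfl, XH_eq (p := 2 * n') (q := 2 * m) rfl rfl]
  refine (hW r (2 ^ (k + 1) * a) m n n' (2 * n) (2 * n') (2 * m) hr ht rfl rfl rfl (by omega)
    (by omega) (xS s k) (psi_scale hb hw ha hs0 hs hcr k h1 h2) H C hH hC
    fun V V' h => hi V V' fun e h1 h2 _ _ => h e h1 h2).trans (le_of_eq ?_)
  unfold eS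
  ring

lemma step2 {k r n m : ℕ} (hr : 1 ≤ r) (hrk : r + 1 ≤ 2 * (2 ^ (k + 1) * a))
    (hn : 2 * (2 ^ (k + 1) * a) ≤ n)
    (h1 : 2 * (2 ^ (k + 1) * a) ≤ m) (h2 : m ≤ 4 * (2 ^ (k + 1) * a))
    {H : (LkZ l → G) → ℝ} {C : ℝ} (hH : BM H) (hC : ∀ V, |H V| ≤ C) (hi : InW r H) :
    |XH μ w n m H - XH μ w (2 * (2 ^ (k + 1) * a)) (2 * (2 ^ (k + 1) * a)) H| ≤
      2 * C * eS s k := by
  have ht : 1 ≤ 2 ^ (k + 1) * a := Nat.one_le_iff_ne_zero.2 (by positivity)
  set t := 2 ^ (k + 1) * a with htd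
  have hH' : BM fun V : LkZ l → G => H fun e => V (sz e) := hH.comp sz_meas
  have a1 := step1 hb hw ha hs0 hs hcr hW hr hrk hn (n' := 2 * t) le_rfl h1 h2 hH hC hi
  have a2 := step1 hb hw ha hs0 hs hcr hW hr hrk (n := m) (n' := 2 * t) (m := 2 * t) h1 le_rfl
    le_rfl (by omega) hH' (fun V => hC _) hi.sz
  rw [← XH_ex hb hw (n := 2 * t) (m := m) (by omega) (by omega) hH,
    ← XH_ex hb hw (n := 2 * t) (m := 2 * t) (by omega) (by omega) hH] at a2
  have := abs_sub_le (XH μ w n m H) (XH μ w (2 * t) m H) (XH μ w (2 * t) (2 * t) H)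
  linarith

lemma chain1 {k r : ℕ} (hr : 1 ≤ r) (hrk : r + 1 ≤ 2 * (2 ^ (k + 1) * a))
    {H : (LkZ l → G) → ℝ} {C : ℝ} (hH : BM H) (hC : ∀ V, |H V| ≤ C) (hi : InW r H) (J : ℕ) :
    |XH μ w (2 * (2 ^ (k + J + 1) * a)) (2 * (2 ^ (k + J + 1) * a)) H -
      XH μ w (2 * (2 ^ (k + 1) * a)) (2 * (2 ^ (k + 1) * a)) H| ≤
      2 * C * ∑ j ∈ Finset.range J, eS s (k + j) := by
  induction J with
  | zero => simp
  | succ J ih =>
    have e1 : 2 ^ (k + (J + 1) + 1) * a = 2 * (2 ^ (k + J + 1) * a) := by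
      rw [show k + (J + 1) + 1 = (k + J + 1) + 1 by ring, pow_succ]
      ring
    have e2 : 2 ^ (k + 1) * a ≤ 2 ^ (k + J + 1) * a :=
      Nat.mul_le_mul_right _ (Nat.pow_le_pow_right (by norm_num) (by omega))
    rw [e1, Finset.sum_range_succ, mul_add]
    have := step2 hb hw ha hs0 hs hcr hW (k := k + J) (n := 2 * (2 * (2 ^ (k + J + 1) * a)))
      (m := 2 * (2 * (2 ^ (k + J + 1) * a))) hr (by omega) (by omega) (by omega) (by omega)
      hH hC hi
    have h3 := abs_sub_le (XH μ w (2 * (2 * (2 ^ (k + J + 1) * a)))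
      (2 * (2 * (2 ^ (k + J + 1) * a))) H)
      (XH μ w (2 * (2 ^ (k + J + 1) * a)) (2 * (2 ^ (k + J + 1) * a)) H)
      (XH μ w (2 * (2 ^ (k + 1) * a)) (2 * (2 ^ (k + 1) * a)) H)
    linarith

/-- The expectations of local observables on all large tori agree up to small errors. -/
theorem chain {k r n m : ℕ} (hr : 1 ≤ r) (hrk : r + 1 ≤ 2 * (2 ^ (k + 1) * a))
    (hn : 2 ^ (k + 2) * a ≤ n) (hm : 2 ^ (k + 2) * a ≤ m)
    {H : (LkZ l → G) → ℝ} {C : ℝ} (hH : BM H) (hC : ∀ V, |H V| ≤ C) (hi : InW r H) :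
    |XH μ w n m H - XH μ w (2 * (2 ^ (k + 1) * a)) (2 * (2 ^ (k + 1) * a)) H| ≤
      12 * C * s ^ 2 ^ k := by
  have hC0 : 0 ≤ C := (abs_nonneg _).trans (hC fun _ => 1)
  -- the case `m ≤ n`
  have key : ∀ {n m : ℕ}, 2 ^ (k + 2) * a ≤ m → m ≤ n → ∀ {H : (LkZ l → G) → ℝ}, BM H →
      (∀ V, |H V| ≤ C) → InW r H →
      |XH μ w n m H - XH μ w (2 * (2 ^ (k + 1) * a)) (2 * (2 ^ (k + 1) * a)) H| ≤
        12 * C * s ^ 2 ^ k := by
    intro n m hm hmn H hH hC hi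
    obtain ⟨j, hj, h1, h2⟩ := FS.exists_scale ha hm
    obtain ⟨J, rfl⟩ := Nat.exists_eq_add_of_le hj
    have e2 : 2 ^ (k + 1) * a ≤ 2 ^ (k + J + 1) * a :=
      Nat.mul_le_mul_right _ (Nat.pow_le_pow_right (by norm_num) (by omega))
    have a1 := step2 hb hw ha hs0 hs hcr hW (k := k + J) (n := n) (m := m) hr (by omega)
      (by omega) h1 h2 hH hC hi
    have a2 := chain1 hb hw ha hs0 hs hcr hW hr hrk hH hC hi J
    have a3 := sum_eS hs0 hs k (J + 1)
    rw [Finset.sum_range_succ] at a3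
    have a4 := abs_sub_le (XH μ w n m H)
      (XH μ w (2 * (2 ^ (k + J + 1) * a)) (2 * (2 ^ (k + J + 1) * a)) H)
      (XH μ w (2 * (2 ^ (k + 1) * a)) (2 * (2 ^ (k + 1) * a)) H)
    have a5 := mul_le_mul_of_nonneg_left a3 (show 0 ≤ 2 * C by positivity)
    calc |XH μ w n m H - XH μ w (2 * (2 ^ (k + 1) * a)) (2 * (2 ^ (k + 1) * a)) H| ≤
        2 * C * (∑ j ∈ Finset.range J, eS s (k + j) + eS s (k + J)) := by linarith
      _ ≤ 2 * C * (6 * s ^ 2 ^ k) := a5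
      _ = 12 * C * s ^ 2 ^ k := by ring
  rcases le_total m n with h | h
  · exact key hm h hH hC hi
  · have ht : 1 ≤ 2 ^ (k + 1) * a := Nat.one_le_iff_ne_zero.2 (by positivity)
    have ht2 : 1 ≤ 2 ^ (k + 2) * a := Nat.one_le_iff_ne_zero.2 (by positivity)
    have hH' : BM fun V : LkZ l → G => H fun e => V (sz e) := hH.comp sz_meas
    have a1 := key (n := m) (m := n) hn h hH' (fun V => hC _) hi.sz
    rw [← XH_ex hb hw (n := n) (m := m) (by omega) (by omega) hH,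
      ← XH_ex hb hw (n := 2 * (2 ^ (k + 1) * a)) (m := 2 * (2 ^ (k + 1) * a)) (by omega)
        (by omega) hH] at a1
    exact a1

end chain

/-- reading with natural coordinates -/
def rd (a b l : ℕ) (U : Lk a b l → G) : ((ℕ × ℕ) × (ZMod l × ZMod l)) × Fin 4 → G :=
  fun e => U ((((e.1.1.1 : ZMod a), (e.1.1.2 : ZMod b)), e.1.2), e.2)

/-- The independence of the size, uniformly in the ensembles which satisfy the criterion. -/
theorem size_all (hWL : ∀ w : Ens N l G, w.Bd → w.Sy → WL μ w) {a : ℕ} (ha : 1 ≤ a) {s : ℝ}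
    (hs0 : 0 < s) (hs : s ≤ 1 / 2) (W : ℕ) {η : ℝ} (hη : 0 < η) :
    ∃ n₀ : ℕ, ∀ w : Ens N l G, w.Bd → w.Sy → CrS μ w a s →
      ∀ H : (((ℕ × ℕ) × (ZMod l × ZMod l)) × Fin 4 → G) → ℝ, Measurable H → (∀ V, |H V| ≤ 1) →
      (∀ V V', (∀ e, e.1.1.1 < W → e.1.1.2 < W → V e = V' e) → H V = H V') →
      ∀ (c b c' b' : ℕ) [NeZero c] [NeZero b] [NeZero c'] [NeZero b'], n₀ ≤ c → n₀ ≤ b →
        n₀ ≤ c' → n₀ ≤ b' → Even c → Even b → Even c' → Even b' →
        |XE μ w (fun U : Lk c b l → G => H (rd c b l U)) -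
          XE μ w (fun U : Lk c' b' l → G => H (rd c' b' l U))| ≤ η := by
  obtain ⟨k, hk1, hk2⟩ : ∃ k : ℕ, W + 2 ≤ k ∧ 24 * s ^ 2 ^ k ≤ η := by
    have h1 : Tendsto (fun k : ℕ => 24 * s ^ 2 ^ k) atTop (𝓝 0) := by
      have h2 : Tendsto (fun k : ℕ => s ^ 2 ^ k) atTop (𝓝 0) := by
        refine (tendsto_pow_atTop_nhds_zero_of_lt_one hs0.le (by linarith)).comp ?_
        refine tendsto_atTop_mono (fun k => ?_) tendsto_id
        exact (Nat.lt_two_pow_self (n := k)).le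
      have h3 := h2.const_mul (24 : ℝ)
      rwa [mul_zero] at h3
    obtain ⟨k, hk⟩ := ((h1.eventually_le_const hη).and (eventually_ge_atTop (W + 2))).exists
    exact ⟨k, hk.2, hk.1⟩
  refine ⟨2 * (2 ^ (k + 2) * a), fun w hb hw hcr H hHm hH1 hHW c b c' b' _ _ _ _ hc hbb hc' hb'
    ec eb ec' eb' => ?_⟩
  obtain ⟨n, hn⟩ := ec
  obtain ⟨m, hm⟩ := eb
  obtain ⟨n', hn'⟩ := ec'
  obtain ⟨m', hm'⟩ := eb'
  set H' : (LkZ l → G) → ℝ := fun V => H fun e => V ((((e.1.1.1 : ℤ), (e.1.1.2 : ℤ)), e.1.2), e.2)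
    with hH'
  have hm1 : Measurable H' := hHm.comp (measurable_pi_iff.2 fun _ => measurable_pi_apply _)
  have hbm : BM H' := ⟨hm1, 1, fun V => hH1 _⟩
  have hin : InW (W + 1) H' := by
    intro V V' h
    refine hHW _ _ fun e h1 h2 => ?_
    exact h _ (Int.natCast_nonneg _) (by push_cast; omega) (Int.natCast_nonneg _)
      (by push_cast; omega)
  have hrd : ∀ (c b : ℕ) (U : Lk c b l → G), H' (perZ U) = H (rd c b l U) := by
    intro c b U
    simp only [hH']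
    congr 1
    funext e
    unfold perZ rd
    simp only [Int.cast_natCast]
  have hlt : W + 1 + 1 ≤ 2 * (2 ^ (k + 1) * a) := by
    have h3 := Nat.lt_two_pow_self (n := k + 1)
    have h4 : 2 ^ (k + 1) ≤ 2 ^ (k + 1) * a := Nat.le_mul_of_pos_right _ (by omega)
    omega
  have c1 := chain (μ := μ) hb hw ha hs0 hs hcr (hWL w hb hw) (k := k) (r := W + 1) (n := n)
    (m := m) (by omega) hlt (by omega) (by omega) hbm (C := 1) (fun V => hH1 _) hin
  have c2 := chain (μ := μ) hb hw ha hs0 hs hcr (hWL w hb hw) (k := k) (r := W + 1) (n := n')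
    (m := m') (by omega) hlt (by omega) (by omega) hbm (C := 1) (fun V => hH1 _) hin
  rw [XH_eq (p := c) (q := b) (by omega) (by omega)] at c1
  rw [XH_eq (p := c') (q := b') (by omega) (by omega)] at c2
  simp only [hrd] at c1 c2
  rw [abs_sub_comm] at c2
  have := abs_sub_le (XE μ w (fun U : Lk c b l → G => H (rd c b l U)))
    (XH μ w (2 * (2 ^ (k + 1) * a)) (2 * (2 ^ (k + 1) * a)) H')
    (XE μ w (fun U : Lk c' b' l → G => H (rd c' b' l U)))
  linarith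

end

end Pool.Agent.Run7.h897.TW
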