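import Mathlib

/-!
# The discrete Wirtinger inequality for isometries of finite order
-/

set_option linter.unusedSectionVars false

namespace Pool.Agent.Run7.h897.TW

open Finset

section char

variable {M : ℕ} [NeZero M]

/-- the cosine -/
noncomputable def cC (s : ZMod M) : ℝ := (ZMod.stdAddChar (N := M) s).re

/-- the sine -/
noncomputable def cS (s : ZMod M) : ℝ := (ZMod.stdAddChar (N := M) s).im

lemma e_sq (s : ZMod M) : cC s ^ 2 + cS s ^ 2 = 1 := by
  have h1 : ‖ZMod.stdAddChar (N := M) s‖ = 1 := by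
    rw [ZMod.stdAddChar_apply]
    exact Circle.norm_coe _
  have h2 : Complex.normSq (ZMod.stdAddChar (N := M) s) = 1 := by
    rw [Complex.normSq_eq_norm_sq, h1, one_pow]
  rw [Complex.normSq_apply] at h2
  unfold cC cS
  linarith

lemma cC_zero : cC (0 : ZMod M) = 1 := by
  unfold cC; rw [AddChar.map_zero_eq_one]; rfl

lemma cS_zero : cS (0 : ZMod M) = 0 := by
  unfold cS; rw [AddChar.map_zero_eq_one]; rfl

lemma cC_add (s t : ZMod M) : cC (s + t) = cC s * cC t - cS s * cS t := by
  unfold cC cS
  rw [AddChar.map_add_eq_mul, Complex.mul_re]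

lemma cS_add (s t : ZMod M) : cS (s + t) = cC s * cS t + cS s * cC t := by
  unfold cC cS
  rw [AddChar.map_add_eq_mul, Complex.mul_im]

lemma cC_neg (s : ZMod M) : cC (-s) = cC s := by
  have h1 := cC_add s (-s)
  have h2 := cS_add s (-s)
  rw [add_neg_cancel, cC_zero] at h1
  rw [add_neg_cancel, cS_zero] at h2
  have h3 := e_sq s
  calc cC (-s) = (cC s ^ 2 + cS s ^ 2) * cC (-s) := by rw [h3, one_mul]
    _ = cC s * (cC s * cC (-s) - cS s * cS (-s)) + cS s * (cC s * cS (-s) + cS s * cC (-s)) := by
        ring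
    _ = cC s := by rw [← h1, ← h2]; ring

lemma cS_neg (s : ZMod M) : cS (-s) = -cS s := by
  have h1 := cC_add s (-s)
  have h2 := cS_add s (-s)
  rw [add_neg_cancel, cC_zero] at h1
  rw [add_neg_cancel, cS_zero] at h2
  have h3 := e_sq s
  calc cS (-s) = (cC s ^ 2 + cS s ^ 2) * cS (-s) := by rw [h3, one_mul]
    _ = cC s * (cC s * cS (-s) + cS s * cC (-s)) - cS s * (cC s * cC (-s) - cS s * cS (-s)) := by
        ring
    _ = -cS s := by rw [← h1, ← h2]; ring

lemma cC_sub (s t : ZMod M) : cC (s - t) = cC s * cC t + cS s * cS t := by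
  rw [sub_eq_add_neg, cC_add, cC_neg, cS_neg]; ring

lemma sum_cC (s : ZMod M) : ∑ n : ZMod M, cC (n * s) = if s = 0 then (M : ℝ) else 0 := by
  have h1 := AddChar.sum_mulShift (R := ZMod M) (R' := ℂ) s (ZMod.isPrimitive_stdAddChar M)
  have h2 := congrArg Complex.re h1
  rw [Complex.re_sum] at h2
  unfold cC
  rw [h2]
  split_ifs <;> simp [ZMod.card]

lemma cC_le {n : ZMod M} (hn : n ≠ 0) : cC n ≤ Real.cos (2 * Real.pi / M) := by
  have hv0 : n.val ≠ 0 := fun h => hn ((ZMod.val_eq_zero n).1 h)
  have hvM : n.val < M := ZMod.val_lt n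
  have hM : (0 : ℝ) < M := by exact_mod_cast NeZero.pos M
  have h1 : cC n = Real.cos (2 * Real.pi * n.val / M) := by
    unfold cC
    rw [ZMod.stdAddChar_apply, ZMod.toCircle_apply]
    have : (2 : ℂ) * Real.pi * Complex.I * n.val / M =
        ((2 * Real.pi * n.val / M : ℝ) : ℂ) * Complex.I := by push_cast; ring
    rw [this, Complex.exp_ofReal_mul_I_re]
  rw [h1]
  have hpi := Real.pi_pos
  have hk1 : (1 : ℝ) ≤ n.val := by exact_mod_cast Nat.one_le_iff_ne_zero.2 hv0
  have hk2 : (n.val : ℝ) ≤ M - 1 := by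
    have : n.val + 1 ≤ M := hvM
    have : ((n.val + 1 : ℕ) : ℝ) ≤ M := by exact_mod_cast this
    push_cast at this
    linarith
  rcases le_total (2 * (n.val : ℝ)) M with h | h
  · apply Real.cos_le_cos_of_nonneg_of_le_pi (by positivity)
    · rw [div_le_iff₀ hM]; nlinarith
    · apply div_le_div_of_nonneg_right _ hM.le
      nlinarith
  · have h2 : Real.cos (2 * Real.pi * n.val / M) = Real.cos (2 * Real.pi * (M - n.val) / M) := by
      rw [← Real.cos_two_pi_sub]
      congr 1
      field_simp
    rw [h2]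
    apply Real.cos_le_cos_of_nonneg_of_le_pi (by positivity)
    · rw [div_le_iff₀ hM]; nlinarith
    · apply div_le_div_of_nonneg_right _ hM.le
      nlinarith

end char

section wir

variable {V : Type*} [AddCommGroup V] [Module ℝ V] {B : V →ₗ[ℝ] V →ₗ[ℝ] ℝ} {M : ℕ} [NeZero M]

/-- The inequality for a vector with mean zero. -/
lemma wir0 (hs : ∀ x y, B x y = B y x) (hp : ∀ x, 0 ≤ B x x) {T : V →ₗ[ℝ] V}
    (hT : ∀ x y, B (T x) (T y) = B x y) (hM : T ^ M = 1) {g : V}
    (hg : ∑ j ∈ range M, (T ^ j) g = 0) :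
    4 * Real.sin (Real.pi / M) ^ 2 * B g g ≤ B (T g - g) (T g - g) := by
  have hM0 : (0 : ℝ) < M := by exact_mod_cast NeZero.pos M
  -- the orbit
  set v : ZMod M → V := fun s => (T ^ s.val) g with hv
  have hvn : ∀ k : ℕ, v (k : ZMod M) = (T ^ k) g := by
    intro k
    simp only [hv, ZMod.val_natCast]
    rw [← pow_eq_pow_mod k hM]
  have hTk : ∀ (k : ℕ) x y, B ((T ^ k) x) ((T ^ k) y) = B x y := by
    intro k
    induction k with
    | zero => intro x y; simp
    | succ k ih =>
      intro x y
      rw [pow_succ', Module.End.mul_apply, Module.End.mul_apply, hT, ih]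
  have hadd : ∀ s u : ZMod M, v (s + u) = (T ^ u.val) (v s) := by
    intro s u
    have h1 : s + u = ((u.val + s.val : ℕ) : ZMod M) := by
      push_cast
      rw [ZMod.natCast_zmod_val, ZMod.natCast_zmod_val, add_comm]
    rw [h1, hvn, pow_add, Module.End.mul_apply]
  set c : ZMod M → ℝ := fun s => B (v s) (v 0) with hc
  have hB : ∀ s t, B (v s) (v t) = c (s - t) := by
    intro s t
    have h1 : v s = (T ^ t.val) (v (s - t)) := by rw [← hadd, sub_add_cancel]
    have h2 : v t = (T ^ t.val) (v 0) := by rw [← hadd, zero_add]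
    rw [h1, h2, hTk]
  have hce : ∀ s, c (-s) = c s := by
    intro s
    have h1 := hB 0 s
    rw [zero_sub] at h1
    rw [← h1, hs]
  have hsum : ∑ s, c s = 0 := by
    have h1 : ∑ s, v s = 0 := by
      rw [← hg]
      refine Finset.sum_bij (fun s _ => s.val) (fun s _ => mem_range.2 (ZMod.val_lt s))
        (fun s _ t _ h => ZMod.val_injective M h) (fun k hk => ⟨(k : ZMod M), mem_univ _, ?_⟩)
        (fun s _ => rfl)
      exact ZMod.val_natCast_of_lt (mem_range.1 hk)
    simp only [hc]
    rw [← LinearMap.sum_apply, ← map_sum, h1]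
    simp
  -- the transform
  set a : ZMod M → ℝ := fun n => ∑ s, cC (n * s) * c s with ha
  have ha0 : a 0 = 0 := by
    simp only [ha, zero_mul, cC_zero, one_mul]
    exact hsum
  have hpos : ∀ n, 0 ≤ a n := by
    intro n
    have h1 : (M : ℝ) * a n = B (∑ j, cC (n * j) • v j) (∑ k, cC (n * k) • v k) +
        B (∑ j, cS (n * j) • v j) (∑ k, cS (n * k) • v k) := by
      have e1 : ∀ k : ZMod M, a n = ∑ j, cC (n * (j - k)) * c (j - k) := by
        intro k
        exact (Equiv.sum_comp (Equiv.subRight k) fun s => cC (n * s) * c s).symm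
      have e2 : (M : ℝ) * a n = ∑ k : ZMod M, ∑ j, cC (n * (j - k)) * c (j - k) := by
        rw [← Finset.sum_congr rfl fun k _ => e1 k, Finset.sum_const, Finset.card_univ, ZMod.card,
          nsmul_eq_mul]
      rw [e2]
      have e3 : ∀ F : ZMod M → ℝ, B (∑ j, F j • v j) (∑ k, F k • v k) =
          ∑ k, ∑ j, F j * F k * c (j - k) := by
        intro F
        rw [map_sum]
        refine Finset.sum_congr rfl fun k _ => ?_
        rw [map_sum, LinearMap.sum_apply]
        refine Finset.sum_congr rfl fun j _ => ?_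
        rw [map_smul, map_smul, LinearMap.smul_apply, hB, smul_eq_mul, smul_eq_mul]
        ring
      rw [e3 fun j => cC (n * j), e3 fun j => cS (n * j), ← Finset.sum_add_distrib]
      refine Finset.sum_congr rfl fun k _ => ?_
      rw [← Finset.sum_add_distrib]
      refine Finset.sum_congr rfl fun j _ => ?_
      rw [mul_sub, cC_sub]
      ring
    have h2 : 0 ≤ (M : ℝ) * a n := by rw [h1]; exact add_nonneg (hp _) (hp _)
    exact nonneg_of_mul_nonneg_right h2 hM0
  have hinv : ∀ t, ∑ n, a n * cC (n * t) = M * c t := by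
    intro t
    have h1 : ∑ n, a n * cC (n * t) = ∑ s, c s * ∑ n, cC (n * s) * cC (n * t) := by
      simp only [ha, Finset.sum_mul, Finset.mul_sum]
      rw [Finset.sum_comm]
      exact Finset.sum_congr rfl fun s _ => Finset.sum_congr rfl fun n _ => by ring
    have h2 : ∀ s : ZMod M, ∑ n : ZMod M, cC (n * s) * cC (n * t) =
        ((if s - t = 0 then (M : ℝ) else 0) + if s + t = 0 then (M : ℝ) else 0) / 2 := by
      intro s
      rw [← sum_cC (s - t), ← sum_cC (s + t), ← Finset.sum_add_distrib, Finset.sum_div]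
      refine Finset.sum_congr rfl fun n _ => ?_
      rw [mul_sub, mul_add, cC_sub, cC_add]
      ring
    rw [h1]
    simp only [h2]
    have h3 : ∀ s : ZMod M, c s * (((if s - t = 0 then (M : ℝ) else 0) +
        if s + t = 0 then (M : ℝ) else 0) / 2) = (if s = t then c s * M / 2 else 0) +
          if s = -t then c s * M / 2 else 0 := by
      intro s
      simp only [sub_eq_zero, add_eq_zero_iff_eq_neg]
      split_ifs <;> ring
    simp only [h3]
    rw [Finset.sum_add_distrib, Finset.sum_ite_eq', Finset.sum_ite_eq', if_pos (mem_univ _),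
      if_pos (mem_univ _), hce]
    ring
  have h0 := hinv 0
  have h1 := hinv 1
  simp only [mul_zero, cC_zero, mul_one] at h0 h1
  -- conclusion
  have hkey : (1 - Real.cos (2 * Real.pi / M)) * (M * c 0) ≤ M * c 0 - M * c 1 := by
    rw [← h0, ← h1, Finset.mul_sum, ← Finset.sum_sub_distrib]
    refine Finset.sum_le_sum fun n _ => ?_
    rcases eq_or_ne n 0 with rfl | hn
    · rw [ha0]; simp
    · have := cC_le hn
      have := hpos n
      nlinarith
  have hg0 : c 0 = B g g := by simp [hc, hv]
  have hg1 : c 1 = B (T g) g := by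
    have e1 : v 1 = T g := by
      have := hvn 1
      simpa using this
    have e2 : v 0 = g := by simp [hv]
    simp only [hc]
    rw [e1, e2]
  have hcos : 1 - Real.cos (2 * Real.pi / M) = 2 * Real.sin (Real.pi / M) ^ 2 := by
    have h2 : 2 * Real.pi / M = 2 * (Real.pi / M) := by ring
    rw [h2, Real.cos_two_mul, ← Real.sin_sq_add_cos_sq (Real.pi / M)]
    ring
  have hexp : B (T g - g) (T g - g) = 2 * (c 0 - c 1) := by
    simp only [map_sub, LinearMap.sub_apply]
    rw [hT, hs g (T g), hg0, hg1]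
    ring
  rw [hexp, ← hg0]
  rw [hcos] at hkey
  have : 2 * Real.sin (Real.pi / M) ^ 2 * c 0 ≤ c 0 - c 1 := by
    have h2 : (M : ℝ) * (2 * Real.sin (Real.pi / M) ^ 2 * c 0) ≤ M * (c 0 - c 1) := by linarith
    exact le_of_mul_le_mul_left h2 hM0
  linarith

/-- the mean over the orbit -/
noncomputable def av (T : V →ₗ[ℝ] V) (M : ℕ) : V →ₗ[ℝ] V := (1 / (M : ℝ)) • ∑ j ∈ range M, T ^ j

lemma av_apply (T : V →ₗ[ℝ] V) (f : V) : av T M f = (1 / (M : ℝ)) • ∑ j ∈ range M, (T ^ j) f := by
  unfold av
  rw [LinearMap.smul_apply, LinearMap.sum_apply]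

lemma T_av {T : V →ₗ[ℝ] V} (hM : T ^ M = 1) (f : V) : T (av T M f) = av T M f := by
  rw [av_apply, map_smul, map_sum]
  congr 1
  have h1 : ∀ j, T ((T ^ j) f) = (T ^ (j + 1)) f := fun j => by
    rw [pow_succ', Module.End.mul_apply]
  simp only [h1]
  have h2 := Finset.sum_range_succ' (fun j => (T ^ j) f) M
  have h3 := Finset.sum_range_succ (fun j => (T ^ j) f) M
  rw [h2] at h3
  simp only [pow_zero, hM] at h3
  exact add_right_cancel h3

lemma pow_av {T : V →ₗ[ℝ] V} (hM : T ^ M = 1) (j : ℕ) (f : V) :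
    (T ^ j) (av T M f) = av T M f := by
  induction j with
  | zero => simp
  | succ j ih => rw [pow_succ', Module.End.mul_apply, ih, T_av hM]

lemma av_av {T : V →ₗ[ℝ] V} (hM : T ^ M = 1) (f : V) : av T M (av T M f) = av T M f := by
  have hM0 : (M : ℝ) ≠ 0 := by exact_mod_cast (NeZero.ne M)
  rw [av_apply T (av T M f)]
  simp only [pow_av hM]
  rw [Finset.sum_const, card_range, ← Nat.cast_smul_eq_nsmul ℝ, smul_smul]
  rw [one_div, inv_mul_cancel₀ hM0, one_smul]

/-- The inequality for an isometry of finite order. -/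
theorem wir (hs : ∀ x y, B x y = B y x) (hp : ∀ x, 0 ≤ B x x) {T : V →ₗ[ℝ] V}
    (hT : ∀ x y, B (T x) (T y) = B x y) (hM : T ^ M = 1) (f : V) :
    4 * Real.sin (Real.pi / M) ^ 2 * B (f - av T M f) (f - av T M f) ≤
      B (T f - f) (T f - f) := by
  have hM0 : (M : ℝ) ≠ 0 := by exact_mod_cast (NeZero.ne M)
  have h1 : ∑ j ∈ range M, (T ^ j) (f - av T M f) = 0 := by
    have h2 := av_apply (M := M) T (f - av T M f)
    rw [map_sub, av_av hM, sub_self] at h2
    have h3 := (smul_eq_zero.1 h2.symm).resolve_left (by positivity)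
    exact h3
  have h2 := wir0 hs hp hT hM h1
  have h3 : T (f - av T M f) - (f - av T M f) = T f - f := by
    rw [map_sub T, T_av hM, sub_sub_sub_cancel_right]
  rwa [h3] at h2

/-- Two commuting isometries without common fixed vectors. -/
theorem wir_two (hs : ∀ x y, B x y = B y x) (hp : ∀ x, 0 ≤ B x x) {T T' : V →ₗ[ℝ] V}
    (hT : ∀ x y, B (T x) (T y) = B x y) (hT' : ∀ x y, B (T' x) (T' y) = B x y)
    (hM : T ^ M = 1) (hM' : T' ^ M = 1) (hc : T * T' = T' * T)
    (h0 : ∀ f, T f = f → T' f = f → f = 0) (f : V) :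
    4 * Real.sin (Real.pi / M) ^ 2 * B f f ≤ B (T f - f) (T f - f) + B (T' f - f) (T' f - f) := by
  have w1 := wir hs hp hT hM f
  have w2 := wir hs hp hT' hM' f
  have hsin : 0 ≤ 4 * Real.sin (Real.pi / M) ^ 2 := by positivity
  have hM0 : (M : ℝ) ≠ 0 := by exact_mod_cast (NeZero.ne M)
  have hM0' : (0 : ℝ) < M := by exact_mod_cast (NeZero.pos M)
  -- the mean is symmetric
  have hTk : ∀ (k : ℕ) x y, B ((T ^ k) x) ((T ^ k) y) = B x y := by
    intro k
    induction k with
    | zero => intro x y; simp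
    | succ k ih =>
      intro x y
      rw [pow_succ', Module.End.mul_apply, Module.End.mul_apply, hT, ih]
  have hsum : ∀ x y, B (av T M x) y = B (av T M x) (av T M y) := by
    intro x y
    rw [av_apply T y, map_smul, map_sum]
    have h1 : ∀ j ∈ range M, B (av T M x) ((T ^ j) y) = B (av T M x) y := by
      intro j _
      conv_lhs => rw [← pow_av hM j x]
      exact hTk j _ _
    rw [Finset.sum_congr rfl h1, Finset.sum_const, card_range, nsmul_eq_mul, smul_eq_mul]
    field_simp
  -- orthogonal decomposition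
  have horth : ∀ x, B x x = B (x - av T M x) (x - av T M x) + B (av T M x) (av T M x) := by
    intro x
    simp only [map_sub, LinearMap.sub_apply]
    rw [hs x (av T M x), hsum x x]
    ring
  have hcontr : ∀ x, B (av T M x) (av T M x) ≤ B x x := by
    intro x
    rw [horth x]
    linarith [hp (x - av T M x)]
  -- the two means commute
  have hck : ∀ j : ℕ, ∀ x, T' ((T ^ j) x) = (T ^ j) (T' x) := by
    intro j
    induction j with
    | zero => intro x; simp
    | succ j ih =>
      intro x
      have h1 : ∀ y, T' (T y) = T (T' y) := fun y => by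
        have := congrArg (fun S => S y) hc
        simp only [Module.End.mul_apply] at this
        exact this.symm
      rw [pow_succ', Module.End.mul_apply, Module.End.mul_apply, h1, ih]
  have hca : ∀ x, T' (av T M x) = av T M (T' x) := by
    intro x
    rw [av_apply, av_apply, map_smul, map_sum]
    simp only [hck]
  have hcak : ∀ (j : ℕ) x, (T' ^ j) (av T M x) = av T M ((T' ^ j) x) := by
    intro j
    induction j with
    | zero => intro x; simp
    | succ j ih =>
      intro x
      rw [pow_succ', Module.End.mul_apply, Module.End.mul_apply, ih, hca]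
  have hcc : ∀ x, av T' M (av T M x) = av T M (av T' M x) := by
    intro x
    rw [av_apply T' (av T M x), av_apply T' x, map_smul, map_sum]
    simp only [hcak]
  have hzero : av T' M (av T M f) = 0 := by
    refine h0 _ ?_ (T_av hM' _)
    rw [hcc]
    exact T_av hM _
  have h2 : B (av T M f) (av T M f) ≤ B (f - av T' M f) (f - av T' M f) := by
    have h3 := hcontr (f - av T' M f)
    rw [map_sub, ← hcc, hzero, sub_zero] at h3
    exact h3
  have h3 := horth f
  have h4 : B f f ≤ B (f - av T M f) (f - av T M f) + B (f - av T' M f) (f - av T' M f) := by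
    linarith
  calc 4 * Real.sin (Real.pi / M) ^ 2 * B f f
      ≤ 4 * Real.sin (Real.pi / M) ^ 2 * (B (f - av T M f) (f - av T M f) +
        B (f - av T' M f) (f - av T' M f)) := mul_le_mul_of_nonneg_left h4 hsin
    _ ≤ _ := by rw [mul_add]; exact add_le_add w1 w2

end wir

end Pool.Agent.Run7.h897.TW
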