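import Mathlib
import Pool.Agent.Run7.h630.R2.Fib
import Pool.Agent.Run7.h897.TW.Wir

/-!
# The sharp spectral gap of the covariant Laplacian
-/

open MeasureTheory Matrix Filter Pool.Agent.N991.MK Pool.Agent.N989.MK
open scoped Matrix.Norms.Frobenius Topology
open Pool.Agent.H906R3.YM Pool.Agent.W793.YM Pool.Agent.TH618.YM Pool.Agent.N984.TW
open Pool.Agent.Run7.h871.LG (adc nab ipE gt emE qE)
open Pool.Agent.Run7.h630.R2

namespace Pool.Agent.Run7.h897.TW

set_option linter.unusedSectionVars false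
set_option linter.unusedVariables false
set_option linter.style.haveILetI false

noncomputable section

/-! ### the root -/

lemma rt_lt_one {x : ℝ} (hx : 0 < x) : rt x < 1 := by
  obtain ⟨h1, -, h3⟩ := rt_spec hx
  refine h3.trans_lt ?_
  rw [div_lt_one (by linarith)]
  linarith

lemma root_mono {r s : ℝ} (hr : 0 < r) (hs : 0 < s) (hr1 : r < 1) (hs1 : s < 1)
    (h : r + 1 / r ≤ s + 1 / s) : s ≤ r := by
  by_contra hne
  push Not at hne
  have h1 : s + 1 / s - (r + 1 / r) = (s - r) * (1 - 1 / (r * s)) := by field_simp; ring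
  have h2 : 1 < 1 / (r * s) := by
    rw [lt_div_iff₀ (by positivity)]
    nlinarith
  nlinarith

lemma rt_anti {x y : ℝ} (hx : 0 < x) (hxy : x ≤ y) : rt y ≤ rt x := by
  obtain ⟨h1, h2, -⟩ := rt_spec hx
  obtain ⟨h3, h4, -⟩ := rt_spec (hx.trans_le hxy)
  exact root_mono h1 h3 (rt_lt_one hx) (rt_lt_one (hx.trans_le hxy)) (by linarith)

lemma rt_unique {r x : ℝ} (hx : 0 < x) (h0 : 0 < r) (h1 : r < 1) (h : r + 1 / r = 2 + x) :
    rt x = r := by
  obtain ⟨h2, h3, -⟩ := rt_spec hx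
  exact le_antisymm (root_mono h0 h2 h1 (rt_lt_one hx) (by linarith))
    (root_mono h2 h0 (rt_lt_one hx) h1 (by linarith))

lemma rt_sharp {s : ℝ} (hs : 0 < s) : rt (4 * s ^ 2) = Real.exp (-(2 * Real.arsinh s)) := by
  have hA : 0 < Real.arsinh s := Real.arsinh_pos_iff.2 hs
  refine rt_unique (by positivity) (Real.exp_pos _) (by
    rw [← Real.exp_zero]; exact Real.exp_lt_exp.2 (by linarith)) ?_
  rw [one_div, ← Real.exp_neg, neg_neg]
  have h1 : Real.exp (-(2 * Real.arsinh s)) + Real.exp (2 * Real.arsinh s) =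
      2 * Real.cosh (2 * Real.arsinh s) := by
    rw [Real.cosh_eq]; ring
  rw [h1, Real.cosh_two_mul, Real.cosh_sq, Real.sinh_arsinh]
  ring

/-! ### the purity of the determinants -/

variable {E : Type*} [Fintype E] [DecidableEq E]

/-- the purity with the sharp rate -/
theorem purity_sharp {a a' : ℕ} [NeZero a] [NeZero a'] (ha : a' = 2 * a) {H : Matrix E E ℝ}
    (hH : H.IsHermitian) {x0 : ℝ} (hx0 : 0 < x0) (hpos : ∀ e, x0 ≤ hH.eigenvalues e) :
    0 < det (lap a H) ∧ 0 < det (lap a' H) ∧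
    1 - 4 * Fintype.card E * rt x0 ^ a ≤ det (lap a H) ^ 2 / det (lap a' H) := by
  obtain ⟨p1, p2, -⟩ := purity ha hH hx0 hpos
  refine ⟨p1, p2, ?_⟩
  have hp : ∀ e, 0 < hH.eigenvalues e := fun e => hx0.trans_le (hpos e)
  have hr : ∀ e, 0 < rt (hH.eigenvalues e) ∧ rt (hH.eigenvalues e) ≤ rt x0 := fun e =>
    ⟨(rt_spec (hp e)).1, rt_anti hx0 (hpos e)⟩
  have hρ1 : rt x0 < 1 := rt_lt_one hx0
  have hρ0 : 0 < rt x0 := (rt_spec hx0).1
  have ha0 : a ≠ 0 := NeZero.ne a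
  have hlt : ∀ e, ∀ k : ℕ, k ≠ 0 → rt (hH.eigenvalues e) ^ k < 1 := fun e k hk =>
    pow_lt_one₀ (hr e).1.le ((hr e).2.trans_lt hρ1) hk
  have h1 : det (lap a H) ^ 2 / det (lap a' H) =
      ∏ e, ((1 - rt (hH.eigenvalues e) ^ a) / (1 + rt (hH.eigenvalues e) ^ a)) ^ 2 := by
    rw [det_lap a hH hp, det_lap a' hH hp, ← Finset.prod_pow, ← Finset.prod_div_distrib]
    refine Finset.prod_congr rfl fun e _ => ?_
    obtain ⟨y, hy⟩ : ∃ y, y = rt (hH.eigenvalues e) ^ a := ⟨_, rfl⟩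
    have hy0 : 0 < y := by rw [hy]; exact pow_pos (hr e).1 _
    have hy1 : y < 1 := by rw [hy]; exact hlt e a ha0
    have h2 : rt (hH.eigenvalues e) ^ a' = y ^ 2 := by
      rw [ha, hy, mul_comm, pow_mul]
    rw [h2, ← hy]
    have h3 : 1 - y ^ 2 = (1 - y) * (1 + y) := by ring
    have h4 : (1 - y) ≠ 0 := by linarith
    have h5 : (1 + y) ≠ 0 := by linarith
    rw [h3]
    field_simp
  rw [h1]
  have h2 : ∏ e : E, (1 - rt x0 ^ a) ^ 4 ≤
      ∏ e, ((1 - rt (hH.eigenvalues e) ^ a) / (1 + rt (hH.eigenvalues e) ^ a)) ^ 2 := by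
    refine Finset.prod_le_prod (fun e _ => by positivity) fun e _ => ?_
    obtain ⟨y, hy⟩ : ∃ y, y = rt (hH.eigenvalues e) ^ a := ⟨_, rfl⟩
    have hy0 : 0 < y := by rw [hy]; exact pow_pos (hr e).1 _
    have hy1 : y < 1 := by rw [hy]; exact hlt e a ha0
    have hy2 : y ≤ rt x0 ^ a := by
      rw [hy]; exact pow_le_pow_left₀ (hr e).1.le (hr e).2 _
    rw [← hy]
    have h3 : (1 - rt x0 ^ a) ^ 4 ≤ ((1 - y) ^ 2) ^ 2 := by
      rw [← pow_mul]
      refine pow_le_pow_left₀ ?_ (by linarith) 4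
      have := pow_le_one₀ (n := a) hρ0.le hρ1.le
      linarith
    refine h3.trans (pow_le_pow_left₀ (by positivity) ?_ 2)
    rw [le_div_iff₀ (by linarith)]
    nlinarith [mul_nonneg hy0.le (sub_nonneg.2 hy1.le), sq_nonneg y]
  refine le_trans ?_ h2
  rw [Finset.prod_const, Finset.card_univ, ← pow_mul]
  have h3 := one_add_mul_le_pow (a := -rt x0 ^ a) (by
    have := pow_le_one₀ (n := a) hρ0.le hρ1.le
    linarith) (4 * Fintype.card E)
  push_cast at h3
  rw [← sub_eq_add_neg] at h3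
  refine le_trans (le_of_eq ?_) h3
  ring

/-! ### the order of the shifts -/

variable {N n : ℕ} [NeZero N] (B : Frame (SU N) n) {a b l : ℕ} [NeZero a] [NeZero b] [NeZero l]
  {P Q : SU N} {k : ℕ}

/-- the number of crossings -/
def cnt (l : ℕ) : ℕ → ZMod l → ℕ
  | 0, _ => 0
  | j + 1, p => (if p = 0 then 1 else 0) + cnt l j (p + 1)

lemma cnt_eq (j : ℕ) (p : ZMod l) :
    cnt l j p = ∑ i ∈ Finset.range j, if p + (i : ZMod l) = 0 then 1 else 0 := by
  induction j generalizing p with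
  | zero => simp [cnt]
  | succ j ih =>
    rw [Finset.sum_range_succ', cnt, ih, add_comm]
    congr 1
    · refine Finset.sum_congr rfl fun i _ => ?_
      push_cast
      rw [add_assoc, add_comm (1 : ZMod l)]
    · simp

lemma cnt_l (p : ZMod l) : cnt l l p = 1 := by
  rw [cnt_eq]
  have h1 : ∑ i ∈ Finset.range l, (if p + (i : ZMod l) = 0 then 1 else 0) =
      ∑ x : ZMod l, if p + x = 0 then 1 else 0 := by
    refine (Finset.sum_bij (fun (x : ZMod l) _ => x.val)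
      (fun x _ => Finset.mem_range.2 (ZMod.val_lt x))
      (fun x _ y _ h => ZMod.val_injective l h)
      (fun i hi => ⟨(i : ZMod l), Finset.mem_univ _,
        ZMod.val_natCast_of_lt (Finset.mem_range.1 hi)⟩)
      (fun x _ => ?_)).symm
    rw [ZMod.natCast_zmod_val]
  rw [h1]
  have h2 : ∀ x : ZMod l, (if p + x = 0 then 1 else 0) = if x = -p then 1 else 0 := by
    intro x
    have : p + x = 0 ↔ x = -p := by rw [add_comm, add_eq_zero_iff_eq_neg]
    simp only [this]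
  simp only [h2, Finset.sum_ite_eq', Finset.mem_univ, if_true]

lemma Ts2_pow (j : ℕ) (f : V 1 1 l n) (u : ZMod 1 × ZMod 1) (p q : ZMod l) :
    ((Ts B P Q 2 : V 1 1 l n →ₗ[ℝ] _) ^ j) f (u, (p, q)) =
      adc B (P ^ cnt l j p) (f (u, (p + (j : ZMod l), q))) := by
  induction j generalizing p with
  | zero => simp [cnt, adc_one]
  | succ j ih =>
    rw [pow_succ', Module.End.mul_apply, Ts_apply, ee2, ih, U0_two, ← adc_mul]
    congr 1
    · simp only [cnt]
      rw [pow_add]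
      congr 1
      split_ifs <;> simp
    · push_cast
      rw [add_assoc, add_comm (1 : ZMod l)]

lemma Ts3_pow (j : ℕ) (f : V 1 1 l n) (u : ZMod 1 × ZMod 1) (p q : ZMod l) :
    ((Ts B P Q 3 : V 1 1 l n →ₗ[ℝ] _) ^ j) f (u, (p, q)) =
      adc B (Q ^ cnt l j q) (f (u, (p, q + (j : ZMod l)))) := by
  induction j generalizing q with
  | zero => simp [cnt, adc_one]
  | succ j ih =>
    rw [pow_succ', Module.End.mul_apply, Ts_apply, ee3, ih, U0_three, ← adc_mul]
    congr 1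
    · simp only [cnt]
      rw [pow_add]
      congr 1
      split_ifs <;> simp
    · push_cast
      rw [add_assoc, add_comm (1 : ZMod l)]

lemma mt_pow (g : SU N) (j : ℕ) : mt (g ^ j) = mt g ^ j := by
  induction j with
  | zero => simp [mt_one]
  | succ j ih => rw [pow_succ, mt_mul, ih, pow_succ]

lemma adc_pow_fix {g : SU N} (h : ∃ c : ℂ, mt (g ^ N) = c • (1 : Mat N)) (x : Fin n → ℝ) :
    adc B (g ^ N) x = x := by
  refine adc_cen B (fun h' => ?_) h x
  obtain ⟨c, hc⟩ := h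
  apply mt_inj
  rw [mt_mul, mt_mul, hc, smul_mul_assoc, one_mul, mul_smul_comm, mul_one]

lemma zeta_pow (k : ℕ) : (zeta N ^ k) ^ N = 1 := by
  rw [← pow_mul, mul_comm k N, pow_mul]
  unfold zeta
  rw [← Complex.exp_nat_mul]
  have hN : (N : ℂ) ≠ 0 := by exact_mod_cast NeZero.ne N
  have : (N : ℂ) * (2 * Real.pi * Complex.I / N) = 2 * Real.pi * Complex.I := by field_simp
  rw [this, Complex.exp_two_pi_mul_I, one_pow]

lemma P_pow (hPQ : TwPair N (zeta N ^ k) P Q) : ∃ c : ℂ, mt (P ^ N) = c • (1 : Mat N) := by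
  have h1 : ∀ j : ℕ, mt Q * mt P ^ j = ((zeta N ^ k) ^ j) • (mt P ^ j * mt Q) := by
    intro j
    induction j with
    | zero => simp
    | succ j ih =>
      rw [pow_succ, ← mul_assoc, ih, smul_mul_assoc, mul_assoc, hPQ.comm, mul_smul_comm, smul_smul,
        ← pow_succ, ← mul_assoc]
  have h2 := h1 N
  rw [zeta_pow, one_smul] at h2
  refine hPQ.irr _ ?_ ?_
  · rw [mt_pow, ← pow_succ, ← pow_succ']
  · rw [mt_pow]; exact h2

lemma Q_pow (hPQ : TwPair N (zeta N ^ k) P Q) : ∃ c : ℂ, mt (Q ^ N) = c • (1 : Mat N) := by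
  have h1 : ∀ j : ℕ, mt Q ^ j * mt P = ((zeta N ^ k) ^ j) • (mt P * mt Q ^ j) := by
    intro j
    induction j with
    | zero => simp
    | succ j ih =>
      rw [pow_succ' (mt Q), mul_assoc, ih, mul_smul_comm, ← mul_assoc, hPQ.comm, smul_mul_assoc,
        smul_smul, ← pow_succ, mul_assoc]
  have h2 := h1 N
  rw [zeta_pow, one_smul] at h2
  refine hPQ.irr _ ?_ ?_
  · rw [mt_pow]; exact h2.symm
  · rw [mt_pow, ← pow_succ, ← pow_succ']

lemma adc_pow (g : SU N) (j : ℕ) (x : Fin n → ℝ) : (adc B g)^[j] x = adc B (g ^ j) x := by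
  induction j with
  | zero => simp [adc_one]
  | succ j ih => rw [Function.iterate_succ_apply', ih, ← adc_mul, ← pow_succ']

lemma Ts2_order (hPQ : TwPair N (zeta N ^ k) P Q) :
    (Ts B P Q 2 : V 1 1 l n →ₗ[ℝ] _) ^ (l * N) = 1 := by
  refine LinearMap.ext fun f => ?_
  have h1 : ∀ g : V 1 1 l n, ((Ts B P Q 2 : V 1 1 l n →ₗ[ℝ] _) ^ l) g = fun v => adc B P (g v) := by
    intro g
    funext v
    obtain ⟨u, p, q⟩ := v
    rw [Ts2_pow, cnt_l, pow_one]
    simp
  have h2 : ∀ j : ℕ, (((Ts B P Q 2 : V 1 1 l n →ₗ[ℝ] _) ^ l) ^ j) f =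
      fun v => adc B (P ^ j) (f v) := by
    intro j
    induction j with
    | zero => funext v; simp [adc_one]
    | succ j ih =>
      rw [pow_succ', Module.End.mul_apply, ih, h1]
      funext v
      rw [← adc_mul, ← pow_succ']
  rw [pow_mul, h2]
  funext v
  rw [adc_pow_fix B (P_pow hPQ)]
  rfl

lemma Ts3_order (hPQ : TwPair N (zeta N ^ k) P Q) :
    (Ts B P Q 3 : V 1 1 l n →ₗ[ℝ] _) ^ (l * N) = 1 := by
  refine LinearMap.ext fun f => ?_
  have h1 : ∀ g : V 1 1 l n, ((Ts B P Q 3 : V 1 1 l n →ₗ[ℝ] _) ^ l) g = fun v => adc B Q (g v) := by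
    intro g
    funext v
    obtain ⟨u, p, q⟩ := v
    rw [Ts3_pow, cnt_l, pow_one]
    simp
  have h2 : ∀ j : ℕ, (((Ts B P Q 3 : V 1 1 l n →ₗ[ℝ] _) ^ l) ^ j) f =
      fun v => adc B (Q ^ j) (f v) := by
    intro j
    induction j with
    | zero => funext v; simp [adc_one]
    | succ j ih =>
      rw [pow_succ', Module.End.mul_apply, ih, h1]
      funext v
      rw [← adc_mul, ← pow_succ']
  rw [pow_mul, h2]
  funext v
  rw [adc_pow_fix B (Q_pow hPQ)]
  rfl

/-! ### the gap -/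

/-- the scalar product as a bilinear form -/
def ipL (K : Type*) [Fintype K] (n : ℕ) : (K → Fin n → ℝ) →ₗ[ℝ] (K → Fin n → ℝ) →ₗ[ℝ] ℝ :=
  LinearMap.mk₂ ℝ ipE (fun x y z => ipE_add_left x y z)
    (fun c x y => by
      unfold ipE
      simp only [Pi.smul_apply, smul_eq_mul, Finset.mul_sum, mul_assoc])
    (fun x y z => ipE_add_right y z x)
    (fun c x y => by
      unfold ipE
      simp only [Pi.smul_apply, smul_eq_mul, Finset.mul_sum]
      exact Finset.sum_congr rfl fun k _ => Finset.sum_congr rfl fun a _ => by ring)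

lemma ipL_apply (K : Type*) [Fintype K] (n : ℕ) (x y : K → Fin n → ℝ) :
    ipL K n x y = ipE x y := rfl

/-- the sharp gap of the fibre operator -/
lemma fib_gap_sharp (hPQ : TwPair N (zeta N ^ k) P Q) (f : V 1 1 l n) :
    4 * Real.sin (Real.pi / (l * N)) ^ 2 * ipE f f ≤
      ipE (Ad B P Q 2 f) (Ad B P Q 2 f) + ipE (Ad B P Q 3 f) (Ad B P Q 3 f) := by
  haveI : NeZero (l * N) := ⟨Nat.mul_ne_zero (NeZero.ne l) (NeZero.ne N)⟩
  have hiso : ∀ i (x y : V 1 1 l n), ipL _ n (Ts B P Q i x) (Ts B P Q i y) = ipL _ n x y := by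
    intro i x y
    rw [ipL_apply, ipL_apply, ip_Ts, Tt_Ts]
  have h := wir_two (B := ipL (Si 1 1 l) n) (M := l * N)
    (fun x y => by rw [ipL_apply, ipL_apply, ipE_comm]) (fun x => ipE_self_nonneg x)
    (hiso 2) (hiso 3) (Ts2_order B hPQ) (Ts3_order B hPQ)
    (LinearMap.ext fun x => Ts_comm B hPQ 2 3 x) (fun g h2 h3 => fib_ker B hPQ
      (by rw [Ad_apply, h2, sub_self]) (by rw [Ad_apply, h3, sub_self])) f
  push_cast at h
  exact h

/-- the sharp gap of the Laplacian -/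
lemma La_gap_sharp (hPQ : TwPair N (zeta N ^ k) P Q) (f : V a b l n) :
    4 * Real.sin (Real.pi / (l * N)) ^ 2 * ipE f f ≤ ipE f (La B P Q f) := by
  rw [ip_La, Fin.sum_univ_four]
  have h1 : 4 * Real.sin (Real.pi / (l * N)) ^ 2 * ipE f f ≤ ipE (Ad B P Q 2 f) (Ad B P Q 2 f) +
      ipE (Ad B P Q 3 f) (Ad B P Q 3 f) := by
    rw [fb_ip f f, fb_ip (Ad B P Q 2 f), fb_ip (Ad B P Q 3 f), ← Finset.sum_add_distrib,
      Finset.mul_sum]
    refine Finset.sum_le_sum fun u _ => ?_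
    rw [fb_Ad2, fb_Ad3]
    exact fib_gap_sharp B hPQ _
  have h2 := ipE_self_nonneg (Ad B P Q 0 f)
  have h3 := ipE_self_nonneg (Ad B P Q 1 f)
  linarith

/-- the rate -/
def rate (l N : ℕ) : ℝ := 2 * Real.arsinh (Real.sin (Real.pi / (l * N)))

lemma sin_pos' (hN : 2 ≤ N) (l : ℕ) [NeZero l] : 0 < Real.sin (Real.pi / (l * N)) := by
  have hl : (1 : ℝ) ≤ l := by exact_mod_cast NeZero.pos l
  have hN' : (2 : ℝ) ≤ N := by exact_mod_cast hN
  have h1 : (2 : ℝ) ≤ l * N := by nlinarith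
  apply Real.sin_pos_of_pos_of_lt_pi
  · exact div_pos Real.pi_pos (by linarith)
  · rw [div_lt_iff₀ (by linarith)]
    nlinarith [Real.pi_pos]

/-- the determinants: the sharp form -/
theorem det_sharp (hN : 2 ≤ N) (l : ℕ) [NeZero l] (hPQ : TwPair N (zeta N ^ k) P Q)
    (a a' b : ℕ) [NeZero a] [NeZero a'] [NeZero b] (ha : a' = 2 * a) :
      0 < LinearMap.det (La B P Q : V a b l n →ₗ[ℝ] _) ∧
      0 < LinearMap.det (La B P Q : V a' b l n →ₗ[ℝ] _) ∧
      1 - 4 * (b * l ^ 2 * n) * Real.exp (-rate l N) ^ a ≤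
        LinearMap.det (La B P Q : V a b l n →ₗ[ℝ] _) ^ 2 /
          LinearMap.det (La B P Q : V a' b l n →ₗ[ℝ] _) := by
  have hs := sin_pos' hN l
  have hx0 : 0 < 4 * Real.sin (Real.pi / (l * N)) ^ 2 := by positivity
  have hH : (mx (La B P Q : V 1 b l n →ₗ[ℝ] _)).IsHermitian := mx_herm fun f g => ip_La_symm B f g
  have h1 : ∀ e, 4 * Real.sin (Real.pi / (l * N)) ^ 2 ≤ hH.eigenvalues e := by
    refine fun e => eig_ge hH (fun x => ?_) e
    rw [mx_dot]
    have h2 := La_gap_sharp B hPQ ((ku (Si 1 b l) n).symm x)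
    rw [ipE_ku] at h2
    simpa using h2
  have h2 := purity_sharp ha hH hx0 h1
  rw [← det_La, ← det_La, rt_sharp hs] at h2
  have h3 : (Fintype.card (Si 1 b l × Fin n) : ℝ) = b * l ^ 2 * n := by
    simp only [Fintype.card_prod, ZMod.card, Fintype.card_fin]
    push_cast
    ring
  rw [h3] at h2
  exact h2

end

end Pool.Agent.Run7.h897.TW
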