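import Pool.Agent.Run7.h897.TW.Exc

/-!
# Scales and clustering with a small initial defect
-/

open MeasureTheory Filter Topology

namespace Pool.Agent.Run7.h897.TW

set_option linter.unusedSectionVars false
set_option linter.unusedVariables false
set_option linter.style.haveILetI false

open Pool.Agent.Run7.h897.FS

/-- The criterion at the scale `a` implies bounds at all larger scales. -/
theorem scalesS {d : ℕ} {Z : (Fin d → ℕ) → ℝ} (hZ : Fam Z) (hd : 2 ≤ d) {a : ℕ} (ha : 1 ≤ a)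
    {s : ℝ} (hs0 : 0 < s) (hs : s ≤ 1 / 2)
    (hD : ∀ (i : Fin d) (L : Fin d → ℕ), L i = a → (∀ j, j ≠ i → L j = 2 * a ∨ L j = 4 * a) →
      dP (fun n => Z (Function.update L i n)) a ≤ 1 / (3 * 5 ^ (d - 1)) * s) (k : ℕ) :
    HA Z (2 ^ (k + 1) * a) (1 / (3 * 5 ^ (d - 1)) * s ^ 2 ^ (k + 1)) := by
  set K : ℝ := 3 * 5 ^ (d - 1) with hK
  have hK15 : 15 ≤ K := by
    have : (5 : ℝ) ^ 1 ≤ 5 ^ (d - 1) := pow_le_pow_right₀ (by norm_num) (by omega)
    rw [hK]; linarith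
  have hK0 : 0 < K := by linarith
  have h3 : 1 / K ≤ 1 / 15 := one_div_le_one_div_of_le (by norm_num) hK15
  have h4 : 0 < 1 / K := by positivity
  have h0 : HH Z a (1 / K * s ^ 2 ^ 0) := by
    intro i L hi hj
    have hL : ∀ k, 1 ≤ L k := by
      intro k
      rcases eq_or_ne k i with rfl | hk
      · omega
      · have := hj k hk; omega
    have h1 := hD i L hi hj
    rw [pow_zero, pow_one]
    refine le_trans ?_ h1
    unfold psD
    rw [hi]
    refine (hZ L hL i).psi_le_dP ha (h1.trans ?_)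
    nlinarith
  have hstep : ∀ k : ℕ, HH Z (2 ^ k * a) (1 / K * s ^ 2 ^ k) →
      HA Z (2 ^ (k + 1) * a) (1 / K * s ^ 2 ^ (k + 1)) := by
    intro k hk
    have h1 : (1 : ℝ) / K * s ^ 2 ^ k ≤ 1 / 16 := by
      have h2 : s ^ 2 ^ k ≤ 1 / 2 := by
        have := pow_le_pow_of_le_one hs0.le (by linarith)
          (show 1 ≤ 2 ^ k from Nat.one_le_two_pow)
        rw [pow_one] at this
        linarith
      have h5 : 0 < s ^ 2 ^ k := by positivity
      nlinarith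
    have h2 := HG_of_HH hZ (Nat.one_le_iff_ne_zero.2 (by positivity)) h1 hk
    have h3 := HA_of_HG hZ (Nat.one_le_iff_ne_zero.2 (by positivity)) (by positivity) h2
    have e1 : 2 * (2 ^ k * a) = 2 ^ (k + 1) * a := by ring
    have e2 : (5 : ℝ) ^ (d - 1) * (3 * (1 / K * s ^ 2 ^ k) ^ 2) =
        1 / K * s ^ 2 ^ (k + 1) := by
      have : (5 : ℝ) ^ (d - 1) = K / 3 := by rw [hK]; ring
      rw [this, mul_pow, ← pow_mul, pow_succ 2 k]
      field_simp
    rwa [e1, e2] at h3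
  have hall : ∀ k : ℕ, HH Z (2 ^ k * a) (1 / K * s ^ 2 ^ k) := by
    intro k
    induction k with
    | zero => simpa using h0
    | succ k ih => exact HH_of_HA (hstep k ih)
  exact hstep k (hall k)

/-- the small quantity at the scale `k` -/
noncomputable def xS (s : ℝ) (k : ℕ) : ℝ := 1 / 15 * s ^ 2 ^ (k + 1)

variable {s : ℝ}

lemma xS_pos (hs0 : 0 < s) (k : ℕ) : 0 < xS s k := by unfold xS; positivity

lemma xS_tend (hs0 : 0 < s) (hs : s ≤ 1 / 2) : Tendsto (xS s) atTop (𝓝 0) := by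
  have h1 : Tendsto (fun k : ℕ => s ^ 2 ^ (k + 1)) atTop (𝓝 0) := by
    refine (tendsto_pow_atTop_nhds_zero_of_lt_one hs0.le (by linarith)).comp ?_
    refine tendsto_atTop_mono (fun k => ?_) tendsto_id
    have := Nat.lt_two_pow_self (n := k + 1)
    simp only [id]
    omega
  have h2 := h1.const_mul (1 / 15 : ℝ)
  rw [mul_zero] at h2
  exact h2

lemma xS_le (hs0 : 0 < s) (hs : s ≤ 1 / 2) (k : ℕ) :
    xS s k * Real.exp (2 * xS s k) ≤ s ^ 2 ^ (k + 1) := by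
  have h1 : s ^ 2 ^ (k + 1) ≤ 1 := pow_le_one₀ hs0.le (by linarith)
  have h2 : (0 : ℝ) < s ^ 2 ^ (k + 1) := by positivity
  have h3 : xS s k ≤ 1 / 15 := by
    unfold xS
    nlinarith
  have h4 : Real.exp (2 * xS s k) ≤ 15 := by
    have h5 : Real.exp (2 * xS s k) ≤ Real.exp 1 := Real.exp_le_exp.2 (by linarith)
    have h6 := Real.exp_one_lt_d9
    linarith
  calc xS s k * Real.exp (2 * xS s k) ≤ (1 / 15 * s ^ 2 ^ (k + 1)) * 15 :=
        mul_le_mul le_rfl h4 (Real.exp_pos _).le (by positivity)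
    _ = _ := by ring

/-- the error at the scale `k` -/
noncomputable def erS (s : ℝ) (a τ k : ℕ) : ℝ :=
  Real.exp (2 * xS s k) * (((xS s k * Real.exp (2 * xS s k)) ^
    (1 / (2 * (2 ^ (k + 1) * a : ℕ) : ℝ))) ^ τ +
      xS s k * Real.exp (xS s k * τ / (2 ^ (k + 1) * a : ℕ)))

lemma erS_le (hs0 : 0 < s) (hs : s ≤ 1 / 2) {a : ℕ} (ha : 1 ≤ a) (τ k : ℕ) :
    erS s a τ k ≤ Real.exp (2 * xS s k) * (s ^ (τ / (2 * a) : ℝ) +
      xS s k * Real.exp (xS s k * τ)) := by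
  unfold erS
  have hx := xS_pos hs0 k
  have ha' : (1 : ℝ) ≤ a := by exact_mod_cast ha
  have hs' : (1 : ℝ) ≤ (2 ^ (k + 1) * a : ℕ) := by
    have : 1 ≤ 2 ^ (k + 1) * a := Nat.one_le_iff_ne_zero.2 (by positivity)
    exact_mod_cast this
  apply mul_le_mul_of_nonneg_left _ (Real.exp_pos _).le
  apply add_le_add
  · have h1 := Real.rpow_le_rpow (by positivity) (xS_le hs0 hs k)
      (show (0 : ℝ) ≤ 1 / (2 * (2 ^ (k + 1) * a : ℕ) : ℝ) by positivity)
    have h2 := pow_le_pow_left₀ (Real.rpow_nonneg (by positivity) _) h1 τ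
    refine h2.trans (le_of_eq ?_)
    rw [← Real.rpow_natCast s (2 ^ (k + 1)), ← Real.rpow_mul hs0.le,
      ← Real.rpow_natCast _ τ, ← Real.rpow_mul hs0.le]
    congr 1
    push_cast
    field_simp
  · apply mul_le_mul_of_nonneg_left _ hx.le
    apply Real.exp_le_exp.2
    apply div_le_self (by positivity) hs'

lemma erS_lim (hs0 : 0 < s) (hs : s ≤ 1 / 2) {a : ℕ} (ha : 1 ≤ a) (τ : ℕ) {δ : ℝ} (hδ : 0 < δ) :
    ∃ k0, ∀ k, k0 ≤ k → erS s a τ k ≤ s ^ (τ / (2 * a) : ℝ) + δ := by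
  have h1 := xS_tend hs0 hs
  have h2 : Tendsto (fun k => Real.exp (2 * xS s k) * (s ^ (τ / (2 * a) : ℝ) +
      xS s k * Real.exp (xS s k * τ))) atTop (𝓝 (Real.exp (2 * 0) *
        (s ^ (τ / (2 * a) : ℝ) + 0 * Real.exp (0 * τ)))) := by
    have e1 := (Real.continuous_exp.tendsto _).comp (h1.const_mul 2)
    have e2 := (Real.continuous_exp.tendsto _).comp (h1.mul_const (τ : ℝ))
    exact e1.mul ((h1.mul e2).const_add _)
  rw [mul_zero, Real.exp_zero, zero_mul, add_zero, one_mul] at h2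
  have h3 := h2.eventually_lt_const (show s ^ (τ / (2 * a) : ℝ) <
    s ^ (τ / (2 * a) : ℝ) + δ by linarith)
  obtain ⟨k0, hk0⟩ := eventually_atTop.1 h3
  exact ⟨k0, fun k hk => (erS_le hs0 hs ha τ k).trans (hk0 k hk).le⟩

/-! ### the theory on a base times a fibre -/

section base

variable {N l : ℕ} {G : Type*} [Group G] [NeZero N] [NeZero l] {w : Ens N l G}
  [MeasurableSpace G] [MeasurableMul₂ G] [MeasurableInv G] {μ : Measure G}
  [IsProbabilityMeasure μ] [μ.IsInvInvariant]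

lemma famE (hb : w.Bd) (hw : w.Sy) : Fam (ZH2 μ w) := by
  intro L hL i
  fin_cases i
  · haveI : NeZero (2 * L 1) := ⟨by have := hL 1; omega⟩
    have hK := kp_KS (μ := PM μ (Ls (2 * L 1) l)) (tk_bm (μ := μ) (b := 2 * L 1) hb)
      (tk_symm hb hw)
    refine (hK.ts fun n hn => kp_EE_pos (tk_bm hb) (tk_pos hb) hn).congr fun n hn => ?_
    haveI : NeZero (2 * n) := ⟨by omega⟩
    rw [← ZE_EE hb hw hn]
    exact ZH2_eq (by simp) (by simp)
  · haveI : NeZero (2 * L 0) := ⟨by have := hL 0; omega⟩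
    have hK := kp_KS (μ := PM μ (Ls (2 * L 0) l)) (tk_bm (μ := μ) (b := 2 * L 0) hb)
      (tk_symm hb hw)
    refine (hK.ts fun n hn => kp_EE_pos (tk_bm hb) (tk_pos hb) hn).congr fun n hn => ?_
    haveI : NeZero (2 * n) := ⟨by omega⟩
    rw [← ZE_EE hb hw hn, ZE_ex hb hw]
    exact ZH2_eq (by simp) (by simp)

/-- the expectation -/
noncomputable def XE (μ : Measure G) (w : Ens N l G) {a b : ℕ} [NeZero a] [NeZero b]
    (H : (Lk a b l → G) → ℝ) : ℝ :=
  (∫ U : Lk a b l → G, H U * wtE w U ∂(PM μ (Lk a b l))) / ZE μ w a b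

/-- the criterion -/
def CrS (μ : Measure G) (w : Ens N l G) (a : ℕ) (s : ℝ) : Prop :=
  ∀ (i : Fin 2) (m : Fin 2 → ℕ), m i = a → (∀ j, j ≠ i → m j = 2 * a ∨ m j = 4 * a) →
    dP (fun n => ZH2 μ w (Function.update m i n)) a ≤ 1 / 15 * s

/-- clustering in a finite box -/
theorem clu_fin (hb : w.Bd) (hw : w.Sy) {a : ℕ} (ha : 1 ≤ a) {s : ℝ} (hs0 : 0 < s)
    (hs : s ≤ 1 / 2) (hcr : CrS μ w a s) {k n τ : ℕ} (h1 : 2 * (2 ^ (k + 1) * a) ≤ n)
    (h2 : n ≤ 4 * (2 ^ (k + 1) * a)) (hτ : 1 ≤ τ) (hτ2 : τ ≤ 2 * (2 ^ (k + 1) * a))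
    (c : ℕ) [NeZero c] (hc : c = 2 * n)
    {F F' : (Ls c l → G) → ℝ} (hF : BM F) (hF' : BM F') {C C' : ℝ}
    (hC : ∀ x, |F x| ≤ C) (hC' : ∀ x, |F' x| ≤ C') (hC0 : 0 ≤ C) (hC0' : 0 ≤ C') :
    |XE μ w (fun U : Lk c c l → G => F (xs (sg c c l) U 0) * F' (xs (sg c c l) U (τ : ZMod c))) -
        XE μ w (fun U : Lk c c l → G => F (xs (sg c c l) U 0)) *
          XE μ w (fun U : Lk c c l → G => F' (xs (sg c c l) U 0))| ≤
      2 * C * C' * erS s a τ k := by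
  set s0 := 2 ^ (k + 1) * a with hs0'
  have hs01 : 1 ≤ s0 := Nat.one_le_iff_ne_zero.2 (by positivity)
  have hsc := scalesS (famE (μ := μ) hb hw) le_rfl ha hs0 hs
    (by intro i m hi hj; have := hcr i m hi hj; norm_num at this ⊢; exact this) k
  rw [← hs0'] at hsc
  set m : Fin 2 → ℕ := fun _ => n with hm
  have hm1 : ∀ j, 1 ≤ m j := fun j => by simp only [hm]; omega
  set E : ℕ → ℝ := fun r => ZH2 μ w (Function.update m 0 r) with hE
  have hTS : TS E := famE hb hw m hm1 0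
  have hψ : psi E s0 ≤ xS s k := by
    have := hsc 0 (Function.update m 0 s0) (by rw [Function.update_self]) fun j hj => by
      rw [Function.update_of_ne hj]
      simp only [hm]
      omega
    rw [psD_update] at this
    unfold xS
    norm_num at this ⊢
    exact this
  have hK := kp_KS (μ := PM μ (Ls c l)) (tk_bm (μ := μ) (b := c) hb) (tk_symm hb hw)
  have hEE : ∀ r, 1 ≤ r → EE (PM μ (Ls c l)) (kp (PM μ (Ls c l)) (tk μ c w)) r = E r := by
    intro r hr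
    haveI : NeZero (2 * r) := ⟨by omega⟩
    rw [← ZE_EE hb hw hr]
    exact (ZH2_eq (by simp) (by simp [hm, hc])).symm
  -- the splitting of the rest of the circle
  obtain ⟨q, hq⟩ : ∃ q, τ + (s0 + q) = n + n := ⟨n + n - τ - s0, by omega⟩
  have hqs : s0 ≤ q := by omega
  have hcov := hK.cov_norm hTS hEE hs01 hτ le_rfl hqs hq hψ hF hF' hC hC' hC0 hC0'
  have hLi : c = τ + (s0 + q) := by rw [hq, hc]; ring
  have e0 : ZE μ w c c = A1 (PM μ (Ls c l)) (kp (PM μ (Ls c l)) (tk μ c w)) (τ + (s0 + q))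
      (fun _ => 1) := by
    rw [ZE_eq hb, ← hLi]
  have e1 : ∀ {H : (Ls c l → G) → ℝ}, BM H →
      ∫ U : Lk c c l → G, H (xs (sg c c l) U 0) * wtE w U ∂(PM μ (Lk c c l)) =
        A1 (PM μ (Ls c l)) (kp (PM μ (Ls c l)) (tk μ c w)) (τ + (s0 + q)) H := by
    intro H hH
    simp only [← prod_kw]
    rw [← hLi]
    exact int_ring_one (μ := μ) (sg c c l) (kw_bm hb) hH
  have e2 : ∫ U : Lk c c l → G, (F (xs (sg c c l) U 0) * F' (xs (sg c c l) U (τ : ZMod c))) *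
      wtE w U ∂(PM μ (Lk c c l)) =
        A2 (PM μ (Ls c l)) (kp (PM μ (Ls c l)) (tk μ c w)) τ (s0 + q) F F' := by
    simp only [← prod_kw]
    have hr : s0 + q = c - τ := by omega
    rw [hr]
    exact int_ring_two (μ := μ) (sg c c l) (kw_bm hb) hF hF' hτ (by omega)
  have hZ : 0 < ZE μ w c c := ZE_pos hb
  unfold XE
  rw [e2, e1 hF, e1 hF']
  rw [← e0] at hcov
  set Z := ZE μ w c c
  have e3 : ∀ A B B' : ℝ, A / Z - B / Z * (B' / Z) = (A * Z - B * B') / Z ^ 2 := by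
    intro A B B'
    field_simp
  rw [e3, abs_div, abs_of_pos (show 0 < Z ^ 2 by positivity), div_le_iff₀ (by positivity)]
  exact hcov

/-- clustering in large boxes -/
theorem clu_lim (hb : w.Bd) (hw : w.Sy) {a : ℕ} (ha : 1 ≤ a) {s : ℝ} (hs0 : 0 < s)
    (hs : s ≤ 1 / 2) (hcr : CrS μ w a s) {τ : ℕ} (hτ : 1 ≤ τ) {δ : ℝ} (hδ : 0 < δ) :
    ∃ n0 : ℕ, ∀ n, n0 ≤ n → ∀ (c : ℕ) [NeZero c], c = 2 * n →
      ∀ {F F' : (Ls c l → G) → ℝ}, BM F → BM F' → ∀ {C C' : ℝ},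
      (∀ x, |F x| ≤ C) → (∀ x, |F' x| ≤ C') → 0 ≤ C → 0 ≤ C' →
      |XE μ w (fun U : Lk c c l → G => F (xs (sg c c l) U 0) *
          F' (xs (sg c c l) U (τ : ZMod c))) -
        XE μ w (fun U : Lk c c l → G => F (xs (sg c c l) U 0)) *
          XE μ w (fun U : Lk c c l → G => F' (xs (sg c c l) U 0))| ≤
        2 * C * C' * (s ^ (τ / (2 * a) : ℝ) + δ) := by
  obtain ⟨k0, hk0⟩ := erS_lim hs0 hs ha τ hδ
  refine ⟨2 ^ (max k0 τ + 2) * a, fun n hn c _ hc F F' hF hF' C C' hC hC' hC0 hC0' => ?_⟩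
  obtain ⟨k, hk, h1, h2⟩ := exists_scale ha hn
  have hτk : τ ≤ 2 * (2 ^ (k + 1) * a) := by
    have h3 : τ ≤ k := (le_max_right _ _).trans hk
    have h4 := Nat.lt_two_pow_self (n := k + 1)
    have h5 : 2 ^ (k + 1) ≤ 2 ^ (k + 1) * a := Nat.le_mul_of_pos_right _ (by omega)
    omega
  refine (clu_fin hb hw ha hs0 hs hcr h1 h2 hτ hτk c hc hF hF' hC hC' hC0 hC0').trans ?_
  apply mul_le_mul_of_nonneg_left (hk0 k ((le_max_left _ _).trans hk))
  positivity

end base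

end Pool.Agent.Run7.h897.TW
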