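import Mathlib

/-!
# The sum over the fluxes with sum zero, by Fourier analysis on `ℤ/N`
-/

namespace Pool.Agent.Run7.h897.TW

set_option linter.unusedSectionVars false
set_option linter.unusedVariables false

open Finset

/-- The constraint `∑ s = 0` costs exactly the factor `N`, up to an exponentially small error. -/
theorem fourier_sum {N : ℕ} [NeZero N] (ι : Type) [Fintype ι] [DecidableEq ι]
    (p : ι → ZMod N → ℝ) (ε : ℝ) (hε : 0 ≤ ε) (hε1 : ε ≤ 1)
    (h1 : ∀ u n, ε / N * ∑ m, p u m ≤ p u n) (h0 : ∀ u n, 0 ≤ p u n) :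
    |N * (∑ s : ι → ZMod N, if ∑ u, s u = 0 then ∏ u, p u (s u) else 0) - ∏ u, ∑ n, p u n| ≤
      N * (1 - ε) ^ Fintype.card ι * ∏ u, ∑ n, p u n := by
  set χ : AddChar (ZMod N) ℂ := ZMod.stdAddChar with hχ
  have hprim : χ.IsPrimitive := ZMod.isPrimitive_stdAddChar N
  have hN : (0 : ℝ) < N := by exact_mod_cast NeZero.pos N
  have hnorm : ∀ x : ZMod N, ‖χ x‖ = 1 := fun x => AddChar.norm_apply χ x
  have horth : ∀ x : ZMod N, ∑ q : ZMod N, χ (q * x) = if x = 0 then (N : ℂ) else 0 := by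
    intro x
    rw [AddChar.sum_mulShift x hprim, ZMod.card]
    split_ifs <;> simp
  have hprod : ∀ (q : ZMod N) (s : ι → ZMod N), χ (q * ∑ u, s u) = ∏ u, χ (q * s u) := by
    intro q s
    rw [Finset.mul_sum]
    induction (Finset.univ : Finset ι) using Finset.induction_on with
    | empty => simp
    | insert i t hi ih => rw [Finset.sum_insert hi, Finset.prod_insert hi, AddChar.map_add_eq_mul, ih]
  -- the identity
  have e1 : ((N * (∑ s : ι → ZMod N, if ∑ u, s u = 0 then ∏ u, p u (s u) else 0) : ℝ) : ℂ) =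
      ∑ q : ZMod N, ∏ u, ∑ n, χ (q * n) * (p u n : ℂ) := by
    have e2 : ∀ q : ZMod N, ∏ u, ∑ n, χ (q * n) * (p u n : ℂ) =
        ∑ s : ι → ZMod N, χ (q * ∑ u, s u) * ∏ u, (p u (s u) : ℂ) := by
      intro q
      rw [Finset.prod_univ_sum]
      simp only [Fintype.piFinset_univ]
      refine Finset.sum_congr rfl fun s _ => ?_
      rw [hprod, Finset.prod_mul_distrib]
    simp only [e2]
    rw [Finset.sum_comm]
    push_cast
    rw [Finset.mul_sum]
    refine Finset.sum_congr rfl fun s _ => ?_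
    rw [← Finset.sum_mul, horth]
    split_ifs with h
    · push_cast
      ring
    · simp
  have e3 : ((∏ u, ∑ n, p u n : ℝ) : ℂ) = ∏ u, ∑ n, χ ((0 : ZMod N) * n) * (p u n : ℂ) := by
    push_cast
    refine Finset.prod_congr rfl fun u _ => Finset.sum_congr rfl fun n _ => ?_
    rw [zero_mul, AddChar.map_zero_eq_one, one_mul]
  have e4 : ((N * (∑ s : ι → ZMod N, if ∑ u, s u = 0 then ∏ u, p u (s u) else 0) -
      ∏ u, ∑ n, p u n : ℝ) : ℂ) =
      ∑ q ∈ Finset.univ.erase (0 : ZMod N), ∏ u, ∑ n, χ (q * n) * (p u n : ℂ) := by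
    rw [Complex.ofReal_sub, e1, e3, ← Finset.add_sum_erase _ _ (Finset.mem_univ (0 : ZMod N))]
    ring
  have hP0 : ∀ u, 0 ≤ ∑ n, p u n := fun u => Finset.sum_nonneg fun n _ => h0 u n
  have hPP : 0 ≤ ∏ u, ∑ n, p u n := Finset.prod_nonneg fun u _ => hP0 u
  have hb : ∀ q : ZMod N, q ≠ 0 → ‖∏ u, ∑ n, χ (q * n) * (p u n : ℂ)‖ ≤
      (1 - ε) ^ Fintype.card ι * ∏ u, ∑ n, p u n := by
    intro q hq
    rw [norm_prod]
    have hu : ∀ u, ‖∑ n, χ (q * n) * (p u n : ℂ)‖ ≤ (1 - ε) * ∑ n, p u n := by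
      intro u
      set c : ℝ := ε / N * ∑ m, p u m with hc
      have h2 : ∑ n, χ (q * n) * (p u n : ℂ) = ∑ n, χ (q * n) * ((p u n - c : ℝ) : ℂ) := by
        have h3 : ∑ n : ZMod N, χ (q * n) = 0 := by
          have := AddChar.sum_mulShift (R := ZMod N) q hprim
          rw [if_neg hq] at this
          simpa [mul_comm] using this
        have h4 : ∑ n, χ (q * n) * ((p u n - c : ℝ) : ℂ) =
            ∑ n, χ (q * n) * (p u n : ℂ) - (∑ n : ZMod N, χ (q * n)) * c := by
          rw [Finset.sum_mul, ← Finset.sum_sub_distrib]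
          refine Finset.sum_congr rfl fun n _ => ?_
          push_cast
          ring
        rw [h4, h3]
        ring
      rw [h2]
      calc ‖∑ n, χ (q * n) * ((p u n - c : ℝ) : ℂ)‖
          ≤ ∑ n, ‖χ (q * n) * ((p u n - c : ℝ) : ℂ)‖ := norm_sum_le _ _
        _ = ∑ n, (p u n - c) := by
            refine Finset.sum_congr rfl fun n _ => ?_
            rw [norm_mul, hnorm, one_mul, Complex.norm_real, Real.norm_eq_abs,
              abs_of_nonneg (by linarith [h1 u n])]
        _ = (1 - ε) * ∑ n, p u n := by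
            rw [Finset.sum_sub_distrib, Finset.sum_const, Finset.card_univ, ZMod.card,
              nsmul_eq_mul, hc]
            field_simp
    calc ∏ u, ‖∑ n, χ (q * n) * (p u n : ℂ)‖
        ≤ ∏ u, ((1 - ε) * ∑ n, p u n) :=
          Finset.prod_le_prod (fun u _ => norm_nonneg _) fun u _ => hu u
      _ = _ := by rw [Finset.prod_mul_distrib, Finset.prod_const, Finset.card_univ]
  have hmain : ‖((N * (∑ s : ι → ZMod N, if ∑ u, s u = 0 then ∏ u, p u (s u) else 0) -
      ∏ u, ∑ n, p u n : ℝ) : ℂ)‖ ≤ N * ((1 - ε) ^ Fintype.card ι * ∏ u, ∑ n, p u n) := by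
    rw [e4]
    refine (norm_sum_le _ _).trans ?_
    refine (Finset.sum_le_sum fun q hq => hb q (Finset.ne_of_mem_erase hq)).trans ?_
    rw [Finset.sum_const, nsmul_eq_mul]
    refine mul_le_mul_of_nonneg_right ?_ (mul_nonneg (pow_nonneg (by linarith) _) hPP)
    have : (Finset.univ.erase (0 : ZMod N)).card ≤ N := by
      refine (Finset.card_le_univ _).trans ?_
      rw [ZMod.card]
    exact_mod_cast this
  rw [Complex.norm_real, Real.norm_eq_abs] at hmain
  rw [mul_assoc]
  exact hmain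

end Pool.Agent.Run7.h897.TW
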