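import Pool.Agent.Run7.h897.TW.Cen

/-!
# Local observables
-/

open MeasureTheory Filter Topology

namespace Pool.Agent.Run7.h897.TW

set_option linter.unusedSectionVars false
set_option linter.unusedVariables false
set_option linter.style.haveILetI false

open Pool.Agent.Run7.h897.FS (BM BK kk kp PM A1 A2 xs gs)

noncomputable section

variable {N a b l : ℕ} {G : Type*} [Group G] {w : Ens N l G} {z : ZMod N → G}

/-- the centre acting on a slice -/
def trs (z : ZMod N → G) (κ : ZMod b → ZMod N) (x : Ls b l → G) : Ls b l → G :=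
  fun e => z (if e.2 = 0 then κ e.1.1 else 0) * x e

lemma trs_trs (h : Cn w z) (κ κ' : ZMod b → ZMod N) (x : Ls b l → G) :
    trs z κ' (trs z κ x) = trs z (κ' + κ) x := by
  funext e
  unfold trs
  rw [← mul_assoc, ← h.add]
  congr 2
  split_ifs
  · rfl
  · rw [add_zero]

lemma xs_tr (c : ZMod a × ZMod b → Fin 2 → ZMod N) (U : Lk a b l → G) (t : ZMod a) :
    xs (sg a b l) (tr z c U) t = trs z (fun u => c (t, u) 1) (xs (sg a b l) U t) := by
  funext e
  obtain ⟨v, j⟩ := e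
  unfold xs trs tr
  rw [sg_inl]
  congr 2
  fin_cases j <;> rfl

/-- potentials -/
lemma pot [NeZero b] (κ : ZMod b → ZMod N) (u0 : ZMod b) :
    ∃ h : ZMod b → ZMod N, ∀ u, u ≠ u0 → h u - h (u + 1) = κ u := by
  refine ⟨fun u => -∑ j ∈ Finset.range (u - u0 - 1).val, κ (u0 + 1 + (j : ZMod b)), fun u hu => ?_⟩
  have h1 : (u + 1 - u0 - 1).val = (u - u0 - 1).val + 1 := by
    have e1 : u + 1 - u0 - 1 = (u - u0 - 1) + 1 := by ring
    rw [e1]
    have hb := NeZero.pos b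
    have h2 := ZMod.val_lt (u - u0 - 1)
    have h3 : (u - u0 - 1).val + 1 ≠ b := by
      intro h
      have h4 : (((u - u0 - 1).val + 1 : ℕ) : ZMod b) = 0 := by rw [h]; exact ZMod.natCast_self b
      push_cast at h4
      rw [ZMod.natCast_zmod_val] at h4
      apply hu
      have h5 : u - u0 = 0 := by
        calc u - u0 = u - u0 - 1 + 1 := by ring
          _ = 0 := h4
      exact sub_eq_zero.1 h5
    have h4 : (u - u0 - 1) + 1 = (((u - u0 - 1).val + 1 : ℕ) : ZMod b) := by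
      push_cast
      rw [ZMod.natCast_zmod_val]
    rw [h4, ZMod.val_natCast_of_lt (by omega)]
  simp only [h1]
  rw [Finset.sum_range_succ, ZMod.natCast_zmod_val]
  have e2 : u0 + 1 + (u - u0 - 1) = u := by ring
  rw [e2]
  ring

lemma dc_pot (h : ZMod a × ZMod b → ZMod N) :
    dc (fun u => ![h u - h (u + (1, 0)), h u - h (u + (0, 1))]) = fun _ => 0 := by
  funext u
  unfold dc
  simp only [Matrix.cons_val_zero, Matrix.cons_val_one]
  rw [add_right_comm u (1, 0) (0, 1)]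
  ring

/-- independence of the links over `u0` -/
def Lc (u0 : ZMod b) (F : (Ls b l → G) → ℝ) : Prop :=
  ∀ x x' : Ls b l → G, (∀ e, e.1.1 ≠ u0 → x e = x' e) → F x = F x'

lemma Lc_trs {u0 : ZMod b} {F : (Ls b l → G) → ℝ} (hF : Lc u0 F) {κ κ' : ZMod b → ZMod N}
    (h : ∀ u, u ≠ u0 → κ u = κ' u) (x : Ls b l → G) : F (trs z κ x) = F (trs z κ' x) := by
  refine hF _ _ fun e he => ?_
  unfold trs
  rw [h _ he]

variable [NeZero N] [NeZero a] [NeZero b] [NeZero l]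

/-- the centre average -/
def avs (z : ZMod N → G) (F : (Ls b l → G) → ℝ) (x : Ls b l → G) : ℝ :=
  (Fintype.card (ZMod b → ZMod N) : ℝ)⁻¹ * ∑ κ : ZMod b → ZMod N, F (trs z κ x)

lemma avs_trs (h : Cn w z) (F : (Ls b l → G) → ℝ) (κ : ZMod b → ZMod N) (x : Ls b l → G) :
    avs z F (trs z κ x) = avs z F x := by
  unfold avs
  simp only [trs_trs h]
  congr 1
  exact Equiv.sum_comp (Equiv.addRight κ) fun κ' => F (trs z κ' x)

lemma avs_le {F : (Ls b l → G) → ℝ} {C : ℝ} (hC : ∀ x, |F x| ≤ C) (x : Ls b l → G) :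
    |avs z F x| ≤ C := by
  unfold avs
  have hc : (0 : ℝ) < Fintype.card (ZMod b → ZMod N) := by exact_mod_cast Fintype.card_pos
  rw [abs_mul, abs_of_pos (inv_pos.2 hc), inv_mul_le_iff₀ hc]
  calc |∑ κ : ZMod b → ZMod N, F (trs z κ x)| ≤ ∑ κ : ZMod b → ZMod N, |F (trs z κ x)| :=
        Finset.abs_sum_le_sum_abs _ _
    _ ≤ ∑ _κ : ZMod b → ZMod N, C := Finset.sum_le_sum fun κ _ => hC _
    _ = _ := by rw [Finset.sum_const, Finset.card_univ, nsmul_eq_mul]

variable [MeasurableSpace G] [MeasurableMul₂ G] [MeasurableInv G] {μ : Measure G}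
  [IsProbabilityMeasure μ] [μ.IsMulLeftInvariant]

lemma trs_meas (κ : ZMod b → ZMod N) : Measurable (trs (l := l) z κ) :=
  measurable_pi_iff.2 fun e => (measurable_pi_apply e).const_mul _

lemma avs_bm {F : (Ls b l → G) → ℝ} (hF : BM F) : BM (avs z F) := by
  unfold avs
  exact (BM.const _).mul (BM.sum _ fun κ _ => hF.comp (trs_meas κ))

/-- gauge transformations with values in the centre -/
lemma int_gauge (hw : w.Bd) (h : Cn w z) {F F' : (Ls b l → G) → ℝ} (hF : BM F) (hF' : BM F')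
    {u0 : ZMod b} (hl : Lc u0 F) (hl' : Lc u0 F') {τ : ZMod a} (hτ : τ ≠ 0)
    (κ κ' : ZMod b → ZMod N) :
    ∫ U, F (xs (sg a b l) U 0) * F' (xs (sg a b l) U τ) * wS w (fun _ => 0) U
        ∂(PM μ (Lk a b l)) =
      ∫ U, F (trs z κ (xs (sg a b l) U 0)) * F' (trs z κ' (xs (sg a b l) U τ)) *
        wS w (fun _ => 0) U ∂(PM μ (Lk a b l)) := by
  obtain ⟨p, hp⟩ := pot κ u0
  obtain ⟨p', hp'⟩ := pot κ' u0
  set q : ZMod a × ZMod b → ZMod N := fun u => if u.1 = 0 then p u.2 else if u.1 = τ then p' u.2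
    else 0 with hq
  have hH : BM fun U : Lk a b l → G => F (xs (sg a b l) U 0) * F' (xs (sg a b l) U τ) :=
    (hF.comp (FS.xs_meas _ _)).mul (hF'.comp (FS.xs_meas _ _))
  have h1 := int_tr (μ := μ) hw h (fun u => ![q u - q (u + (1, 0)), q u - q (u + (0, 1))]) hH
  rw [dc_pot] at h1
  rw [h1]
  congr 1
  funext U
  simp only [xs_tr]
  congr 2
  · refine Lc_trs hl (fun u hu => ?_) _
    simp only [Matrix.cons_val_one, hq, Prod.mk_add_mk, zero_add, if_true]
    exact hp u hu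
  · refine Lc_trs hl' (fun u hu => ?_) _
    simp only [Matrix.cons_val_one, hq, Prod.mk_add_mk, add_zero, if_true, if_neg hτ]
    exact hp' u hu

lemma int_avs (hw : w.Bd) (h : Cn w z) {F F' : (Ls b l → G) → ℝ} (hF : BM F) (hF' : BM F')
    {u0 : ZMod b} (hl : Lc u0 F) (hl' : Lc u0 F') {τ : ZMod a} (hτ : τ ≠ 0) :
    ∫ U, F (xs (sg a b l) U 0) * F' (xs (sg a b l) U τ) * wS w (fun _ => 0) U
        ∂(PM μ (Lk a b l)) =
      ∫ U, avs z F (xs (sg a b l) U 0) * avs z F' (xs (sg a b l) U τ) *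
        wS w (fun _ => 0) U ∂(PM μ (Lk a b l)) := by
  set Y := ∫ U, F (xs (sg a b l) U 0) * F' (xs (sg a b l) U τ) * wS w (fun _ => 0) U
        ∂(PM μ (Lk a b l)) with hY
  have hcne : (Fintype.card (ZMod b → ZMod N) : ℝ) ≠ 0 := by
    exact_mod_cast Fintype.card_ne_zero
  set K : ℝ := (Fintype.card (ZMod b → ZMod N) : ℝ) with hK
  have e1 : ∀ U : Lk a b l → G, avs z F (xs (sg a b l) U 0) * avs z F' (xs (sg a b l) U τ) *
        wS w (fun _ => 0) U = K⁻¹ * K⁻¹ * ∑ κ : ZMod b → ZMod N, ∑ κ' : ZMod b → ZMod N,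
          F (trs z κ (xs (sg a b l) U 0)) * F' (trs z κ' (xs (sg a b l) U τ)) *
            wS w (fun _ => 0) U := by
    intro U
    unfold avs
    rw [← hK]
    simp only [← Finset.mul_sum, ← Finset.sum_mul]
    ring
  simp only [e1]
  have hbm : ∀ κ κ' : ZMod b → ZMod N, BM fun U : Lk a b l → G =>
      F (trs z κ (xs (sg a b l) U 0)) * F' (trs z κ' (xs (sg a b l) U τ)) *
        wS w (fun _ => 0) U := fun κ κ' =>
    ((hF.comp ((trs_meas κ).comp (FS.xs_meas _ _))).mul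
      (hF'.comp ((trs_meas κ').comp (FS.xs_meas _ _)))).mul (wS_bm hw _)
  rw [integral_const_mul, integral_finsetSum _ fun κ _ => (BM.sum _ fun κ' _ => hbm κ κ').int]
  have e2 : ∀ κ : ZMod b → ZMod N, ∫ U, ∑ κ' : ZMod b → ZMod N,
      F (trs z κ (xs (sg a b l) U 0)) * F' (trs z κ' (xs (sg a b l) U τ)) *
        wS w (fun _ => 0) U ∂(PM μ (Lk a b l)) = K * Y := by
    intro κ
    rw [integral_finsetSum _ fun κ' _ => (hbm κ κ').int]
    rw [Finset.sum_congr rfl fun κ' _ => (int_gauge hw h hF hF' hl hl' hτ κ κ').symm, ← hY,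
      Finset.sum_const, Finset.card_univ, nsmul_eq_mul]
  rw [Finset.sum_congr rfl fun κ _ => e2 κ, Finset.sum_const, Finset.card_univ, nsmul_eq_mul,
    ← hK]
  field_simp

lemma XT_avs (hw : w.Bd) (h : Cn w z) {F F' : (Ls b l → G) → ℝ} (hF : BM F) (hF' : BM F')
    {u0 : ZMod b} (hl : Lc u0 F) (hl' : Lc u0 F') {τ : ZMod a} (hτ : τ ≠ 0) :
    XT μ w (fun U : Lk a b l → G => F (xs (sg a b l) U 0) * F' (xs (sg a b l) U τ)) =
      XT μ w (fun U : Lk a b l → G => avs z F (xs (sg a b l) U 0) *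
        avs z F' (xs (sg a b l) U τ)) := by
  unfold XT
  rw [int_avs (z := z) hw h hF hF' hl hl' hτ]

lemma XT_avs1 (hw : w.Bd) (h : Cn w z) {F : (Ls b l → G) → ℝ} (hF : BM F)
    {u0 : ZMod b} (hl : Lc u0 F) {τ : ZMod a} (hτ : τ ≠ 0) :
    XT μ w (fun U : Lk a b l → G => F (xs (sg a b l) U 0)) =
      XT μ w (fun U : Lk a b l → G => avs z F (xs (sg a b l) U 0)) := by
  have h1 := XT_avs (μ := μ) hw h hF (BM.const 1) hl (fun _ _ _ => rfl) hτ
  have h2 : ∀ x : Ls b l → G, avs z (fun _ => (1 : ℝ)) x = 1 := by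
    intro x
    unfold avs
    rw [Finset.sum_const, Finset.card_univ, nsmul_eq_mul, mul_one]
    exact inv_mul_cancel₀ (by exact_mod_cast Fintype.card_ne_zero)
  simpa only [mul_one, h2] using h1

lemma XT_le (hw : w.Bd) {H : (Lk a b l → G) → ℝ} {C : ℝ} (hH : BM H) (hC : ∀ U, |H U| ≤ C) :
    |XT μ w H| ≤ C := by
  have hC0 : 0 ≤ C := (abs_nonneg _).trans (hC fun _ => 1)
  have hZ : 0 < ∫ U : Lk a b l → G, wS w (fun _ => 0) U ∂(PM μ (Lk a b l)) :=
    (wS_bm hw _).int_pos (wS_pos _)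
  unfold XT
  rw [abs_div, abs_of_pos hZ, div_le_iff₀ hZ, ← integral_const_mul]
  refine (abs_integral_le_integral_abs).trans ?_
  refine integral_mono (hH.mul (wS_bm hw _)).int.abs ((BM.const C).mul (wS_bm hw _)).int
    fun U => ?_
  simp only
  rw [abs_mul, abs_of_pos (wS_pos _ U)]
  exact mul_le_mul_of_nonneg_right (hC U) (wS_pos _ U).le

lemma XE_le (hw : w.Bd) {H : (Lk a b l → G) → ℝ} {C : ℝ} (hH : BM H) (hC : ∀ U, |H U| ≤ C) :
    |XE μ w H| ≤ C := by
  have hZ : 0 < ∫ U : Lk a b l → G, wtE w U ∂(PM μ (Lk a b l)) :=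
    (wtE_bm hw).int_pos wtE_pos
  unfold XE ZE
  rw [abs_div, abs_of_pos hZ, div_le_iff₀ hZ, ← integral_const_mul]
  refine (abs_integral_le_integral_abs).trans ?_
  refine integral_mono (hH.mul (wtE_bm hw)).int.abs ((BM.const C).mul (wtE_bm hw)).int
    fun U => ?_
  simp only
  rw [abs_mul, abs_of_pos (wtE_pos U)]
  exact mul_le_mul_of_nonneg_right (hC U) (wtE_pos U).le

/-- clustering in large boxes for the theory without fluxes -/
theorem true_lim [μ.IsInvInvariant] (hb : w.Bd) (hw : w.Sy) (h : Cn w z)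
    (hF : ∀ (ι : Type) [Fintype ι] [DecidableEq ι] (p : ι → ZMod N → ℝ) (ε : ℝ), 0 ≤ ε → ε ≤ 1 →
      (∀ u n, ε / N * ∑ m, p u m ≤ p u n) → (∀ u n, 0 ≤ p u n) →
      |N * (∑ s : ι → ZMod N, if ∑ u, s u = 0 then ∏ u, p u (s u) else 0) - ∏ u, ∑ n, p u n| ≤
        N * (1 - ε) ^ Fintype.card ι * ∏ u, ∑ n, p u n)
    (hD : ∀ (a b : ℕ) [NeZero a] [NeZero b] (s : ZMod a × ZMod b → ZMod N), ∑ u, s u = 0 →
      ∃ c : ZMod a × ZMod b → Fin 2 → ZMod N, ∀ u, dc c u = s u)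
    {a : ℕ} (ha : 1 ≤ a) {s : ℝ} (hs0 : 0 < s) (hs : s ≤ 1 / 2) (hcr : CrS μ w a s) {τ : ℕ}
    (hτ : 1 ≤ τ) {δ : ℝ} (hδ : 0 < δ) :
    ∃ n0 : ℕ, ∀ n, n0 ≤ n → ∀ (c : ℕ) [NeZero c], c = 2 * n → ∀ u0 : ZMod c,
      ∀ {F F' : (Ls c l → G) → ℝ}, BM F → BM F' → Lc u0 F → Lc u0 F' → ∀ {C C' : ℝ},
      (∀ x, |F x| ≤ C) → (∀ x, |F' x| ≤ C') → 0 ≤ C → 0 ≤ C' →
      |XT μ w (fun U : Lk c c l → G => F (xs (sg c c l) U 0) *
          F' (xs (sg c c l) U (τ : ZMod c))) -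
        XT μ w (fun U : Lk c c l → G => F (xs (sg c c l) U 0)) *
          XT μ w (fun U : Lk c c l → G => F' (xs (sg c c l) U 0))| ≤
        2 * C * C' * (s ^ (τ / (2 * a) : ℝ) + δ) := by
  obtain ⟨ρ, hρ0, hρ1, hcmp⟩ := compare (μ := μ) (l := l) hb h hF hD
  obtain ⟨n1, hn1⟩ := clu_lim (μ := μ) hb hw ha hs0 hs hcr hτ (show 0 < δ / 2 by positivity)
  have hN : (0 : ℝ) < N := by exact_mod_cast NeZero.pos N
  have hlim : Tendsto (fun k : ℕ => N * ρ ^ k) atTop (𝓝 0) := by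
    have := (tendsto_pow_atTop_nhds_zero_of_lt_one hρ0 hρ1).const_mul (N : ℝ)
    rwa [mul_zero] at this
  obtain ⟨n2, hn2⟩ := eventually_atTop.1
    (hlim.eventually_le_const (show 0 < min (1 / 2) (δ / 12) by positivity))
  refine ⟨max n1 (max n2 (τ + 1)), fun n hn c _ hc u0 F F' hF hF' hl hl' C C' hC hC' hC0 hC0' => ?_⟩
  have g1 : n1 ≤ n := (le_max_left _ _).trans hn
  have g2 : n2 ≤ n := ((le_max_left _ _).trans (le_max_right _ _)).trans hn
  have g3 : τ + 1 ≤ n := ((le_max_right _ _).trans (le_max_right _ _)).trans hn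
  have hτc : ((τ : ℕ) : ZMod c) ≠ 0 := by
    intro h0
    rw [ZMod.natCast_eq_zero_iff] at h0
    have := Nat.le_of_dvd (by omega) h0
    omega
  have hcc : n2 ≤ c * c := by
    have : c ≤ c * c := Nat.le_mul_of_pos_right _ (by omega)
    omega
  have hη := hn2 _ hcc
  set η := N * ρ ^ (c * c) with hηd
  have hη0 : 0 ≤ η := by positivity
  have hη1 : η ≤ 1 / 2 := hη.trans (min_le_left _ _)
  have hη2 : η ≤ δ / 12 := hη.trans (min_le_right _ _)
  have hA := avs_bm (z := z) hF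
  have hA' := avs_bm (z := z) hF'
  have bA : ∀ x, |avs z F x| ≤ C := avs_le hC
  have bA' : ∀ x, |avs z F' x| ≤ C' := avs_le hC'
  -- the three comparisons
  have x1 : BM fun U : Lk c c l → G => avs z F (xs (sg c c l) U 0) :=
    hA.comp (FS.xs_meas _ _)
  have x2 : BM fun U : Lk c c l → G => avs z F' (xs (sg c c l) U 0) :=
    hA'.comp (FS.xs_meas _ _)
  have x3 : BM fun U : Lk c c l → G => avs z F' (xs (sg c c l) U (τ : ZMod c)) :=
    hA'.comp (FS.xs_meas _ _)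
  have c1 := hcmp c c hη1 _ (C * C') (x1.mul x3) (fun U => by
    rw [abs_mul]; exact mul_le_mul (bA _) (bA' _) (abs_nonneg _) hC0) (fun c' U => by
    simp only [xs_tr, avs_trs h])
  have c2 := hcmp c c hη1 _ C x1 (fun U => bA _) (fun c' U => by simp only [xs_tr, avs_trs h])
  have c3 := hcmp c c hη1 _ C' x2 (fun U => bA' _) (fun c' U => by simp only [xs_tr, avs_trs h])
  rw [XT_avs (z := z) hb h hF hF' hl hl' hτc, XT_avs1 (z := z) hb h hF hl hτc,
    XT_avs1 (z := z) hb h hF' hl' hτc]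
  have c4 := hn1 n g1 c hc hA hA' bA bA' hC0 hC0'
  have b1 := XE_le (μ := μ) hb x1 fun U => bA _
  have b2 := XT_le (μ := μ) hb x2 fun U => bA' _
  set T12 := XT μ w (fun U : Lk c c l → G => avs z F (xs (sg c c l) U 0) *
        avs z F' (xs (sg c c l) U (τ : ZMod c)))
  set T1 := XT μ w (fun U : Lk c c l → G => avs z F (xs (sg c c l) U 0))
  set T2 := XT μ w (fun U : Lk c c l → G => avs z F' (xs (sg c c l) U 0))
  set E12 := XE μ w (fun U : Lk c c l → G => avs z F (xs (sg c c l) U 0) *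
        avs z F' (xs (sg c c l) U (τ : ZMod c)))
  set E1 := XE μ w (fun U : Lk c c l → G => avs z F (xs (sg c c l) U 0))
  set E2 := XE μ w (fun U : Lk c c l → G => avs z F' (xs (sg c c l) U 0))
  have e : T12 - T1 * T2 = (T12 - E12) + (E12 - E1 * E2) - (T1 - E1) * T2 - E1 * (T2 - E2) := by
    ring
  have k1 : |(T1 - E1) * T2| ≤ 4 * C * η * C' := by
    rw [abs_mul]
    exact mul_le_mul c2 b2 (abs_nonneg _) (by positivity)
  have k2 : |E1 * (T2 - E2)| ≤ C * (4 * C' * η) := by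
    rw [abs_mul]
    exact mul_le_mul b1 c3 (abs_nonneg _) hC0
  calc |T12 - T1 * T2| ≤ |T12 - E12| + |E12 - E1 * E2| + |(T1 - E1) * T2| + |E1 * (T2 - E2)| := by
        rw [e]
        refine (abs_sub _ _).trans ?_
        refine add_le_add ((abs_sub _ _).trans ?_) le_rfl
        exact add_le_add (abs_add_le _ _) le_rfl
    _ ≤ 4 * (C * C') * η + 2 * C * C' * (s ^ (τ / (2 * a) : ℝ) + δ / 2) + 4 * C * η * C' +
          C * (4 * C' * η) := by
        linarith
    _ = 2 * C * C' * (s ^ (τ / (2 * a) : ℝ) + δ / 2 + 6 * η) := by ring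
    _ ≤ _ := by
        apply mul_le_mul_of_nonneg_left _ (by positivity)
        linarith

end

end Pool.Agent.Run7.h897.TW
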