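import Pool.Agent.Run7.h897.TW.Sc

/-!
# Averaging over the centre
-/

open MeasureTheory Filter Topology

namespace Pool.Agent.Run7.h897.TW

set_option linter.unusedSectionVars false
set_option linter.unusedVariables false
set_option linter.style.haveILetI false

open Pool.Agent.Run7.h897.FS (BM BK kk kp PM A1 A2 xs gs)

noncomputable section

variable {N a b l : ℕ} {G : Type*} [Group G]

/-- central elements and the energies -/
structure Cn (w : Ens N l G) (z : ZMod N → G) : Prop where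
  z0 : z 0 = 1
  add : ∀ m n, z (m + n) = z m * z n
  comm : ∀ m g, z m * g = g * z m
  e0z : ∀ n m g, w.e0 n (z m * g) = w.e0 (n + m) g

section alg

variable {w : Ens N l G} {z : ZMod N → G}

lemma Cn.neg (h : Cn w z) (m : ZMod N) : z (-m) = (z m)⁻¹ := by
  have h1 := h.add (-m) m
  rw [neg_add_cancel, h.z0] at h1
  exact eq_inv_of_mul_eq_one_left h1.symm

lemma Cn.four (h : Cn w z) (m1 m2 m3 m4 : ZMod N) (A B C D : G) :
    z m1 * A * (z m2 * B) * (z m3 * C)⁻¹ * (z m4 * D)⁻¹ =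
      z (m1 + m2 - m3 - m4) * (A * B * C⁻¹ * D⁻¹) := by
  rw [sub_eq_add_neg, sub_eq_add_neg, h.add, h.add, h.add, h.neg, h.neg, mul_inv_rev, mul_inv_rev]
  have c1 := h.comm m1
  have c2 := h.comm m2
  have c3 : ∀ g, (z m3)⁻¹ * g = g * (z m3)⁻¹ := fun g => by rw [← h.neg]; exact h.comm _ g
  have c4 : ∀ g, (z m4)⁻¹ * g = g * (z m4)⁻¹ := fun g => by rw [← h.neg]; exact h.comm _ g
  calc z m1 * A * (z m2 * B) * (C⁻¹ * (z m3)⁻¹) * (D⁻¹ * (z m4)⁻¹)
      = z m1 * (A * z m2) * B * (C⁻¹ * (z m3)⁻¹) * D⁻¹ * (z m4)⁻¹ := by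
        simp only [mul_assoc]
    _ = (z m4)⁻¹ * (z m1 * (z m2 * A) * B * ((z m3)⁻¹ * C⁻¹) * D⁻¹) := by
        rw [← c2 A, c4 (z m1 * (z m2 * A) * B * ((z m3)⁻¹ * C⁻¹) * D⁻¹), c3 C⁻¹]
    _ = (z m4)⁻¹ * ((z m1 * z m2 * (A * B)) * (z m3)⁻¹ * C⁻¹ * D⁻¹) := by
        simp only [mul_assoc]
    _ = (z m4)⁻¹ * ((z m3)⁻¹ * (z m1 * z m2 * (A * B)) * C⁻¹ * D⁻¹) := by rw [c3]
    _ = z m1 * z m2 * (z m3)⁻¹ * (z m4)⁻¹ * (A * B * C⁻¹ * D⁻¹) := by
        rw [← c4 (z m1 * z m2 * (z m3)⁻¹), ← c3 (z m1 * z m2)]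
        simp only [mul_assoc]

/-- a centre valued field on the base links, extended to all links -/
def cx (c : ZMod a × ZMod b → Fin 2 → ZMod N) (u : ZMod a × ZMod b) : Fin 4 → ZMod N :=
  ![c u 0, c u 1, 0, 0]

/-- the action on the configurations -/
def tr (z : ZMod N → G) (c : ZMod a × ZMod b → Fin 2 → ZMod N) (U : Lk a b l → G) :
    Lk a b l → G := fun e => z (cx c e.1.1 e.2) * U e

/-- the flux of the centre field -/
def dc (c : ZMod a × ZMod b → Fin 2 → ZMod N) (u : ZMod a × ZMod b) : ZMod N :=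
  c u 0 + c (u + (1, 0)) 1 - c (u + (0, 1)) 0 - c u 1

lemma plq_tr (h : Cn w z) (c : ZMod a × ZMod b → Fin 2 → ZMod N) (U : Lk a b l → G)
    (x : Si a b l) (i j : Fin 4) : plq (tr z c U) x i j =
      z (cx c x.1 i + cx c (x + ee i).1 j - cx c (x + ee j).1 i - cx c x.1 j) * plq U x i j := by
  unfold plq tr
  exact h.four _ _ _ _ _ _ _ _

lemma plq_tr0 (h : Cn w z) (c : ZMod a × ZMod b → Fin 2 → ZMod N) (U : Lk a b l → G)
    (x : Si a b l) (i j : Fin 4) (hi : i = 0 ∨ i = 1 ∨ i = 2) (hj : j = 2 ∨ j = 3) :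
    plq (tr z c U) x i j = plq U x i j := by
  rw [plq_tr h]
  have h1 : (x + ee j).1 = x.1 := by
    rcases hj with rfl | rfl <;> simp [ee]
  have h2 : ∀ u : ZMod a × ZMod b, cx c u j = 0 := by
    intro u
    rcases hj with rfl | rfl <;> rfl
  rw [h1, h2, h2]
  simp [h.z0]

lemma plq_tr01 (h : Cn w z) (c : ZMod a × ZMod b → Fin 2 → ZMod N) (U : Lk a b l → G)
    (x : Si a b l) : plq (tr z c U) x 0 1 = z (dc c x.1) * plq U x 0 1 := by
  rw [plq_tr h]
  rfl

variable [NeZero N] [NeZero a] [NeZero b] [NeZero l]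

lemma nbE_tr (h : Cn w z) (c : ZMod a × ZMod b → Fin 2 → ZMod N) (U : Lk a b l → G) :
    nbE w (tr z c U) = nbE w U := by
  unfold nbE
  refine Finset.sum_congr rfl fun x _ => ?_
  rw [plq_tr0 h c U x 0 2 (by simp) (by simp), plq_tr0 h c U x 0 3 (by simp) (by simp),
    plq_tr0 h c U x 1 2 (by simp) (by simp), plq_tr0 h c U x 1 3 (by simp) (by simp),
    plq_tr0 h c U x 2 3 (by simp) (by simp)]

lemma bsE_tr (h : Cn w z) (c : ZMod a × ZMod b → Fin 2 → ZMod N) (U : Lk a b l → G)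
    (n : ZMod N) (u : ZMod a × ZMod b) : bsE w n (tr z c U) u = bsE w (n + dc c u) U u := by
  unfold bsE
  refine Finset.sum_congr rfl fun y _ => ?_
  rw [plq_tr01 h, h.e0z]

/-- the weight with given fluxes through the base plaquettes -/
def wS (w : Ens N l G) (s : ZMod a × ZMod b → ZMod N) (U : Lk a b l → G) : ℝ :=
  Real.exp (-nbE w U) * ∏ u : ZMod a × ZMod b, Real.exp (-bsE w (s u) U u)

lemma wS_tr (h : Cn w z) (c : ZMod a × ZMod b → Fin 2 → ZMod N) (s : ZMod a × ZMod b → ZMod N)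
    (U : Lk a b l → G) : wS w s (tr z c U) = wS w (fun u => s u + dc c u) U := by
  unfold wS
  rw [nbE_tr h]
  simp only [bsE_tr h]

lemma wS_pos (s : ZMod a × ZMod b → ZMod N) (U : Lk a b l → G) : 0 < wS w s U :=
  mul_pos (Real.exp_pos _) (Finset.prod_pos fun u _ => Real.exp_pos _)

end alg

section meas

variable [NeZero N] [NeZero a] [NeZero b] [NeZero l] {w : Ens N l G} {z : ZMod N → G}
  [MeasurableSpace G] [MeasurableMul₂ G] [MeasurableInv G] {μ : Measure G}
  [IsProbabilityMeasure μ]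

lemma wS_bm (hw : w.Bd) (s : ZMod a × ZMod b → ZMod N) : BM fun U : Lk a b l → G => wS w s U := by
  unfold wS
  exact (nbE_bm hw).neg.exp.mul (BM.prod _ fun u _ => (bsE_bm hw (s u) u).neg.exp)

/-- the expectation in the theory without fluxes -/
def XT (μ : Measure G) (w : Ens N l G) {a b : ℕ} [NeZero a] [NeZero b]
    (H : (Lk a b l → G) → ℝ) : ℝ :=
  (∫ U : Lk a b l → G, H U * wS w (fun _ => 0) U ∂(PM μ (Lk a b l))) /
    ∫ U : Lk a b l → G, wS w (fun _ => 0) U ∂(PM μ (Lk a b l))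

lemma tr_mp [μ.IsMulLeftInvariant] (c : ZMod a × ZMod b → Fin 2 → ZMod N) :
    MeasurePreserving (tr (l := l) z c) (PM μ (Lk a b l)) (PM μ (Lk a b l)) :=
  measurePreserving_pi (fun _ : Lk a b l => μ) (fun _ : Lk a b l => μ)
    (f := fun e g => z (cx c e.1.1 e.2) * g) fun e => measurePreserving_mul_left μ _

/-- change of the fluxes -/
lemma int_tr [μ.IsMulLeftInvariant] (hw : w.Bd) (h : Cn w z)
    (c : ZMod a × ZMod b → Fin 2 → ZMod N) {H : (Lk a b l → G) → ℝ} (hH : BM H) :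
    ∫ U, H U * wS w (fun _ => 0) U ∂(PM μ (Lk a b l)) =
      ∫ U, H (tr z c U) * wS w (dc c) U ∂(PM μ (Lk a b l)) := by
  have h1 := tr_mp (μ := μ) (z := z) (l := l) c
  conv_lhs => rw [← h1.map_eq]
  rw [integral_map h1.measurable.aemeasurable (hH.mul (wS_bm hw _)).1.aestronglyMeasurable]
  congr 1
  funext U
  rw [wS_tr h]
  simp only [zero_add]

variable (N a b) in
/-- the configurations of fluxes with sum zero -/
def S0 : Finset (ZMod a × ZMod b → ZMod N) := Finset.univ.filter fun s => ∑ u, s u = 0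

/-- bound on the energies of the base -/
lemma bs_bound (hw : w.Bd) : ∃ M : ℝ, 0 ≤ M ∧ ∀ (a b : ℕ) [NeZero a] [NeZero b]
    (U : Lk a b l → G) (n : ZMod N) (u : ZMod a × ZMod b), |bsE w n U u| ≤ M := by
  choose C hC using fun n => (hw.b0 n).2
  refine ⟨∑ y : ZMod l × ZMod l, ∑ n, |C n|, by positivity, fun a b _ _ U n u => ?_⟩
  unfold bsE
  refine (Finset.abs_sum_le_sum_abs _ _).trans (Finset.sum_le_sum fun y _ => ?_)
  refine ((hC n _).trans (le_abs_self _)).trans ?_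
  exact Finset.single_le_sum (f := fun n => |C n|) (fun _ _ => abs_nonneg _) (Finset.mem_univ n)

/-- comparison of the two theories for observables which do not see the centre -/
theorem compare [μ.IsMulLeftInvariant] (hw : w.Bd) (h : Cn w z)
    (hF : ∀ (ι : Type) [Fintype ι] [DecidableEq ι] (p : ι → ZMod N → ℝ) (ε : ℝ), 0 ≤ ε → ε ≤ 1 →
      (∀ u n, ε / N * ∑ m, p u m ≤ p u n) → (∀ u n, 0 ≤ p u n) →
      |N * (∑ s : ι → ZMod N, if ∑ u, s u = 0 then ∏ u, p u (s u) else 0) - ∏ u, ∑ n, p u n| ≤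
        N * (1 - ε) ^ Fintype.card ι * ∏ u, ∑ n, p u n)
    (hD : ∀ (a b : ℕ) [NeZero a] [NeZero b] (s : ZMod a × ZMod b → ZMod N), ∑ u, s u = 0 →
      ∃ c : ZMod a × ZMod b → Fin 2 → ZMod N, ∀ u, dc c u = s u) :
    ∃ ρ : ℝ, 0 ≤ ρ ∧ ρ < 1 ∧ ∀ (a b : ℕ) [NeZero a] [NeZero b], N * ρ ^ (a * b) ≤ 1 / 2 →
      ∀ (H : (Lk a b l → G) → ℝ) (C : ℝ), BM H → (∀ U, |H U| ≤ C) →
      (∀ c U, H (tr z c U) = H U) → |XT μ w H - XE μ w H| ≤ 4 * C * (N * ρ ^ (a * b)) := by
  obtain ⟨M, hM0, hM⟩ := bs_bound (l := l) hw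
  have hN : (0 : ℝ) < N := by exact_mod_cast NeZero.pos N
  refine ⟨1 - Real.exp (-(2 * M)), ?_, ?_, ?_⟩
  · have := Real.exp_le_one_iff.2 (show -(2 * M) ≤ 0 by linarith)
    linarith
  · linarith [Real.exp_pos (-(2 * M))]
  intro a b _ _ hη H C hH hC hbl
  set ρ := 1 - Real.exp (-(2 * M)) with hρ
  set η := N * ρ ^ (a * b) with hηd
  have hρ0 : 0 ≤ ρ := by
    have := Real.exp_le_one_iff.2 (show -(2 * M) ≤ 0 by linarith)
    linarith
  have hη0 : 0 ≤ η := by positivity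
  have hC0 : 0 ≤ C := (abs_nonneg _).trans (hC fun _ => 1)
  set K : ℝ := N * (S0 N a b).card with hK
  have hcard : 0 < (S0 N a b).card := Finset.card_pos.2 ⟨fun _ => 0, by simp [S0]⟩
  have hK0 : 0 < K := by positivity
  -- the sum over the fluxes
  have e1 : ∀ {H : (Lk a b l → G) → ℝ}, BM H → (∀ c U, H (tr z c U) = H U) →
      K * ∫ U, H U * wS w (fun _ => 0) U ∂(PM μ (Lk a b l)) =
        ∫ U, H U * (N * ∑ s ∈ S0 N a b, wS w s U) ∂(PM μ (Lk a b l)) := by
    intro H hH hbl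
    have h1 : ∀ s ∈ S0 N a b, ∫ U, H U * wS w (fun _ => 0) U ∂(PM μ (Lk a b l)) =
        ∫ U, H U * wS w s U ∂(PM μ (Lk a b l)) := by
      intro s hs
      obtain ⟨c, hc⟩ := hD a b s (by simpa [S0] using hs)
      rw [int_tr hw h c hH, show dc c = s from funext hc]
      simp only [hbl]
    have h2 : ∫ U, H U * (N * ∑ s ∈ S0 N a b, wS w s U) ∂(PM μ (Lk a b l)) =
        N * ∑ s ∈ S0 N a b, ∫ U, H U * wS w s U ∂(PM μ (Lk a b l)) := by
      rw [← integral_finsetSum _ fun s _ => (hH.mul (wS_bm hw s)).int, ← integral_const_mul]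
      congr 1
      funext U
      rw [← Finset.mul_sum]
      ring
    rw [h2, ← Finset.sum_congr rfl h1, Finset.sum_const, nsmul_eq_mul, hK]
    ring
  have hpt : ∀ U : Lk a b l → G, |N * ∑ s ∈ S0 N a b, wS w s U - wtE w U| ≤ η * wtE w U := by
    intro U
    set p : ZMod a × ZMod b → ZMod N → ℝ := fun u n => Real.exp (-bsE w n U u) with hp
    have hlo : ∀ u n, Real.exp (-M) ≤ p u n := fun u n =>
      Real.exp_le_exp.2 (neg_le_neg ((le_abs_self _).trans (hM a b U n u)))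
    have hhi : ∀ u n, p u n ≤ Real.exp M := fun u n =>
      Real.exp_le_exp.2 ((neg_le_abs _).trans (hM a b U n u))
    have h1 := hF (ZMod a × ZMod b) p (Real.exp (-(2 * M))) (Real.exp_pos _).le
      (Real.exp_le_one_iff.2 (by linarith)) (fun u n => ?_) (fun u n => (Real.exp_pos _).le)
    · have h2 : ∑ s ∈ S0 N a b, wS w s U = Real.exp (-nbE w U) *
          ∑ s : ZMod a × ZMod b → ZMod N, if ∑ u, s u = 0 then ∏ u, p u (s u) else 0 := by
        unfold S0 wS
        rw [Finset.sum_filter, Finset.mul_sum]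
        refine Finset.sum_congr rfl fun s _ => ?_
        split_ifs
        · rfl
        · rw [mul_zero]
      have h3 : wtE w U = Real.exp (-nbE w U) * ∏ u, ∑ n, p u n := rfl
      have h4 : Fintype.card (ZMod a × ZMod b) = a * b := by
        rw [Fintype.card_prod, ZMod.card, ZMod.card]
      rw [h4] at h1
      rw [h2, h3]
      have h5 : N * (Real.exp (-nbE w U) * ∑ s : ZMod a × ZMod b → ZMod N,
          if ∑ u, s u = 0 then ∏ u, p u (s u) else 0) - Real.exp (-nbE w U) * ∏ u, ∑ n, p u n =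
          Real.exp (-nbE w U) * (N * (∑ s : ZMod a × ZMod b → ZMod N,
          if ∑ u, s u = 0 then ∏ u, p u (s u) else 0) - ∏ u, ∑ n, p u n) := by ring
      rw [h5, abs_mul, abs_of_pos (Real.exp_pos _)]
      calc Real.exp (-nbE w U) * |N * (∑ s : ZMod a × ZMod b → ZMod N,
            if ∑ u, s u = 0 then ∏ u, p u (s u) else 0) - ∏ u, ∑ n, p u n|
          ≤ Real.exp (-nbE w U) * (N * (1 - Real.exp (-(2 * M))) ^ (a * b) *
              ∏ u, ∑ n, p u n) := mul_le_mul_of_nonneg_left h1 (Real.exp_pos _).le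
        _ = _ := by rw [hηd, hρ]; ring
    · have h2 : ∑ m, p u m ≤ N * Real.exp M := by
        calc ∑ m, p u m ≤ ∑ _m : ZMod N, Real.exp M := Finset.sum_le_sum fun m _ => hhi u m
          _ = _ := by rw [Finset.sum_const, Finset.card_univ, ZMod.card, nsmul_eq_mul]
      calc Real.exp (-(2 * M)) / N * ∑ m, p u m
          ≤ Real.exp (-(2 * M)) / N * (N * Real.exp M) :=
            mul_le_mul_of_nonneg_left h2 (by positivity)
        _ = Real.exp (-(2 * M)) * Real.exp M := by field_simp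
        _ = Real.exp (-M) := by rw [← Real.exp_add]; congr 1; ring
        _ ≤ p u n := hlo u n
  have hmain : ∀ {H : (Lk a b l → G) → ℝ} {C : ℝ}, BM H → (∀ U, |H U| ≤ C) → 0 ≤ C →
      (∀ c U, H (tr z c U) = H U) →
      |K * (∫ U, H U * wS w (fun _ => 0) U ∂(PM μ (Lk a b l))) -
        ∫ U, H U * wtE w U ∂(PM μ (Lk a b l))| ≤ C * (η * ZE μ w a b) := by
    intro H C hH hC hC0 hbl
    have hs : BM fun U : Lk a b l → G => N * ∑ s ∈ S0 N a b, wS w s U :=
      (BM.const _).mul (BM.sum _ fun s _ => wS_bm hw s)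
    rw [e1 hH hbl, ← integral_sub (hH.mul hs).int (hH.mul (wtE_bm hw)).int]
    have h1 : C * (η * ZE μ w a b) = ∫ U : Lk a b l → G, C * (η * wtE w U) ∂(PM μ (Lk a b l)) := by
      rw [integral_const_mul, integral_const_mul]
      rfl
    rw [h1]
    refine (abs_integral_le_integral_abs).trans ?_
    refine integral_mono ((hH.mul hs).sub (hH.mul (wtE_bm hw))).int.abs
      ((BM.const C).mul ((BM.const η).mul (wtE_bm hw))).int fun U => ?_
    simp only
    rw [← mul_sub, abs_mul]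
    exact mul_le_mul (hC U) (hpt U) (abs_nonneg _) hC0
  have m1 := hmain hH hC hC0 hbl
  have m2 := hmain (H := fun _ => 1) (C := 1) (BM.const 1) (fun _ => by simp) zero_le_one
    (fun _ _ => rfl)
  simp only [one_mul] at m2
  have hZ : 0 < ZE μ w a b := ZE_pos hw
  have hB : |∫ U, H U * wtE w U ∂(PM μ (Lk a b l))| ≤ C * ZE μ w a b := by
    have h1 : C * ZE μ w a b = ∫ U : Lk a b l → G, C * wtE w U ∂(PM μ (Lk a b l)) := by
      rw [integral_const_mul]
      rfl
    rw [h1]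
    refine (abs_integral_le_integral_abs).trans ?_
    refine integral_mono (hH.mul (wtE_bm hw)).int.abs ((BM.const C).mul (wtE_bm hw)).int
      fun U => ?_
    simp only
    rw [abs_mul, abs_of_pos (wtE_pos U)]
    exact mul_le_mul_of_nonneg_right (hC U) (wtE_pos U).le
  change |K * (∫ U, wS w (fun _ => 0) U ∂(PM μ (Lk a b l))) - ZE μ w a b| ≤ η * ZE μ w a b at m2
  unfold XT XE
  set A := ∫ U, H U * wS w (fun _ => 0) U ∂(PM μ (Lk a b l)) with hA
  set Z0 := ∫ U, wS w (fun _ => 0) U ∂(PM μ (Lk a b l)) with hZ0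
  set B := ∫ U, H U * wtE w U ∂(PM μ (Lk a b l)) with hBd
  set Z := ZE μ w a b with hZd
  have hZ0' : Z / 2 ≤ K * Z0 := by
    have := (abs_le.1 m2).1
    nlinarith
  have hKZ : 0 < K * Z0 := by linarith
  have hZ0p : 0 < Z0 := (mul_pos_iff_of_pos_left hK0).1 hKZ
  have e2 : A / Z0 - B / Z = ((K * A - B) * Z + B * (Z - K * Z0)) / (K * Z0 * Z) := by
    field_simp
    ring
  rw [e2, abs_div, abs_of_pos (show 0 < K * Z0 * Z by positivity), div_le_iff₀ (by positivity)]
  calc |(K * A - B) * Z + B * (Z - K * Z0)|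
      ≤ |(K * A - B) * Z| + |B * (Z - K * Z0)| := abs_add_le _ _
    _ ≤ C * (η * Z) * Z + C * Z * (η * Z) := by
        refine add_le_add ?_ ?_
        · rw [abs_mul, abs_of_pos hZ]
          exact mul_le_mul_of_nonneg_right m1 hZ.le
        · rw [abs_mul, abs_sub_comm]
          exact mul_le_mul hB m2 (abs_nonneg _) (by positivity)
    _ = 4 * C * η * (Z / 2 * Z) := by ring
    _ ≤ 4 * C * η * (K * Z0 * Z) := by
        apply mul_le_mul_of_nonneg_left _ (by positivity)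
        exact mul_le_mul_of_nonneg_right hZ0' hZ.le

end meas

end

end Pool.Agent.Run7.h897.TW
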