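import Pool.Agent.Run7.h897.TW.Tk

/-!
# Exchange of the two base directions
-/

open MeasureTheory Filter Topology

namespace Pool.Agent.Run7.h897.TW

set_option linter.unusedSectionVars false
set_option linter.unusedVariables false
set_option linter.style.haveILetI false

open Pool.Agent.Run7.h897.FS (BM BK kk kp PM A1 A2 xs gs)

noncomputable section

variable {N a b l : ℕ} {G : Type*} [Group G]

/-- exchange of the directions -/
def swi : Fin 4 ≃ Fin 4 := Equiv.swap 0 1

lemma swi0 : swi 0 = 1 := rfl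
lemma swi1 : swi 1 = 0 := rfl
lemma swi2 : swi 2 = 2 := rfl
lemma swi3 : swi 3 = 3 := rfl

/-- exchange of the coordinates -/
def exS (a b l : ℕ) : Si b a l ≃ Si a b l where
  toFun x := ((x.1.2, x.1.1), x.2)
  invFun x := ((x.1.2, x.1.1), x.2)
  left_inv _ := rfl
  right_inv _ := rfl

/-- exchange on the links -/
def exL (a b l : ℕ) : Lk b a l ≃ Lk a b l := (exS a b l).prodCongr swi

lemma exL_apply (x : Si b a l) (i : Fin 4) : exL a b l (x, i) = (exS a b l x, swi i) := rfl

lemma exS_add (x : Si b a l) (i : Fin 4) : exS a b l (x + ee i) = exS a b l x + ee (swi i) := by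
  obtain ⟨⟨u, v⟩, p, q⟩ := x
  fin_cases i
  · change exS a b l (((u, v), (p, q)) + ee 0) = exS a b l ((u, v), (p, q)) + ee 1
    simp [exS, ee]
  · change exS a b l (((u, v), (p, q)) + ee 1) = exS a b l ((u, v), (p, q)) + ee 0
    simp [exS, ee]
  · change exS a b l (((u, v), (p, q)) + ee 2) = exS a b l ((u, v), (p, q)) + ee 2
    simp [exS, ee]
  · change exS a b l (((u, v), (p, q)) + ee 3) = exS a b l ((u, v), (p, q)) + ee 3
    simp [exS, ee]

lemma plq_ex (U : Lk a b l → G) (x : Si b a l) (i j : Fin 4) :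
    plq (fun e => U (exL a b l e)) x i j = plq U (exS a b l x) (swi i) (swi j) := by
  unfold plq
  simp only [exL_apply, exS_add]

lemma plq_swap (U : Lk a b l → G) (x : Si a b l) (i j : Fin 4) :
    plq U x j i = (plq U x i j)⁻¹ := by
  unfold plq; group

variable [NeZero N] [NeZero a] [NeZero b] [NeZero l] {w : Ens N l G}

lemma nbE_ex (U : Lk a b l → G) : nbE w (fun e => U (exL a b l e)) = nbE w U := by
  unfold nbE
  rw [← (exS a b l).sum_comp]
  refine Finset.sum_congr rfl fun x _ => ?_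
  rw [plq_ex, plq_ex, plq_ex, plq_ex, plq_ex, swi0, swi1, swi2, swi3]
  have : (exS a b l x).2 = x.2 := rfl
  rw [this]
  ring

lemma bsE_ex (hw : w.Sy) (U : Lk a b l → G) (n : ZMod N) (u : ZMod b × ZMod a) :
    bsE w n (fun e => U (exL a b l e)) u = bsE w (-n) U (u.2, u.1) := by
  unfold bsE
  refine Finset.sum_congr rfl fun y _ => ?_
  rw [plq_ex, swi0, swi1, plq_swap, hw.i0]
  rfl

lemma wtE_ex (hw : w.Sy) (U : Lk a b l → G) :
    wtE w (fun e => U (exL a b l e)) = wtE w U := by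
  unfold wtE
  rw [nbE_ex]
  have h3 : ∀ u : ZMod b × ZMod a, ∑ n : ZMod N, Real.exp (-bsE w n (fun e => U (exL a b l e)) u) =
      ∑ n : ZMod N, Real.exp (-bsE w n U (u.2, u.1)) := by
    intro u
    simp only [bsE_ex hw]
    exact Equiv.sum_comp (Equiv.neg (ZMod N)) fun n => Real.exp (-bsE w n U (u.2, u.1))
  rw [Finset.prod_congr rfl fun u _ => h3 u]
  congr 1
  exact Equiv.prod_comp (Equiv.prodComm (ZMod b) (ZMod a))
    fun u => ∑ n : ZMod N, Real.exp (-bsE w n U u)

variable [MeasurableSpace G] [MeasurableMul₂ G] [MeasurableInv G] {μ : Measure G}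
  [IsProbabilityMeasure μ]

lemma plq_meas (x : Si a b l) (i j : Fin 4) : Measurable fun U : Lk a b l → G => plq U x i j := by
  have h : ∀ e : Lk a b l, Measurable fun U : Lk a b l → G => U e := fun e => measurable_pi_apply e
  unfold plq
  exact (((h _).mul (h _)).mul (h _).inv).mul (h _).inv

lemma nbE_bm (hw : w.Bd) : BM fun U : Lk a b l → G => nbE w U := by
  unfold nbE
  exact BM.sum _ fun x _ => (((((hw.b1.comp (plq_meas x 0 2)).add
    (hw.b1.comp (plq_meas x 0 3))).add (hw.b1.comp (plq_meas x 1 2))).add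
    (hw.b1.comp (plq_meas x 1 3))).add ((hw.b2 _).comp (plq_meas x 2 3)))

lemma bsE_bm (hw : w.Bd) (n : ZMod N) (u : ZMod a × ZMod b) :
    BM fun U : Lk a b l → G => bsE w n U u := by
  unfold bsE
  exact BM.sum _ fun y _ => (hw.b0 n).comp (plq_meas _ 0 1)

lemma wtE_bm (hw : w.Bd) : BM fun U : Lk a b l → G => wtE w U := by
  unfold wtE
  exact (nbE_bm hw).neg.exp.mul (BM.prod _ fun u _ => BM.sum _ fun n _ =>
    (bsE_bm hw n u).neg.exp)

lemma wtE_pos (U : Lk a b l → G) : 0 < wtE w U := by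
  unfold wtE
  refine mul_pos (Real.exp_pos _) (Finset.prod_pos fun u _ => Finset.sum_pos (fun n _ =>
    Real.exp_pos _) ⟨0, Finset.mem_univ _⟩)

lemma ZE_pos (hw : w.Bd) : 0 < ZE μ w a b := (wtE_bm hw).int_pos wtE_pos

theorem ZE_ex (hb : w.Bd) (hw : w.Sy) : ZE μ w a b = ZE μ w b a := by
  unfold ZE
  have h1 : MeasurePreserving (fun (U : Lk a b l → G) i => U (exL a b l i)) (PM μ (Lk a b l))
      (PM μ (Lk b a l)) := FS.mp_comp (μ := μ) (exL a b l)
  conv_rhs => rw [← h1.map_eq]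
  rw [integral_map h1.measurable.aemeasurable (wtE_bm hb).1.aestronglyMeasurable]
  congr 1
  funext U
  exact (wtE_ex hw U).symm

/-- the partition function as a function of the half sides -/
def ZH2 (μ : Measure G) (w : Ens N l G) (n : Fin 2 → ℕ) : ℝ :=
  if h : n 0 ≠ 0 ∧ n 1 ≠ 0 then
    haveI : NeZero (2 * n 0) := ⟨by have := h.1; omega⟩
    haveI : NeZero (2 * n 1) := ⟨by have := h.2; omega⟩
    ZE μ w (2 * n 0) (2 * n 1)
  else 0

lemma ZH2_eq {n : Fin 2 → ℕ} {p q : ℕ} [NeZero p] [NeZero q] (h0 : 2 * n 0 = p)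
    (h1 : 2 * n 1 = q) : ZH2 μ w n = ZE μ w p q := by
  subst h0 h1
  unfold ZH2
  rw [dif_pos ⟨fun h => NeZero.ne (2 * n 0) (by rw [h, mul_zero]),
    fun h => NeZero.ne (2 * n 1) (by rw [h, mul_zero])⟩]

lemma ZE_EE [μ.IsInvInvariant] (hb : w.Bd) (hw : w.Sy) {n : ℕ} (hn : 1 ≤ n) [NeZero (2 * n)] :
    ZE μ w (2 * n) b = FS.EE (PM μ (Ls b l)) (kp (PM μ (Ls b l)) (tk μ b w)) n := by
  rw [ZE_eq hb, (FS.kp_KS (tk_bm hb) (tk_symm hb hw)).EE_diag hn]
  unfold A1
  simp only [one_mul]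
  rw [show 2 * n = n + n by ring]

end

end Pool.Agent.Run7.h897.TW
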