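import Pool.Agent.Run7.h897.TW.Cen
import Pool.Agent.Run7.h897.FS.Cz

/-!
# The theory with a flux through the base torus
-/

open MeasureTheory Filter Topology

namespace Pool.Agent.Run7.h897.FS

/-- integration over the time links, kernels depending on the time -/
lemma int_ringT {G : Type*} {E A B : Type} [Fintype E] [Fintype A] [Fintype B] {N : ℕ} [NeZero N]
    (σ : (ZMod N × A) ⊕ (ZMod N × B) ≃ E) [MeasurableSpace G] {μ : Measure G}
    [IsProbabilityMeasure μ] {κ : ZMod N → (A → G) → (B → G) → (A → G) → ℝ}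
    (hκ : ∀ t, BK (κ t)) :
    ∫ U, ∏ t, κ t (xs σ U t) (gs σ U t) (xs σ U (t + 1)) ∂(PM μ E) =
      ∫ x, ∏ t, kk μ (κ t) (x t) (x (t + 1)) ∂(Measure.pi fun _ => PM μ A) := by
  have h1 := int_slices (μ := μ) σ
    (f := fun w => ∏ t, κ t (w.1 t) (w.2 t) (w.1 (t + 1))) ?_
  · refine h1.trans ?_
    congr 1
    funext x
    exact integral_fintype_prod_eq_prod (fun t g => κ t (x t) g (x (t + 1)))
  · refine BM.prod _ fun t _ => ?_
    exact BM.comp (hκ t) (φ := fun w : (ZMod N → A → G) × (ZMod N → B → G) =>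
        ((w.1 t, w.1 (t + 1)), w.2 t))
      ((((measurable_pi_apply t).comp measurable_fst).prodMk
        ((measurable_pi_apply (t + 1)).comp measurable_fst)).prodMk
        ((measurable_pi_apply t).comp measurable_snd))

end Pool.Agent.Run7.h897.FS

namespace Pool.Agent.Run7.h897.TW

set_option linter.unusedSectionVars false
set_option linter.unusedVariables false
set_option linter.style.haveILetI false

open Pool.Agent.Run7.h897.FS (BM BK kk kp PM A1 A2 xs gs KS Act Tw kx EC KC)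

noncomputable section

variable {N a b l : ℕ} {G : Type*} [Group G]

section alg

variable {w : Ens N l G} {z : ZMod N → G}

/-- the centre transformation of a slice -/
def Cs (z : ZMod N → G) (j : ZMod N) (x : Ls b l → G) : Ls b l → G :=
  fun e => if e.2 = 0 ∧ e.1.1 = 0 then z j * x e else x e

lemma Cs_zero (h : Cn w z) (x : Ls b l → G) : Cs z 0 x = x := by
  funext e
  unfold Cs
  split_ifs
  · rw [h.z0, one_mul]
  · rfl

lemma Cs_add (h : Cn w z) (i j : ZMod N) (x : Ls b l → G) : Cs z (i + j) x = Cs z i (Cs z j x) := by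
  funext e
  unfold Cs
  split_ifs
  · rw [h.add, mul_assoc]
  · rfl

variable [NeZero N] [NeZero b] [NeZero l]

/-- the weight of a layer with the fluxes `s` -/
def kwS (w : Ens N l G) (s : ZMod b → ZMod N) (x : Ls b l → G) (g : Sp b l → G)
    (x' : Ls b l → G) : ℝ :=
  Real.exp (-(sE w x / 2 + tE w x g x' + sE w x' / 2)) *
    ∏ u : ZMod b, Real.exp (-bE w (s u) x g x' u)

lemma prod_kwS [NeZero a] (s : ZMod a × ZMod b → ZMod N) (U : Lk a b l → G) :
    ∏ t, kwS w (fun u => s (t, u)) (xs (sg a b l) U t) (gs (sg a b l) U t)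
      (xs (sg a b l) U (t + 1)) = wS w s U := by
  unfold kwS wS
  rw [Finset.prod_mul_distrib, Fintype.prod_prod_type, ← Real.exp_sum, nbE_slices,
    Finset.sum_neg_distrib]
  have h1 : ∑ t : ZMod a, sE w (xs (sg a b l) U (t + 1)) =
      ∑ t : ZMod a, sE w (xs (sg a b l) U t) :=
    Equiv.sum_comp (Equiv.addRight (1 : ZMod a)) fun t => sE w (xs (sg a b l) U t)
  simp only [Finset.sum_add_distrib, ← Finset.sum_div, h1, bsE_slices]
  have h2 : ∀ x y : ℝ, x / 2 + y + x / 2 = y + x := fun x y => by ring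
  rw [h2]

lemma spl_Cs (h : Cn w z) (j : ZMod N) (x : Ls b l → G) (v : Sp b l) (i k : Fin 3)
    (hk : k = 1 ∨ k = 2) : spl (Cs z j x) v i k = spl x v i k := by
  unfold spl Cs
  have hk0 : k ≠ 0 := by rcases hk with rfl | rfl <;> decide
  have h1 : (v + sh k).1 = v.1 := by rcases hk with rfl | rfl <;> simp [sh]
  simp only [hk0, false_and, if_false, h1]
  split_ifs with h2
  · rw [mul_inv_rev, h.comm j (x (v, i))]
    have h3 := h.comm j
    have h4 : ∀ g, (z j)⁻¹ * g = g * (z j)⁻¹ := fun g => by rw [← h.neg]; exact h.comm _ g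
    calc x (v, i) * z j * x (v + sh i, k) * ((x (v + sh k, i))⁻¹ * (z j)⁻¹) * (x (v, k))⁻¹
        = x (v, i) * (z j * (x (v + sh i, k) * (x (v + sh k, i))⁻¹)) * (z j)⁻¹ *
            (x (v, k))⁻¹ := by simp only [mul_assoc]
      _ = x (v, i) * (x (v + sh i, k) * (x (v + sh k, i))⁻¹ * z j) * (z j)⁻¹ *
            (x (v, k))⁻¹ := by rw [h3]
      _ = _ := by simp only [mul_assoc, mul_inv_cancel_left]
  · rfl

lemma sE_Cs (h : Cn w z) (j : ZMod N) (x : Ls b l → G) : sE w (Cs z j x) = sE w x := by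
  unfold sE
  refine Finset.sum_congr rfl fun v _ => ?_
  rw [spl_Cs h j x v 0 1 (by simp), spl_Cs h j x v 0 2 (by simp), spl_Cs h j x v 1 2 (by simp)]

lemma tpl_CsR (h : Cn w z) (j : ZMod N) (x : Ls b l → G) (g : Sp b l → G) (x' : Ls b l → G)
    (v : Sp b l) (i : Fin 3) : tpl x g (Cs z j x') v i =
      (if i = 0 ∧ v.1 = 0 then z j else 1) * tpl x g x' v i := by
  unfold tpl Cs
  simp only
  split_ifs
  · have h3 := h.comm j
    calc g v * (z j * x' (v, i)) * (g (v + sh i))⁻¹ * (x (v, i))⁻¹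
        = (g v * z j) * (x' (v, i) * (g (v + sh i))⁻¹ * (x (v, i))⁻¹) := by
          simp only [mul_assoc]
      _ = (z j * g v) * (x' (v, i) * (g (v + sh i))⁻¹ * (x (v, i))⁻¹) := by rw [h3]
      _ = _ := by simp only [mul_assoc]
  · rw [one_mul]

lemma tpl_CsC (h : Cn w z) (j : ZMod N) (x : Ls b l → G) (g : Sp b l → G) (x' : Ls b l → G)
    (v : Sp b l) (i : Fin 3) : tpl (Cs z j x) g (Cs z j x') v i = tpl x g x' v i := by
  rw [tpl_CsR h]
  unfold tpl Cs
  simp only
  split_ifs
  · rw [mul_inv_rev]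
    have h3 := h.comm j
    calc z j * (g v * x' (v, i) * (g (v + sh i))⁻¹ * ((x (v, i))⁻¹ * (z j)⁻¹))
        = (z j * (g v * x' (v, i) * (g (v + sh i))⁻¹ * (x (v, i))⁻¹)) * (z j)⁻¹ := by
          simp only [mul_assoc]
      _ = _ := by rw [h3, mul_assoc, mul_inv_cancel, mul_one]
  · rw [one_mul]

lemma tE_CsR (h : Cn w z) (j : ZMod N) (x : Ls b l → G) (g : Sp b l → G) (x' : Ls b l → G) :
    tE w x g (Cs z j x') = tE w x g x' := by
  unfold tE
  refine Finset.sum_congr rfl fun v _ => ?_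
  rw [tpl_CsR h, tpl_CsR h]
  simp

lemma bE_CsR (h : Cn w z) (j n : ZMod N) (x : Ls b l → G) (g : Sp b l → G) (x' : Ls b l → G)
    (u : ZMod b) : bE w n x g (Cs z j x') u = bE w (n + if u = 0 then j else 0) x g x' u := by
  unfold bE
  refine Finset.sum_congr rfl fun y _ => ?_
  rw [tpl_CsR h]
  by_cases hu : u = 0
  · simp only [hu, and_self, if_true]
    rw [h.e0z]
  · simp [hu]

/-- the twisted layer -/
lemma kwS_Cs (h : Cn w z) (j : ZMod N) (s : ZMod b → ZMod N) (x : Ls b l → G) (g : Sp b l → G)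
    (x' : Ls b l → G) : kwS w s x g (Cs z j x') =
      kwS w (fun u => s u + if u = 0 then j else 0) x g x' := by
  unfold kwS
  rw [sE_Cs h, tE_CsR h]
  simp only [bE_CsR h]

lemma kwS_CC (h : Cn w z) (j : ZMod N) (s : ZMod b → ZMod N) (x : Ls b l → G) (g : Sp b l → G)
    (x' : Ls b l → G) : kwS w s (Cs z j x) g (Cs z j x') = kwS w s x g x' := by
  unfold kwS tE bE
  rw [sE_Cs h, sE_Cs h]
  simp only [tpl_CsC h]

lemma kwS_swap (hw : w.Sy) (x x' : Ls b l → G) (g : Sp b l → G) :
    kwS w (fun _ => 0) x' (fun y => (g y)⁻¹) x = kwS w (fun _ => 0) x g x' := by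
  unfold kwS
  have h4 : sE w x' / 2 + tE w x g x' + sE w x / 2 = sE w x / 2 + tE w x g x' + sE w x' / 2 := by
    ring
  simp only [bE_swap hw, neg_zero]
  rw [tE_swap hw, h4]

lemma kwS_pos (s : ZMod b → ZMod N) (x : Ls b l → G) (g : Sp b l → G) (x' : Ls b l → G) :
    0 < kwS w s x g x' :=
  mul_pos (Real.exp_pos _) (Finset.prod_pos fun u _ => Real.exp_pos _)

end alg

section meas

variable [NeZero N] [NeZero b] [NeZero l] {w : Ens N l G} {z : ZMod N → G}
  [MeasurableSpace G] [MeasurableMul₂ G] [MeasurableInv G] {μ : Measure G}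
  [IsProbabilityMeasure μ]

lemma kwS_bm (hw : w.Bd) (s : ZMod b → ZMod N) : BK (G := G) (kwS (b := b) w s) := by
  have h1 : BM fun z : ((Ls b l → G) × (Ls b l → G)) × (Sp b l → G) => sE w z.1.1 :=
    (sE_bm hw).comp measurable_fst.fst
  have h2 : BM fun z : ((Ls b l → G) × (Ls b l → G)) × (Sp b l → G) => sE w z.1.2 :=
    (sE_bm hw).comp measurable_fst.snd
  have h5 : BM fun z : ((Ls b l → G) × (Ls b l → G)) × (Sp b l → G) =>
      sE w z.1.1 / 2 + tE w z.1.1 z.2 z.1.2 + sE w z.1.2 / 2 := by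
    have := ((h1.mul (BM.const (1 / 2))).add (tE_bm hw)).add (h2.mul (BM.const (1 / 2)))
    convert this using 1
    funext z
    ring
  unfold BK kwS
  exact h5.neg.exp.mul (BM.prod _ fun u _ => (bE_bm hw (s u) u).neg.exp)

/-- the transfer kernel of the theory without fluxes -/
def tk0 (μ : Measure G) (b : ℕ) [NeZero b] (w : Ens N l G) :
    (Ls b l → G) → (Ls b l → G) → ℝ := kk μ (kwS (b := b) w fun _ => 0)

lemma tk0_bm (hw : w.Bd) : BM (Function.uncurry (tk0 μ b w)) := FS.kk_bm (kwS_bm hw _)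

lemma tk0_pos (hw : w.Bd) (x x' : Ls b l → G) : 0 < tk0 μ b w x x' := by
  unfold tk0 kk
  refine BM.int_pos ?_ fun g => kwS_pos _ x g x'
  exact BM.comp (kwS_bm (b := b) hw _) (φ := fun g : Sp b l → G => ((x, x'), g))
    (measurable_const.prodMk measurable_id)

lemma tk0_symm [μ.IsInvInvariant] (hb : w.Bd) (hw : w.Sy) (x x' : Ls b l → G) :
    tk0 μ b w x x' = tk0 μ b w x' x := by
  unfold tk0 kk
  have h1 : MeasurePreserving (fun g : Sp b l → G => fun y => (g y)⁻¹) (PM μ (Sp b l))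
      (PM μ (Sp b l)) :=
    measurePreserving_pi (fun _ : Sp b l => μ) (fun _ : Sp b l => μ)
      (f := fun _ g => g⁻¹) fun _ => Measure.measurePreserving_inv μ
  have h2 : BM fun g : Sp b l → G => kwS w (fun _ => 0) x' g x :=
    BM.comp (kwS_bm (b := b) hb _) (φ := fun g : Sp b l → G => ((x', x), g))
      (measurable_const.prodMk measurable_id)
  conv_rhs => rw [← h1.map_eq]
  rw [integral_map h1.measurable.aemeasurable h2.1.aestronglyMeasurable]
  congr 1
  funext g
  exact (kwS_swap hw x x' g).symm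

lemma tk0_KS [μ.IsInvInvariant] (hb : w.Bd) (hw : w.Sy) :
    KS (PM μ (Ls b l)) (kp (PM μ (Ls b l)) (tk0 μ b w)) :=
  FS.kp_KS (tk0_bm hb) (tk0_symm hb hw)

lemma Cs_mp [μ.IsMulLeftInvariant] (j : ZMod N) :
    MeasurePreserving (Cs (b := b) (l := l) z j) (PM μ (Ls b l)) (PM μ (Ls b l)) := by
  refine measurePreserving_pi (fun _ : Ls b l => μ) (fun _ : Ls b l => μ)
    (f := fun e g => if e.2 = 0 ∧ e.1.1 = 0 then z j * g else g) fun e => ?_
  by_cases he : e.2 = 0 ∧ e.1.1 = 0
  · simp only [he, and_self, if_true]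
    exact measurePreserving_mul_left μ _
  · simp only [he, if_false]
    exact MeasurePreserving.id μ

/-- the action of the centre on the transfer kernels -/
lemma Cs_act [μ.IsMulLeftInvariant] (hb : w.Bd) (h : Cn w z) :
    Act (PM μ (Ls b l)) (kp (PM μ (Ls b l)) (tk0 μ b w)) (Cs (b := b) (l := l) z) where
  zero := Cs_zero h
  add := Cs_add h
  mp := Cs_mp
  inv := by
    intro n hn j
    have h1 : ∀ x y : Ls b l → G, tk0 μ b w (Cs z j x) (Cs z j y) = tk0 μ b w x y := by
      intro x y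
      unfold tk0 kk
      simp only [kwS_CC h]
    induction n, hn using Nat.le_induction with
    | base => exact h1
    | succ n hn ih =>
      intro x y
      rw [FS.kp_succ hn, FS.kp_succ hn]
      have h2 : MeasurePreserving (Cs (b := b) (l := l) z j) (PM μ (Ls b l)) (PM μ (Ls b l)) :=
        Cs_mp j
      have hB : BM fun u => tk0 μ b w (Cs z j x) u * kp (PM μ (Ls b l)) (tk0 μ b w) n u
          (Cs z j y) :=
        ((tk0_bm hb).comp (measurable_const.prodMk measurable_id)).mul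
          ((FS.kp_bm (tk0_bm hb) hn).comp (measurable_id.prodMk measurable_const))
      have h3 := integral_map h2.measurable.aemeasurable
        (hB.1.aestronglyMeasurable (μ := (PM μ (Ls b l)).map (Cs z j)))
      rw [h2.map_eq] at h3
      rw [h3]
      simp only [h1, ih]

variable (a b) in
/-- the flux `j` at the point zero -/
def sj (j : ZMod N) (u : ZMod a × ZMod b) : ZMod N := if u = 0 then j else 0

/-- the partition function with the flux `j` -/
def ZT (μ : Measure G) (w : Ens N l G) (j : ZMod N) (a b : ℕ) [NeZero a] [NeZero b] : ℝ :=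
  ∫ U : Lk a b l → G, wS w (sj a b j) U ∂(PM μ (Lk a b l))

lemma ZT_pos [NeZero a] (hw : w.Bd) (j : ZMod N) : 0 < ZT μ w j a b :=
  (wS_bm hw _).int_pos fun U => wS_pos _ U

/-- the partition function with a flux as a twisted trace -/
theorem ZT_eq [NeZero a] [μ.IsMulLeftInvariant] [μ.IsInvInvariant] (hb : w.Bd) (hw : w.Sy)
    (h : Cn w z) (j : ZMod N) : ZT μ w j a b =
      Tw (PM μ (Ls b l)) (kp (PM μ (Ls b l)) (tk0 μ b w)) (Cs (b := b) (l := l) z) j a := by
  have hA := Cs_act (μ := μ) (b := b) hb h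
  have hK := tk0_KS (μ := μ) (b := b) hb hw
  unfold ZT
  simp only [← prod_kwS]
  rw [FS.int_ringT (μ := μ) (sg a b l) (κ := fun t => kwS w fun u => sj a b j (t, u))
    (fun t => kwS_bm hb _)]
  have e1 : ∀ (t : ZMod a) (x y : Ls b l → G), kk μ (kwS w fun u => sj a b j (t, u)) x y =
      if t = 0 then tk0 μ b w x ((hA.eqv j) y) else tk0 μ b w x y := by
    intro t x y
    by_cases ht : t = 0
    · simp only [ht, if_true]
      change _ = tk0 μ b w x (Cs z j y)
      unfold tk0 kk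
      congr 1
      funext g
      rw [kwS_Cs h]
      congr 1
      funext u
      rw [zero_add]
      unfold sj
      simp [Prod.ext_iff]
    · simp only [ht, if_false]
      unfold tk0
      congr 2
      funext u
      unfold sj
      simp [Prod.ext_iff, ht]
  simp only [e1]
  rw [FS.ring_tw (φ := hA.eqv j) (tk0_bm hb) (hA.mp j) (fun n hn x y => hA.inv n hn j x y)]
  unfold Tw
  congr 1
  funext y
  exact hK.symm a (NeZero.one_le) _ _

/-- exchange of the directions -/
theorem ZT_ex [NeZero a] (hb : w.Bd) (hw : w.Sy) (j : ZMod N) :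
    ZT μ w j a b = ZT μ w (-j) b a := by
  unfold ZT
  have h1 : MeasurePreserving (fun (U : Lk a b l → G) i => U (exL a b l i)) (PM μ (Lk a b l))
      (PM μ (Lk b a l)) := FS.mp_comp (μ := μ) (exL a b l)
  conv_rhs => rw [← h1.map_eq]
  rw [integral_map h1.measurable.aemeasurable (wS_bm hb _).1.aestronglyMeasurable]
  congr 1
  funext U
  unfold wS
  rw [nbE_ex]
  congr 1
  rw [← Equiv.prod_comp (Equiv.prodComm (ZMod b) (ZMod a))]
  refine Finset.prod_congr rfl fun u _ => ?_
  rw [bsE_ex hw]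
  have : sj a b j ((Equiv.prodComm (ZMod b) (ZMod a)) u) = -sj b a (-j) u := by
    unfold sj
    obtain ⟨u1, u2⟩ := u
    simp only [Equiv.prodComm_apply, Prod.swap_prod_mk, Prod.mk_eq_zero]
    by_cases h2 : u1 = 0 <;> by_cases h3 : u2 = 0 <;> simp [h2, h3]
  rw [this]
  rfl

/-- other positions of the flux -/
theorem int_wS [NeZero a] [μ.IsMulLeftInvariant] (hw : w.Bd) (h : Cn w z)
    (hD : ∀ s : ZMod a × ZMod b → ZMod N, ∑ u, s u = 0 →
      ∃ c : ZMod a × ZMod b → Fin 2 → ZMod N, ∀ u, dc c u = s u)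
    (s : ZMod a × ZMod b → ZMod N) :
    ∫ U : Lk a b l → G, wS w s U ∂(PM μ (Lk a b l)) = ZT μ w (∑ u, s u) a b := by
  obtain ⟨c, hc⟩ := hD (fun u => s u - sj a b (∑ u, s u) u) (by
    rw [Finset.sum_sub_distrib]
    unfold sj
    simp)
  unfold ZT
  have h1 := tr_mp (μ := μ) (z := z) (l := l) c
  conv_rhs => rw [← h1.map_eq]
  rw [integral_map h1.measurable.aemeasurable (wS_bm hw _).1.aestronglyMeasurable]
  congr 1
  funext U
  rw [wS_tr h]
  congr 1
  funext u
  rw [hc]
  ring

/-- the neutral partition function -/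
theorem ZE_sum [NeZero a] [μ.IsMulLeftInvariant] (hw : w.Bd) (h : Cn w z)
    (hD : ∀ s : ZMod a × ZMod b → ZMod N, ∑ u, s u = 0 →
      ∃ c : ZMod a × ZMod b → Fin 2 → ZMod N, ∀ u, dc c u = s u) :
    ZE μ w a b * N = (N : ℝ) ^ (a * b) * ∑ j, ZT μ w j a b := by
  have h1 : ∀ U : Lk a b l → G, wtE w U = ∑ s : ZMod a × ZMod b → ZMod N, wS w s U := by
    intro U
    unfold wtE wS
    rw [← Finset.mul_sum, Finset.prod_univ_sum, Fintype.piFinset_univ]
  have h2 : ZE μ w a b = ∑ s : ZMod a × ZMod b → ZMod N, ZT μ w (∑ u, s u) a b := by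
    unfold ZE
    simp only [h1]
    rw [integral_finsetSum _ fun s _ => (wS_bm hw s).int]
    exact Finset.sum_congr rfl fun s _ => int_wS hw h hD s
  -- the number of the fluxes with a given sum
  have h3 : ∀ c : ZMod N, ∑ s : ZMod a × ZMod b → ZMod N, ZT μ w (∑ u, s u) a b =
      ∑ s : ZMod a × ZMod b → ZMod N, ZT μ w (c + ∑ u, s u) a b := by
    intro c
    rw [← Equiv.sum_comp (Equiv.addLeft (sj a b c)) fun s : ZMod a × ZMod b → ZMod N =>
      ZT μ w (∑ u, s u) a b]
    refine Finset.sum_congr rfl fun s _ => ?_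
    congr 1
    simp only [Equiv.coe_addLeft, Pi.add_apply, Finset.sum_add_distrib]
    congr 1
    unfold sj
    simp
  have h4 : (N : ℝ) * ∑ s : ZMod a × ZMod b → ZMod N, ZT μ w (∑ u, s u) a b =
      ∑ c : ZMod N, ∑ s : ZMod a × ZMod b → ZMod N, ZT μ w (c + ∑ u, s u) a b := by
    rw [← Finset.sum_congr rfl fun c _ => h3 c, Finset.sum_const, Finset.card_univ, ZMod.card,
      nsmul_eq_mul]
  rw [h2, mul_comm, h4, Finset.sum_comm]
  have h5 : ∀ s : ZMod a × ZMod b → ZMod N, ∑ c : ZMod N, ZT μ w (c + ∑ u, s u) a b =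
      ∑ j, ZT μ w j a b := fun s =>
    Equiv.sum_comp (Equiv.addRight (∑ u, s u)) fun j => ZT μ w j a b
  simp only [h5]
  rw [Finset.sum_const, nsmul_eq_mul, Finset.card_univ, Fintype.card_fun, ZMod.card,
    Fintype.card_prod, ZMod.card, ZMod.card]
  push_cast
  rfl

end meas

end

end Pool.Agent.Run7.h897.TW
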