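import Pool.Agent.Run7.h897.TW.Flx

/-!
# The electric sectors: the free energies at all scales
-/

open MeasureTheory Filter Topology

namespace Pool.Agent.Run7.h897.FS

/-! ### numerical part in two dimensions -/

section two

variable {F : ℕ → ℕ → ℝ}

/-- the free energy density -/
noncomputable def fe (F : ℕ → ℕ → ℝ) : ℝ := ell (fun n => Real.exp (ell (F n)))

/-- the free energy up to the boundary, from the purity at one scale -/
theorem free (h1 : ∀ m, 1 ≤ m → TS0 fun n => F n m) (h2 : ∀ n, 1 ≤ n → TS0 fun m => F n m)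
    {t : ℕ} (ht : 1 ≤ t) {M : ℝ}
    (hM1 : psi (fun n => F n (2 * t)) t ≤ M) (hM2 : psi (F (2 * t)) t ≤ M)
    (hM3 : psi (F t) t ≤ M) {n m : ℕ} (hn : t ≤ n) (hm : t ≤ m) :
    0 ≤ Real.log (F n m) - n * m * fe F ∧
      Real.log (F n m) - n * m * fe F ≤ M * (1 + (n + m) / t) := by
  have a1 : TS0 fun m => Real.exp (ell fun n => F n m) :=
    ts0_lim (F := fun m n => F n m) h2 h1
  have a2 := ts0_lim h1 h2
  have hf := ell_eq_ell h1 h2
  unfold fe
  set f := ell (fun n => Real.exp (ell (F n))) with hf0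
  have e1 : ∀ m, 1 ≤ m → ell (fun n => F n m) =
      m * f + psi (fun m => Real.exp (ell fun n => F n m)) m := by
    intro m hm
    unfold psi
    rw [hf, Real.log_exp]
    ring
  have e2 : ∀ n, 1 ≤ n → ell (F n) = n * f + psi (fun n => Real.exp (ell (F n))) n := by
    intro n hn
    unfold psi
    rw [← hf0, Real.log_exp]
    ring
  set p1 := psi (fun m => Real.exp (ell fun n => F n m)) with hp1
  set p2 := psi (fun n => Real.exp (ell (F n))) with hp2
  have id : ∀ n m, 1 ≤ n → 1 ≤ m → psi (fun n => F n m) n + n * p1 m =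
      psi (F n) m + m * p2 n := by
    intro n m hn hm
    have c1 : psi (fun n => F n m) n = Real.log (F n m) - n * ell (fun n => F n m) := rfl
    have c2 : psi (F n) m = Real.log (F n m) - m * ell (F n) := rfl
    rw [c1, c2, e1 m hm, e2 n hn]
    ring
  have i1 := id t (2 * t) ht (by omega)
  have i2 := id (2 * t) t (by omega) ht
  have i3 := id t m ht (by omega)
  have n1 := (h1 t ht).psi_nonneg (n := 2 * t) (by omega)
  have n2 := (h2 t ht).psi_nonneg (n := 2 * t) (by omega)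
  have q1 : p1 (2 * t) ≤ p1 t := a1.psi_anti ht (by omega)
  have q2 : p2 (2 * t) ≤ p2 t := a2.psi_anti ht (by omega)
  have r1 : 0 ≤ p1 m := a1.psi_nonneg (by omega)
  have r2 : 0 ≤ p2 t := a2.psi_nonneg ht
  have q3 : p1 m ≤ p1 t := a1.psi_anti ht hm
  have q4 : psi (F t) m ≤ psi (F t) t := (h2 t ht).psi_anti ht hm
  have q5 : psi (fun n => F n m) n ≤ psi (fun n => F n m) t :=
    (h1 m (by omega)).psi_anti ht hn
  have q6 : 0 ≤ psi (fun n => F n m) n := (h1 m (by omega)).psi_nonneg (by omega)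
  push_cast at i1 i2 i3
  have ht' : (0 : ℝ) < t := by positivity
  have u1 : (t : ℝ) * p1 (2 * t) ≤ t * p1 t := by gcongr
  have u2 : (t : ℝ) * p2 (2 * t) ≤ t * p2 t := by gcongr
  have u3 : (0 : ℝ) ≤ t * p1 m := by positivity
  have s1 : 2 * (t * p2 t) ≤ M + t * p1 t := by linarith
  have s2 : 2 * (t * p1 t) ≤ M + t * p2 t := by linarith
  have s3 : t * p2 t ≤ M := by linarith
  have s4 : t * p1 t ≤ M := by linarith
  have c0 : Real.log (F n m) - n * m * f = n * p1 m + psi (fun n => F n m) n := by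
    have c1 : psi (fun n => F n m) n = Real.log (F n m) - n * ell (fun n => F n m) := rfl
    rw [c1, e1 m (by omega)]
    ring
  rw [c0]
  have hn' : (0 : ℝ) ≤ n := by positivity
  have hm' : (0 : ℝ) ≤ m := by positivity
  refine ⟨by positivity, ?_⟩
  have v1 : (n : ℝ) * p1 m ≤ M * (n / t) := by
    have : p1 t ≤ M / t := by rw [le_div_iff₀ ht']; linarith
    calc (n : ℝ) * p1 m ≤ n * (M / t) := by gcongr; linarith
      _ = _ := by ring
  have v2 : (m : ℝ) * p2 t ≤ M * (m / t) := by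
    have : p2 t ≤ M / t := by rw [le_div_iff₀ ht']; linarith
    calc (m : ℝ) * p2 t ≤ m * (M / t) := by gcongr
      _ = _ := by ring
  have v3 : M * (1 + (n + m) / t) = M + M * (n / t) + M * (m / t) := by ring
  rw [v3]
  linarith

end two

/-- purity at the scale `t` for a family in two dimensions -/
theorem free2 {Z : (Fin 2 → ℕ) → ℝ} (hZ : Fam Z) {t : ℕ} (ht : 1 ≤ t) {M : ℝ} (h : HG Z t M)
    {n m : ℕ} (hn : t ≤ n) (hm : t ≤ m) :
    0 ≤ Real.log (Z ![n, m]) - n * m * fe (fun n m => Z ![n, m]) ∧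
      Real.log (Z ![n, m]) - n * m * fe (fun n m => Z ![n, m]) ≤ M * (1 + (n + m) / t) := by
  have u0 : ∀ n m n', Function.update (![n, m] : Fin 2 → ℕ) 0 n' = ![n', m] := by
    intro n m n'
    funext i
    fin_cases i <;> simp
  have u1 : ∀ n m m', Function.update (![n, m] : Fin 2 → ℕ) 1 m' = ![n, m'] := by
    intro n m m'
    funext i
    fin_cases i <;> simp
  have hp : ∀ n m, 1 ≤ n → 1 ≤ m → ∀ i, 1 ≤ (![n, m] : Fin 2 → ℕ) i := by
    intro n m hn hm i
    fin_cases i <;> simpa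
  have h1 : ∀ m, 1 ≤ m → TS0 fun n => Z ![n, m] := by
    intro m hm
    have := (hZ ![1, m] (hp 1 m le_rfl hm) 0).toTS0
    simpa only [u0] using this
  have h2 : ∀ n, 1 ≤ n → TS0 fun m => Z ![n, m] := by
    intro n hn
    have := (hZ ![n, 1] (hp n 1 hn le_rfl) 1).toTS0
    simpa only [u1] using this
  refine free (F := fun n m => Z ![n, m]) h1 h2 ht ?_ ?_ ?_ hn hm
  · have := h 0 ![t, 2 * t] rfl (fun j hj => by
      fin_cases j
      · exact absurd rfl hj
      · right; rfl)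
    unfold psD at this
    simp only [u0] at this
    exact this
  · have := h 1 ![2 * t, t] rfl (fun j hj => by
      fin_cases j
      · right; rfl
      · exact absurd rfl hj)
    unfold psD at this
    simp only [u1] at this
    exact this
  · have := h 1 ![t, t] rfl (fun j hj => by
      fin_cases j
      · left; rfl
      · exact absurd rfl hj)
    unfold psD at this
    simp only [u1] at this
    exact this

end Pool.Agent.Run7.h897.FS

namespace Pool.Agent.Run7.h897.TW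

set_option linter.unusedSectionVars false
set_option linter.unusedVariables false
set_option linter.style.haveILetI false

open Pool.Agent.Run7.h897.FS

noncomputable section

variable {N l : ℕ} {G : Type*} [Group G] [NeZero N] [NeZero l] {w : Ens N l G} {z : ZMod N → G}
  [MeasurableSpace G] [MeasurableMul₂ G] [MeasurableInv G] {μ : Measure G}
  [IsProbabilityMeasure μ] [μ.IsMulLeftInvariant] [μ.IsInvInvariant]

/-- the partition function of the sector with the character `χ` -/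
def ZS (μ : Measure G) (w : Ens N l G) (χ : AddChar (ZMod N) ℂ) (a b : ℕ) [NeZero a] [NeZero b] :
    ℝ := (1 / N) * ∑ j, (χ j).re * ZT μ w j a b

/-- the same as a function of the half sides -/
def ZX (μ : Measure G) (w : Ens N l G) (χ : AddChar (ZMod N) ℂ) (n : Fin 2 → ℕ) : ℝ :=
  if h : n 0 ≠ 0 ∧ n 1 ≠ 0 then
    haveI : NeZero (2 * n 0) := ⟨by have := h.1; omega⟩
    haveI : NeZero (2 * n 1) := ⟨by have := h.2; omega⟩
    ZS μ w χ (2 * n 0) (2 * n 1)
  else 0

lemma ZX_eq {χ : AddChar (ZMod N) ℂ} {n : Fin 2 → ℕ} {p q : ℕ} [NeZero p] [NeZero q]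
    (h0 : 2 * n 0 = p) (h1 : 2 * n 1 = q) : ZX μ w χ n = ZS μ w χ p q := by
  subst h0 h1
  unfold ZX
  rw [dif_pos ⟨fun h => NeZero.ne (2 * n 0) (by rw [h, mul_zero]),
    fun h => NeZero.ne (2 * n 1) (by rw [h, mul_zero])⟩]

lemma ZS_ex {a b : ℕ} [NeZero a] [NeZero b] (hb : w.Bd) (hw : w.Sy) (χ : AddChar (ZMod N) ℂ) :
    ZS μ w χ a b = ZS μ w χ b a := by
  unfold ZS
  congr 1
  rw [← Equiv.sum_comp (Equiv.neg (ZMod N)) fun j => (χ j).re * ZT μ w j b a]
  refine Finset.sum_congr rfl fun j _ => ?_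
  rw [Equiv.neg_apply, ZT_ex hb hw, AddChar.map_neg_eq_conj, Complex.conj_re]

lemma ZS_EC {b : ℕ} [NeZero b] (hb : w.Bd) (hw : w.Sy) (h : Cn w z) (χ : AddChar (ZMod N) ℂ)
    {n : ℕ} (hn : 1 ≤ n) [NeZero (2 * n)] : ZS μ w χ (2 * n) b =
      EC (PM μ (Ls b l)) (kx (Cs (b := b) (l := l) z) χ (kp (PM μ (Ls b l)) (tk0 μ b w))) n := by
  rw [EC_kx (tk0_KS hb hw) (Cs_act hb h) χ hn]
  unfold ZS
  congr 1
  refine Finset.sum_congr rfl fun j _ => ?_
  rw [ZT_eq hb hw h, show 2 * n = n + n by ring]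

/-- the sector partition functions satisfy the axioms, given one positive value -/
theorem famX (hb : w.Bd) (hw : w.Sy) (h : Cn w z) (χ : AddChar (ZMod N) ℂ) {a : ℕ} (ha : 2 ≤ a)
    (hpos : 0 < ZX μ w χ fun _ => a) : Fam (ZX μ w χ) := by
  have hK : ∀ (b : ℕ) [NeZero b], KC (PM μ (Ls b l))
      (kx (Cs (b := b) (l := l) z) χ (kp (PM μ (Ls b l)) (tk0 μ b w))) := fun b _ =>
    kx_KC (tk0_KS hb hw) (Cs_act hb h) χ
  haveI i0 : NeZero (2 * a) := ⟨by omega⟩
  -- positivity
  have p0 : 0 < ZS μ w χ (2 * a) (2 * a) := by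
    rw [ZX_eq (p := 2 * a) (q := 2 * a) rfl rfl] at hpos
    exact hpos
  have p1 : ∀ n, 1 ≤ n → ∀ [NeZero (2 * n)], 0 < ZS μ w χ (2 * n) (2 * a) := by
    intro n hn _
    rw [ZS_EC hb hw h χ hn]
    refine (hK (2 * a)).pos_all ha ?_ n hn
    rw [← ZS_EC hb hw h χ (by omega)]
    exact p0
  have p2 : ∀ n m, 1 ≤ n → 1 ≤ m → ∀ [NeZero (2 * n)] [NeZero (2 * m)],
      0 < ZS μ w χ (2 * n) (2 * m) := by
    intro n m hn hm _ _
    rw [ZS_ex hb hw, ZS_EC hb hw h χ hm]
    refine (hK (2 * n)).pos_all ha ?_ m hm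
    rw [← ZS_EC hb hw h χ (by omega), ZS_ex hb hw]
    exact p1 n hn
  intro L hL i
  fin_cases i
  · haveI : NeZero (2 * L 1) := ⟨by have := hL 1; omega⟩
    refine ((hK (2 * L 1)).ts fun n hn => ?_).congr fun n hn => ?_
    · haveI : NeZero (2 * n) := ⟨by omega⟩
      rw [← ZS_EC hb hw h χ hn]
      exact p2 n (L 1) hn (hL 1)
    · haveI : NeZero (2 * n) := ⟨by omega⟩
      rw [← ZS_EC hb hw h χ hn]
      exact ZX_eq (by simp) (by simp)
  · haveI : NeZero (2 * L 0) := ⟨by have := hL 0; omega⟩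
    refine ((hK (2 * L 0)).ts fun n hn => ?_).congr fun n hn => ?_
    · haveI : NeZero (2 * n) := ⟨by omega⟩
      rw [← ZS_EC hb hw h χ hn, ZS_ex hb hw]
      exact p2 (L 0) n (hL 0) hn
    · haveI : NeZero (2 * n) := ⟨by omega⟩
      rw [← ZS_EC hb hw h χ hn, ZS_ex hb hw]
      exact ZX_eq (by simp) (by simp)

/-- the criterion for the sector `χ` -/
def CrX (μ : Measure G) (w : Ens N l G) (χ : AddChar (ZMod N) ℂ) (a : ℕ) (s : ℝ) : Prop :=
  ∀ (i : Fin 2) (m : Fin 2 → ℕ), m i = a → (∀ j, j ≠ i → m j = 2 * a ∨ m j = 4 * a) →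
    dP (fun n => ZX μ w χ (Function.update m i n)) a ≤ 1 / 15 * s

/-- **The free energies of the sectors at all scales.** -/
theorem sector (hb : w.Bd) (hw : w.Sy) (h : Cn w z) (χ : AddChar (ZMod N) ℂ) {a : ℕ} (ha : 2 ≤ a)
    (hpos : 0 < ZX μ w χ fun _ => a) {s : ℝ} (hs0 : 0 < s) (hs : s ≤ 1 / 2)
    (hcr : CrX μ w χ a s) {k n m : ℕ} (hn : 2 ^ (k + 1) * a ≤ n) (hm : 2 ^ (k + 1) * a ≤ m) :
    0 < ZX μ w χ ![n, m] ∧
    0 ≤ Real.log (ZX μ w χ ![n, m]) - n * m * fe (fun n m => ZX μ w χ ![n, m]) ∧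
      Real.log (ZX μ w χ ![n, m]) - n * m * fe (fun n m => ZX μ w χ ![n, m]) ≤
        xS s k * (1 + (n + m) / (2 ^ (k + 1) * a : ℕ)) := by
  have hF := famX hb hw h χ ha hpos
  have h1 := scalesS hF le_rfl (show 1 ≤ a by omega) hs0 hs
    (by intro i m hi hj; have := hcr i m hi hj; norm_num at this ⊢; exact this) k
  have ht : 1 ≤ 2 ^ (k + 1) * a := Nat.one_le_iff_ne_zero.2 (by positivity)
  have h2 : HG (ZX μ w χ) (2 ^ (k + 1) * a) (xS s k) := by
    intro i L hi hj
    have := h1 i L hi fun j hji => by rcases hj j hji with h | h <;> omega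
    refine this.trans (le_of_eq ?_)
    unfold xS
    norm_num
  refine ⟨?_, free2 hF ht h2 hn hm⟩
  have hn1 : 1 ≤ n := ht.trans hn
  have hm1 : 1 ≤ m := ht.trans hm
  have h3 := (hF ![n, m] (fun i => by fin_cases i <;> simpa) 0).pos n hn1
  have : Function.update (![n, m] : Fin 2 → ℕ) 0 n = ![n, m] := by
    funext i
    fin_cases i <;> simp
  simpa only [this] using h3

end

end Pool.Agent.Run7.h897.TW
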