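import Pool.Agent.Run7.h897.FS.Clu

/-!
# The transfer kernel of the theory on a base times a fibre
-/

open MeasureTheory Filter Topology

namespace Pool.Agent.Run7.h897.TW

set_option linter.unusedSectionVars false
set_option linter.unusedVariables false
set_option linter.style.haveILetI false

open Pool.Agent.Run7.h897.FS (BM BK kk kp PM A1 A2 xs gs)

noncomputable section

/-- The sites: base and fibre. -/
abbrev Si (a b l : ℕ) := (ZMod a × ZMod b) × (ZMod l × ZMod l)

/-- The unit vectors. -/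
def ee {a b l : ℕ} : Fin 4 → Si a b l := ![((1, 0), 0), ((0, 1), 0), (0, (1, 0)), (0, (0, 1))]

/-- The links. -/
abbrev Lk (a b l : ℕ) := Si a b l × Fin 4

/-- the points of a slice -/
abbrev Sp (b l : ℕ) := ZMod b × (ZMod l × ZMod l)

/-- the links of a slice -/
abbrev Ls (b l : ℕ) := Sp b l × Fin 3

/-- the unit vectors of a slice -/
def sh {b l : ℕ} : Fin 3 → Sp b l := ![(1, 0), (0, (1, 0)), (0, (0, 1))]

variable {N a b l : ℕ} {G : Type*} [Group G]

/-- the point with the time `t` -/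
def pt (t : ZMod a) (v : Sp b l) : Si a b l := ((t, v.1), v.2)

lemma pt_time (t : ZMod a) (v : Sp b l) : pt t v + ee 0 = pt (t + 1) v := by
  obtain ⟨u, y⟩ := v
  simp [pt, ee]

lemma pt_space (t : ZMod a) (v : Sp b l) (j : Fin 3) : pt t v + ee j.succ = pt t (v + sh j) := by
  obtain ⟨u, p, q⟩ := v
  fin_cases j <;> simp [pt, ee, sh]

/-- the links in terms of slices -/
def sg (a b l : ℕ) : (ZMod a × Ls b l) ⊕ (ZMod a × Sp b l) ≃ Lk a b l where
  toFun := fun z => match z with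
    | Sum.inl p => (pt p.1 p.2.1, p.2.2.succ)
    | Sum.inr p => (pt p.1 p.2, 0)
  invFun := fun e => Fin.cases (motive := fun _ => (ZMod a × Ls b l) ⊕ (ZMod a × Sp b l))
    (Sum.inr (e.1.1.1, (e.1.1.2, e.1.2))) (fun j => Sum.inl (e.1.1.1, ((e.1.1.2, e.1.2), j))) e.2
  left_inv := by
    rintro (⟨t, ⟨u, y⟩, j⟩ | ⟨t, u, y⟩)
    · rfl
    · rfl
  right_inv := by
    rintro ⟨⟨⟨t, u⟩, y⟩, i⟩
    refine Fin.cases ?_ (fun j => ?_) i
    · rfl
    · rfl

lemma sg_inl (t : ZMod a) (v : Sp b l) (j : Fin 3) :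
    sg a b l (Sum.inl (t, (v, j))) = (pt t v, j.succ) := rfl

lemma sg_inr (t : ZMod a) (v : Sp b l) : sg a b l (Sum.inr (t, v)) = (pt t v, 0) := rfl

/-- The plaquette variable. -/
def plq (U : Lk a b l → G) (x : Si a b l) (i j : Fin 4) : G :=
  U (x, i) * U (x + ee i, j) * (U (x + ee j, i))⁻¹ * (U (x, j))⁻¹

/-- spatial plaquettes -/
def spl (x : Ls b l → G) (v : Sp b l) (i j : Fin 3) : G :=
  x (v, i) * x (v + sh i, j) * (x (v + sh j, i))⁻¹ * (x (v, j))⁻¹

/-- temporal plaquettes -/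
def tpl (x : Ls b l → G) (g : Sp b l → G) (x' : Ls b l → G) (v : Sp b l) (j : Fin 3) : G :=
  g v * x' (v, j) * (g (v + sh j))⁻¹ * (x (v, j))⁻¹

section slices

variable [NeZero N] [NeZero a] [NeZero b] [NeZero l]

lemma plq_space (U : Lk a b l → G) (t : ZMod a) (v : Sp b l) (i j : Fin 3) :
    plq U (pt t v) i.succ j.succ = spl (xs (sg a b l) U t) v i j := by
  unfold plq spl xs
  simp only [sg_inl, pt_space]

lemma plq_time (U : Lk a b l → G) (t : ZMod a) (v : Sp b l) (j : Fin 3) :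
    plq U (pt t v) 0 j.succ =
      tpl (xs (sg a b l) U t) (gs (sg a b l) U t) (xs (sg a b l) U (t + 1)) v j := by
  unfold plq tpl xs gs
  simp only [sg_inl, sg_inr, pt_space, pt_time]

/-- The energies: `e1` for the mixed plaquettes, `e2` for those of the fibre, `e0` for those of the
base. -/
structure Ens (N l : ℕ) (G : Type*) where
  e1 : G → ℝ
  e2 : ZMod l × ZMod l → G → ℝ
  e0 : ZMod N → G → ℝ

variable (w : Ens N l G)

/-- the energy outside of the base directions -/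
def nbE (U : Lk a b l → G) : ℝ :=
  ∑ x : Si a b l, (w.e1 (plq U x 0 2) + w.e1 (plq U x 0 3) + w.e1 (plq U x 1 2) +
    w.e1 (plq U x 1 3) + w.e2 x.2 (plq U x 2 3))

/-- the energy in the base directions -/
def bsE (n : ZMod N) (U : Lk a b l → G) (u : ZMod a × ZMod b) : ℝ :=
  ∑ y : ZMod l × ZMod l, w.e0 n (plq U (u, y) 0 1)

/-- the weight -/
def wtE (U : Lk a b l → G) : ℝ :=
  Real.exp (-nbE w U) * ∏ u : ZMod a × ZMod b, ∑ n : ZMod N, Real.exp (-bsE w n U u)

/-- the energy of a slice -/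
def sE (x : Ls b l → G) : ℝ :=
  ∑ v : Sp b l, (w.e1 (spl x v 0 1) + w.e1 (spl x v 0 2) + w.e2 v.2 (spl x v 1 2))

/-- the energy of the temporal plaquettes outside of the base directions -/
def tE (x : Ls b l → G) (g : Sp b l → G) (x' : Ls b l → G) : ℝ :=
  ∑ v : Sp b l, (w.e1 (tpl x g x' v 1) + w.e1 (tpl x g x' v 2))

/-- the energy of the plaquettes in the base directions -/
def bE (n : ZMod N) (x : Ls b l → G) (g : Sp b l → G) (x' : Ls b l → G) (u : ZMod b) : ℝ :=
  ∑ y : ZMod l × ZMod l, w.e0 n (tpl x g x' (u, y) 0)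

/-- the weight of a layer -/
def kw (x : Ls b l → G) (g : Sp b l → G) (x' : Ls b l → G) : ℝ :=
  Real.exp (-(sE w x / 2 + tE w x g x' + sE w x' / 2)) *
    ∏ u : ZMod b, ∑ n : ZMod N, Real.exp (-bE w n x g x' u)

/-- the decomposition of the points -/
def ptE (a b l : ℕ) : ZMod a × Sp b l ≃ Si a b l where
  toFun p := pt p.1 p.2
  invFun x := (x.1.1, (x.1.2, x.2))
  left_inv _ := rfl
  right_inv _ := rfl

lemma nbE_slices (U : Lk a b l → G) : nbE w U =
    ∑ t : ZMod a, (tE w (xs (sg a b l) U t) (gs (sg a b l) U t) (xs (sg a b l) U (t + 1)) +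
      sE w (xs (sg a b l) U t)) := by
  unfold nbE
  rw [← (ptE a b l).sum_comp, Fintype.sum_prod_type]
  refine Finset.sum_congr rfl fun t _ => ?_
  unfold tE sE
  rw [← Finset.sum_add_distrib]
  refine Finset.sum_congr rfl fun v _ => ?_
  change w.e1 (plq U (pt t v) 0 ((1 : Fin 3).succ)) + w.e1 (plq U (pt t v) 0 ((2 : Fin 3).succ)) +
    w.e1 (plq U (pt t v) ((0 : Fin 3).succ) ((1 : Fin 3).succ)) +
    w.e1 (plq U (pt t v) ((0 : Fin 3).succ) ((2 : Fin 3).succ)) +
    w.e2 v.2 (plq U (pt t v) ((1 : Fin 3).succ) ((2 : Fin 3).succ)) = _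
  rw [plq_time, plq_time, plq_space, plq_space, plq_space]
  ring

lemma bsE_slices (n : ZMod N) (U : Lk a b l → G) (t : ZMod a) (u : ZMod b) :
    bsE w n U (t, u) =
      bE w n (xs (sg a b l) U t) (gs (sg a b l) U t) (xs (sg a b l) U (t + 1)) u := by
  unfold bsE bE
  refine Finset.sum_congr rfl fun y _ => ?_
  change w.e0 n (plq U (pt t (u, y)) 0 ((0 : Fin 3).succ)) = _
  rw [plq_time]

lemma prod_kw (U : Lk a b l → G) :
    ∏ t, kw w (xs (sg a b l) U t) (gs (sg a b l) U t) (xs (sg a b l) U (t + 1)) = wtE w U := by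
  unfold kw wtE
  rw [Finset.prod_mul_distrib, Fintype.prod_prod_type, ← Real.exp_sum, nbE_slices,
    Finset.sum_neg_distrib]
  have h1 : ∑ t : ZMod a, sE w (xs (sg a b l) U (t + 1)) =
      ∑ t : ZMod a, sE w (xs (sg a b l) U t) :=
    Equiv.sum_comp (Equiv.addRight (1 : ZMod a)) fun t => sE w (xs (sg a b l) U t)
  simp only [Finset.sum_add_distrib, ← Finset.sum_div, h1, bsE_slices]
  have h2 : ∀ x y : ℝ, x / 2 + y + x / 2 = y + x := fun x y => by ring
  rw [h2]

end slices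

/-- symmetries of the energies -/
structure Ens.Sy (w : Ens N l G) : Prop where
  i1 : ∀ g, w.e1 g⁻¹ = w.e1 g
  c1 : ∀ h g, w.e1 (h * g * h⁻¹) = w.e1 g
  i0 : ∀ n g, w.e0 n g⁻¹ = w.e0 (-n) g
  c0 : ∀ n h g, w.e0 n (h * g * h⁻¹) = w.e0 n g

/-- boundedness of the energies -/
structure Ens.Bd [MeasurableSpace G] (w : Ens N l G) : Prop where
  b1 : BM w.e1
  b2 : ∀ y, BM (w.e2 y)
  b0 : ∀ n, BM (w.e0 n)

section kernel

variable [NeZero N] [NeZero b] [NeZero l] {w : Ens N l G}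

lemma tpl_swap (x x' : Ls b l → G) (g : Sp b l → G) (v : Sp b l) (j : Fin 3) :
    tpl x' (fun y => (g y)⁻¹) x v j = (g v)⁻¹ * (tpl x g x' v j)⁻¹ * ((g v)⁻¹)⁻¹ := by
  unfold tpl
  group

lemma tE_swap (hw : w.Sy) (x x' : Ls b l → G) (g : Sp b l → G) :
    tE w x' (fun y => (g y)⁻¹) x = tE w x g x' := by
  unfold tE
  refine Finset.sum_congr rfl fun v _ => ?_
  rw [tpl_swap, tpl_swap, hw.c1, hw.c1, hw.i1, hw.i1]

lemma bE_swap (hw : w.Sy) (x x' : Ls b l → G) (g : Sp b l → G) (n : ZMod N) (u : ZMod b) :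
    bE w n x' (fun y => (g y)⁻¹) x u = bE w (-n) x g x' u := by
  unfold bE
  refine Finset.sum_congr rfl fun y _ => ?_
  rw [tpl_swap, hw.c0, hw.i0]

lemma kw_swap (hw : w.Sy) (x x' : Ls b l → G) (g : Sp b l → G) :
    kw w x' (fun y => (g y)⁻¹) x = kw w x g x' := by
  unfold kw
  have h3 : ∀ u : ZMod b, ∑ n : ZMod N, Real.exp (-bE w n x' (fun y => (g y)⁻¹) x u) =
      ∑ n : ZMod N, Real.exp (-bE w n x g x' u) := by
    intro u
    simp only [bE_swap hw]
    exact Equiv.sum_comp (Equiv.neg (ZMod N)) fun n => Real.exp (-bE w n x g x' u)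
  have h4 : sE w x' / 2 + tE w x g x' + sE w x / 2 = sE w x / 2 + tE w x g x' + sE w x' / 2 := by
    ring
  rw [tE_swap hw, h4, Finset.prod_congr rfl fun u _ => h3 u]

variable [MeasurableSpace G] [MeasurableMul₂ G] [MeasurableInv G]

lemma spl_meas (v : Sp b l) (i j : Fin 3) : Measurable fun x : Ls b l → G => spl x v i j := by
  have h : ∀ e : Ls b l, Measurable fun x : Ls b l → G => x e := fun e => measurable_pi_apply e
  unfold spl
  exact (((h _).mul (h _)).mul (h _).inv).mul (h _).inv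

lemma sE_bm (hw : w.Bd) : BM fun x : Ls b l → G => sE w x := by
  unfold sE
  exact BM.sum _ fun v _ => ((hw.b1.comp (spl_meas v 0 1)).add (hw.b1.comp (spl_meas v 0 2))).add
    ((hw.b2 _).comp (spl_meas v 1 2))

lemma tpl_meas (v : Sp b l) (j : Fin 3) :
    Measurable fun z : ((Ls b l → G) × (Ls b l → G)) × (Sp b l → G) =>
      tpl z.1.1 z.2 z.1.2 v j := by
  have m1 : ∀ v, Measurable fun z : ((Ls b l → G) × (Ls b l → G)) × (Sp b l → G) => z.2 v :=
    fun v => (measurable_pi_apply _).comp measurable_snd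
  have m3 : ∀ e, Measurable fun z : ((Ls b l → G) × (Ls b l → G)) × (Sp b l → G) => z.1.2 e :=
    fun e => (measurable_pi_apply _).comp measurable_fst.snd
  have m4 : ∀ e, Measurable fun z : ((Ls b l → G) × (Ls b l → G)) × (Sp b l → G) => z.1.1 e :=
    fun e => (measurable_pi_apply _).comp measurable_fst.fst
  unfold tpl
  exact (((m1 _).mul (m3 _)).mul (m1 _).inv).mul (m4 _).inv

lemma tE_bm (hw : w.Bd) : BM fun z : ((Ls b l → G) × (Ls b l → G)) × (Sp b l → G) =>
    tE w z.1.1 z.2 z.1.2 := by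
  unfold tE
  exact BM.sum _ fun v _ => (hw.b1.comp (tpl_meas v 1)).add (hw.b1.comp (tpl_meas v 2))

lemma bE_bm (hw : w.Bd) (n : ZMod N) (u : ZMod b) :
    BM fun z : ((Ls b l → G) × (Ls b l → G)) × (Sp b l → G) => bE w n z.1.1 z.2 z.1.2 u := by
  unfold bE
  exact BM.sum _ fun y _ => (hw.b0 n).comp (tpl_meas _ 0)

lemma kw_bm (hw : w.Bd) : BK (G := G) (kw (b := b) w) := by
  have h1 : BM fun z : ((Ls b l → G) × (Ls b l → G)) × (Sp b l → G) => sE w z.1.1 :=
    (sE_bm hw).comp measurable_fst.fst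
  have h2 : BM fun z : ((Ls b l → G) × (Ls b l → G)) × (Sp b l → G) => sE w z.1.2 :=
    (sE_bm hw).comp measurable_fst.snd
  have h5 : BM fun z : ((Ls b l → G) × (Ls b l → G)) × (Sp b l → G) =>
      sE w z.1.1 / 2 + tE w z.1.1 z.2 z.1.2 + sE w z.1.2 / 2 := by
    have := ((h1.mul (BM.const (1 / 2))).add (tE_bm hw)).add (h2.mul (BM.const (1 / 2)))
    convert this using 1
    funext z
    ring
  unfold BK kw
  exact h5.neg.exp.mul (BM.prod _ fun u _ => BM.sum _ fun n _ => (bE_bm hw n u).neg.exp)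

lemma kw_pos (x : Ls b l → G) (g : Sp b l → G) (x' : Ls b l → G) : 0 < kw w x g x' := by
  unfold kw
  refine mul_pos (Real.exp_pos _) (Finset.prod_pos fun u _ => Finset.sum_pos (fun n _ =>
    Real.exp_pos _) ⟨0, Finset.mem_univ _⟩)

variable {μ : Measure G} [IsProbabilityMeasure μ]

/-- the transfer kernel -/
def tk (μ : Measure G) (b : ℕ) [NeZero b] (w : Ens N l G) :
    (Ls b l → G) → (Ls b l → G) → ℝ := kk μ (kw (b := b) w)

lemma tk_bm (hw : w.Bd) : BM (Function.uncurry (tk μ b w)) := FS.kk_bm (kw_bm hw)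

lemma tk_pos (hw : w.Bd) (x x' : Ls b l → G) : 0 < tk μ b w x x' := by
  unfold tk kk
  refine BM.int_pos ?_ fun g => kw_pos x g x'
  exact BM.comp (kw_bm (b := b) hw) (φ := fun g : Sp b l → G => ((x, x'), g))
    (measurable_const.prodMk measurable_id)

lemma tk_symm [μ.IsInvInvariant] (hb : w.Bd) (hw : w.Sy) (x x' : Ls b l → G) :
    tk μ b w x x' = tk μ b w x' x := by
  unfold tk kk
  have h1 : MeasurePreserving (fun g : Sp b l → G => fun y => (g y)⁻¹) (PM μ (Sp b l))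
      (PM μ (Sp b l)) :=
    measurePreserving_pi (fun _ : Sp b l => μ) (fun _ : Sp b l => μ)
      (f := fun _ g => g⁻¹) fun _ => Measure.measurePreserving_inv μ
  have h2 : BM fun g : Sp b l → G => kw w x' g x :=
    BM.comp (kw_bm (b := b) hb) (φ := fun g : Sp b l → G => ((x', x), g))
      (measurable_const.prodMk measurable_id)
  conv_rhs => rw [← h1.map_eq]
  rw [integral_map h1.measurable.aemeasurable h2.1.aestronglyMeasurable]
  congr 1
  funext g
  exact (kw_swap hw x x' g).symm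

/-- the partition function -/
def ZE (μ : Measure G) (w : Ens N l G) (a b : ℕ) [NeZero a] [NeZero b] : ℝ :=
  ∫ U : Lk a b l → G, wtE w U ∂(PM μ (Lk a b l))

variable [NeZero a]

lemma ZE_eq (hw : w.Bd) : ZE μ w a b =
    A1 (PM μ (Ls b l)) (kp (PM μ (Ls b l)) (tk μ b w)) a (fun _ => 1) := by
  unfold ZE
  simp only [← prod_kw]
  exact FS.int_ring_zero (μ := μ) (sg a b l) (kw_bm hw)

end kernel

end

end Pool.Agent.Run7.h897.TW
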